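import Pool.Agent.H123R2.Gen.Stubs

set_option autoImplicit false
set_option linter.unusedSectionVars false
set_option linter.unusedVariables false

namespace Pool.Agent.H123R2.Gen.B2

open Finset

section
variable {V : Type} [Fintype V] [DecidableEq V]

private theorem M_msum {α : Type} (S : Multiset α) (w : V → ℝ) (n : ℕ) (f : α → Multiset V → ℝ) :
    M w n (fun J => (S.map (fun T => f T J)).sum) = (S.map (fun T => M w n (f T))).sum := by
  induction S using Multiset.induction_on with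
  | empty => simp [M_zero_fun]
  | cons a S ih =>
    simp only [Multiset.map_cons, Multiset.sum_cons]
    rw [M_add_fun, ih]

/-- one factor -/
private theorem fac {w : V → ℝ} {F : Multiset V → Prop} {t : ℕ} {d : ℝ} (hS : Sys w F t d)
    (m₂ : ℕ) (η : ℝ) (hη : 0 ≤ η) (hη1 : η ≤ 1)
    (hdm : d * (m₂ : ℝ) ^ (t - 1) ≤ η) (x : V) (T : Multiset V) (hT : T.card ≤ t - 1) :
    0 ≤ (m₂ : ℝ) ^ (t - 1 - T.card) *
        M w (t - 1 - T.card) (fun U => ind (good w F t η m₂ (x ::ₘ (T + U)))) ∧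
    (m₂ : ℝ) ^ (t - 1 - T.card) *
        M w (t - 1 - T.card) (fun U => ind (good w F t η m₂ (x ::ₘ (T + U)))) ≤ 1 ∧
    (0 < t - 1 - T.card → (m₂ : ℝ) ^ (t - 1 - T.card) *
        M w (t - 1 - T.card) (fun U => ind (good w F t η m₂ (x ::ₘ (T + U)))) ≤ η) := by
  have hw := hS.w0
  have ht := hS.ht
  have h0 : 0 ≤ (m₂ : ℝ) ^ (t - 1 - T.card) *
        M w (t - 1 - T.card) (fun U => ind (good w F t η m₂ (x ::ₘ (T + U)))) :=
    mul_nonneg (by positivity) (M_nonneg w hw _ fun U _ => ind_nonneg _)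
  have h1 : 0 < t - 1 - T.card → (m₂ : ℝ) ^ (t - 1 - T.card) *
        M w (t - 1 - T.card) (fun U => ind (good w F t η m₂ (x ::ₘ (T + U)))) ≤ η := by
    intro hpos
    rcases Nat.eq_zero_or_pos T.card with h | h
    · have hT0 : T = 0 := Multiset.card_eq_zero.1 h
      subst hT0
      simp only [Multiset.card_zero, Nat.sub_zero, zero_add]
      have h2 := good_vertex hS η m₂ x
      calc (m₂ : ℝ) ^ (t - 1) * M w (t - 1) (fun U => ind (good w F t η m₂ (x ::ₘ U)))
          ≤ (m₂ : ℝ) ^ (t - 1) * d := mul_le_mul_of_nonneg_left h2 (by positivity)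
        _ = d * (m₂ : ℝ) ^ (t - 1) := mul_comm _ _
        _ ≤ η := hdm
    · have h2 := good_sum w hw F t η hη m₂ (x ::ₘ T) (by simp; omega) (by simp; omega)
      have e : t - (x ::ₘ T).card = t - 1 - T.card := by simp; omega
      rw [e] at h2
      simpa only [Multiset.cons_add] using h2
  refine ⟨h0, ?_, h1⟩
  rcases Nat.eq_zero_or_pos (t - 1 - T.card) with h | h
  · rw [h, pow_zero, one_mul, M_zero]
    exact ind_le_one _
  · exact (h1 h).trans hη1

theorem b_two {w : V → ℝ} {F : Multiset V → Prop} {t : ℕ} {d : ℝ} (hS : Sys w F t d)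
    (m m₂ : ℕ) (hm : 1 ≤ m) (hmm : m ≤ m₂) (η : ℝ) (hη : 0 ≤ η) (hη1 : η ≤ 1)
    (hdm : d * (m₂ : ℝ) ^ (t - 1) ≤ η) (x : V) (S : Multiset V) (hS0 : 0 < S.card)
    (hS1 : S.card < 2 * (t - 1)) :
    (m : ℝ) ^ (2 * (t - 1) - S.card) *
      M w (2 * (t - 1) - S.card) (fun Z => ind (LL w F t η m₂ m x (S + Z))) ≤ 4 ^ t * η := by
  have hw := hS.w0
  have ht := hS.ht
  set n := 2 * (t - 1) - S.card with hn
  set g : Multiset V → ℝ := fun A => ind (good w F t η m₂ (x ::ₘ A)) with hg
  have hg0 : ∀ A, 0 ≤ g A := fun A => ind_nonneg _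
  have hmsn : ∀ (S : Multiset (Multiset V)) (g : Multiset V → ℝ), (∀ T, 0 ≤ g T) →
      0 ≤ (S.map g).sum := by
    intro S g hg
    exact Multiset.sum_nonneg (by
      intro y hy
      obtain ⟨T, _, rfl⟩ := Multiset.mem_map.1 hy
      exact hg T)
  -- pointwise bound
  have hpt : ∀ Z : Multiset V, ind (LL w F t η m₂ m x (S + Z)) ≤
      ∑ i ∈ range t, ((S.powersetCard i).map (fun S₁ =>
        ((Z.powersetCard (t - 1 - i)).map (fun U => g (S₁ + U) * g ((S - S₁) + (Z - U)))).sum)).sum := by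
    intro Z
    have hnn : ∀ i, 0 ≤ ((S.powersetCard i).map (fun S₁ =>
        ((Z.powersetCard (t - 1 - i)).map (fun U => g (S₁ + U) * g ((S - S₁) + (Z - U)))).sum)).sum :=
      fun i => hmsn _ _ fun S₁ => hmsn _ _ fun U => mul_nonneg (hg0 _) (hg0 _)
    by_cases h : LL w F t η m₂ m x (S + Z)
    · rw [ind_true h]
      obtain ⟨⟨A, A', hA, hA', hsum, hgA, hgA'⟩, -⟩ := h
      set S₁ := S ∩ A with hS₁
      set U := A - S with hU
      have e1 : A = S₁ + U := by
        rw [hS₁, hU, Multiset.inter_comm, add_comm]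
        exact (Multiset.sub_add_inter A S).symm
      have hS1S : S₁ ≤ S := Multiset.inter_le_left
      have hUZ : U ≤ Z := by
        rw [hU, tsub_le_iff_left, hsum]
        exact Multiset.le_add_right _ _
      have hcard : S₁.card + U.card = t - 1 := by rw [← hA, e1, Multiset.card_add]
      have e2 : A' = (S - S₁) + (Z - U) := by
        have h3 : S₁ + (S - S₁) = S := add_tsub_cancel_of_le hS1S
        have h4 : U + (Z - U) = Z := add_tsub_cancel_of_le hUZ
        have h5 : (S₁ + U) + ((S - S₁) + (Z - U)) = (S₁ + U) + A' := by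
          rw [← e1, ← hsum]
          calc A + ((S - S₁) + (Z - U)) = (S₁ + U) + ((S - S₁) + (Z - U)) := by rw [← e1]
            _ = (S₁ + (S - S₁)) + (U + (Z - U)) := add_add_add_comm _ _ _ _
            _ = S + Z := by rw [h3, h4]
        exact (add_left_cancel h5).symm
      have hi : S₁.card ∈ range t := by rw [mem_range]; omega
      refine le_trans ?_ (Finset.single_le_sum (fun i _ => hnn i) hi)
      have hmem := pc_ge_of_mem hS1S (fun S₁' =>
        ((Z.powersetCard (t - 1 - S₁.card)).map (fun U => g (S₁' + U) * g ((S - S₁') + (Z - U)))).sum)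
        (fun S₁' => hmsn _ _ fun U => mul_nonneg (hg0 _) (hg0 _))
      refine le_trans ?_ hmem
      have hUc : U.card = t - 1 - S₁.card := by omega
      have hmem2 := pc_ge_of_mem hUZ (fun U => g (S₁ + U) * g ((S - S₁) + (Z - U)))
        (fun U => mul_nonneg (hg0 _) (hg0 _))
      rw [hUc] at hmem2
      refine le_trans ?_ hmem2
      have h6 : g (S₁ + U) = 1 := by rw [hg]; simp only; rw [← e1]; exact ind_true hgA
      have h7 : g ((S - S₁) + (Z - U)) = 1 := by rw [hg]; simp only; rw [← e2]; exact ind_true hgA'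
      simp only [h6, h7]
      norm_num
    · rw [ind_false h]
      exact Finset.sum_nonneg fun i _ => hnn i
  -- average
  have h1 : M w n (fun Z => ind (LL w F t η m₂ m x (S + Z))) ≤
      ∑ i ∈ range t, ((S.powersetCard i).map (fun S₁ => (n.choose (t - 1 - i) : ℝ) *
        (M w (t - 1 - i) (fun U => g (S₁ + U)) *
          M w (n - (t - 1 - i)) (fun R => g ((S - S₁) + R))))).sum := by
    refine (M_mono w hw n fun Z _ => hpt Z).trans (le_of_eq ?_)
    rw [M_sum]
    refine Finset.sum_congr rfl fun i _ => ?_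
    rw [M_msum]
    congr 1
    refine Multiset.map_congr rfl fun S₁ _ => ?_
    have h2 := M_pc w n (t - 1 - i) (fun U R => g (S₁ + U) * g ((S - S₁) + R))
    rw [h2]
    congr 1
    have h3 : ∀ A : Multiset V, M w (n - (t - 1 - i)) (fun R => g (S₁ + A) * g ((S - S₁) + R)) =
        g (S₁ + A) * M w (n - (t - 1 - i)) (fun R => g ((S - S₁) + R)) := fun A => M_mul_left _ _ _ _
    simp only [h3]
    rw [M_mul_right]
  -- each term
  have hterm : ∀ i ∈ range t, ∀ S₁ ∈ S.powersetCard i, (m : ℝ) ^ n * ((n.choose (t - 1 - i) : ℝ) *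
        (M w (t - 1 - i) (fun U => g (S₁ + U)) *
          M w (n - (t - 1 - i)) (fun R => g ((S - S₁) + R)))) ≤ 2 ^ n * η := by
    intro i hi S₁ hS₁
    have hit : i < t := mem_range.1 hi
    obtain ⟨hle, hcard⟩ := Multiset.mem_powersetCard.1 hS₁
    by_cases hun : t - 1 - i ≤ n
    · have hc2 : (S - S₁).card = S.card - i := by rw [Multiset.card_sub hle, hcard]
      have hiS : i ≤ S.card := by rw [← hcard]; exact Multiset.card_le_card hle
      have f1 := fac hS m₂ η hη hη1 hdm x S₁ (by omega)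
      have f2 := fac hS m₂ η hη hη1 hdm x (S - S₁) (by omega)
      rw [hcard] at f1
      have e2 : t - 1 - (S - S₁).card = n - (t - 1 - i) := by omega
      rw [e2] at f2
      set a := M w (t - 1 - i) (fun U => g (S₁ + U)) with ha
      set b := M w (n - (t - 1 - i)) (fun R => g ((S - S₁) + R)) with hb
      have ha0 : 0 ≤ a := M_nonneg w hw _ fun U _ => hg0 _
      have hb0 : 0 ≤ b := M_nonneg w hw _ fun U _ => hg0 _
      obtain ⟨f10, f11, f12⟩ := f1
      obtain ⟨f20, f21, f22⟩ := f2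
      have hchoose : (n.choose (t - 1 - i) : ℝ) ≤ 2 ^ n := by
        exact_mod_cast Nat.choose_le_two_pow n (t - 1 - i)
      have hpow : (m : ℝ) ^ n ≤ (m₂ : ℝ) ^ (t - 1 - i) * (m₂ : ℝ) ^ (n - (t - 1 - i)) := by
        rw [← pow_add, show t - 1 - i + (n - (t - 1 - i)) = n by omega]
        exact pow_le_pow_left₀ (Nat.cast_nonneg m) (by exact_mod_cast hmm) n
      have hprod : ((m₂ : ℝ) ^ (t - 1 - i) * a) * ((m₂ : ℝ) ^ (n - (t - 1 - i)) * b) ≤ η := by
        rcases Nat.eq_zero_or_pos (t - 1 - i) with h | h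
        · have h2 : 0 < n - (t - 1 - i) := by omega
          calc ((m₂ : ℝ) ^ (t - 1 - i) * a) * ((m₂ : ℝ) ^ (n - (t - 1 - i)) * b)
              ≤ 1 * ((m₂ : ℝ) ^ (n - (t - 1 - i)) * b) := mul_le_mul_of_nonneg_right f11 f20
            _ ≤ η := by rw [one_mul]; exact f22 h2
        · calc ((m₂ : ℝ) ^ (t - 1 - i) * a) * ((m₂ : ℝ) ^ (n - (t - 1 - i)) * b)
              ≤ ((m₂ : ℝ) ^ (t - 1 - i) * a) * 1 := mul_le_mul_of_nonneg_left f21 f10
            _ ≤ η := by rw [mul_one]; exact f12 h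
      calc (m : ℝ) ^ n * ((n.choose (t - 1 - i) : ℝ) * (a * b))
          ≤ ((m₂ : ℝ) ^ (t - 1 - i) * (m₂ : ℝ) ^ (n - (t - 1 - i))) * (2 ^ n * (a * b)) := by
            gcongr
        _ = 2 ^ n * (((m₂ : ℝ) ^ (t - 1 - i) * a) * ((m₂ : ℝ) ^ (n - (t - 1 - i)) * b)) := by ring
        _ ≤ 2 ^ n * η := by gcongr
    · rw [Nat.choose_eq_zero_of_lt (by omega)]
      simp only [Nat.cast_zero, zero_mul, mul_zero]
      positivity
  have h2 : (m : ℝ) ^ n * M w n (fun Z => ind (LL w F t η m₂ m x (S + Z))) ≤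
      ∑ i ∈ range t, ((S.powersetCard i).map (fun _ => 2 ^ n * η)).sum := by
    refine (mul_le_mul_of_nonneg_left h1 (by positivity)).trans ?_
    rw [Finset.mul_sum]
    refine Finset.sum_le_sum fun i hi => ?_
    rw [← Multiset.sum_map_mul_left]
    exact Multiset.sum_map_le_sum_map _ _ fun S₁ hS₁ => hterm i hi S₁ hS₁
  refine h2.trans ?_
  have h3 : ∀ i, ((S.powersetCard i).map (fun _ => 2 ^ n * η)).sum =
      (S.card.choose i : ℝ) * (2 ^ n * η) := by
    intro i
    rw [Multiset.map_const', Multiset.sum_replicate, Multiset.card_powersetCard, nsmul_eq_mul]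
  simp only [h3]
  rw [← Finset.sum_mul]
  have h4 : ∑ i ∈ range t, (S.card.choose i : ℝ) ≤ 2 ^ S.card := by
    have h5 : ∑ i ∈ range t, (S.card.choose i) ≤ 2 ^ S.card := by
      rw [← Nat.sum_range_choose]
      rcases le_total t (S.card + 1) with h | h
      · exact Finset.sum_le_sum_of_subset (Finset.range_mono h)
      · refine le_of_eq (Finset.sum_subset (Finset.range_mono h) fun i _ hi => ?_).symm
        rw [mem_range, not_lt] at hi
        exact Nat.choose_eq_zero_of_lt (by omega)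
    exact_mod_cast h5
  calc (∑ i ∈ range t, (S.card.choose i : ℝ)) * (2 ^ n * η) ≤ 2 ^ S.card * (2 ^ n * η) := by gcongr
    _ = 2 ^ (2 * (t - 1)) * η := by
        rw [← mul_assoc, ← pow_add]
        congr 2
        omega
    _ = 4 ^ (t - 1) * η := by rw [pow_mul]; norm_num
    _ ≤ 4 ^ t * η := by
        gcongr
        · norm_num
        · omega

end

end Pool.Agent.H123R2.Gen.B2
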