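import Pool.Agent.H123R2.Gen.MC

/-!
Basic facts on independence probabilities, codegrees and sums over edges.
-/

set_option autoImplicit false
set_option linter.unusedSectionVars false
set_option linter.unusedVariables false

namespace Pool.Agent.H123R2.Gen

open Finset

section
variable {V : Type} [Fintype V] [DecidableEq V]

theorem Indep_mono {F : Multiset V → Prop} {t : ℕ} {X Y : Multiset V} (h : X ≤ Y)
    (hY : Indep F t Y) : Indep F t X := fun Z hZ hc => hY Z (hZ.trans h) hc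

theorem Q_nonneg (w : V → ℝ) (hw : ∀ x, 0 ≤ w x) (F : Multiset V → Prop) (t m : ℕ)
    (X : Multiset V) : 0 ≤ Q w F t m X := M_nonneg w hw m fun _ _ => ind_nonneg _

theorem Q_le_one (w : V → ℝ) (hw : ∀ x, 0 ≤ w x) (hw1 : ∑ x, w x = 1) (F : Multiset V → Prop)
    (t m : ℕ) (X : Multiset V) : Q w F t m X ≤ 1 := by
  refine (M_mono w hw m (g := fun _ => 1) fun _ _ => ind_le_one _).trans ?_
  rw [M_const w hw1]

theorem Q_anti (w : V → ℝ) (hw : ∀ x, 0 ≤ w x) (F : Multiset V → Prop) (t m : ℕ)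
    {X Y : Multiset V} (h : X ≤ Y) : Q w F t m Y ≤ Q w F t m X := by
  refine M_mono w hw m fun J _ => ind_mono fun hI => Indep_mono ?_ hI
  exact add_le_add_left h J

theorem M_Q (w : V → ℝ) (F : Multiset V → Prop) (t s m : ℕ) (X : Multiset V) :
    M w s (fun Y => Q w F t m (X + Y)) = Q w F t (m + s) X := by
  unfold Q
  rw [add_comm m s, M_add]
  refine M_congr w s fun Y _ => M_congr w m fun J _ => ?_
  rw [add_assoc]

theorem Q_anti_m (w : V → ℝ) (hw : ∀ x, 0 ≤ w x) (hw1 : ∑ x, w x = 1)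
    (F : Multiset V → Prop) (t : ℕ) {m n : ℕ} (h : m ≤ n) (X : Multiset V) :
    Q w F t n X ≤ Q w F t m X := by
  obtain ⟨s, rfl⟩ := Nat.exists_eq_add_of_le h
  rw [← M_Q w F t s m X]
  refine (M_mono w hw s (g := fun _ => Q w F t m X) fun Y _ => ?_).trans ?_
  · exact Q_anti w hw F t m (Multiset.le_add_right X Y)
  · rw [M_const w hw1]

theorem Q_small (w : V → ℝ) (hw1 : ∑ x, w x = 1) (F : Multiset V → Prop) (t m : ℕ)
    (X : Multiset V) (h : X.card + m < t) : Q w F t m X = 1 := by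
  unfold Q
  rw [M_congr w m (g := fun _ => 1) fun J hJ => ?_, M_const w hw1]
  refine ind_true fun Z hZ hc => ?_
  have := Multiset.card_le_card hZ
  rw [Multiset.card_add] at this
  omega

theorem cd_nonneg (w : V → ℝ) (hw : ∀ x, 0 ≤ w x) (F : Multiset V → Prop) (t : ℕ)
    (X : Multiset V) : 0 ≤ cd w F t X := M_nonneg w hw _ fun _ _ => ind_nonneg _

theorem cd_le_one (w : V → ℝ) (hw : ∀ x, 0 ≤ w x) (hw1 : ∑ x, w x = 1)
    (F : Multiset V → Prop) (t : ℕ) (X : Multiset V) : cd w F t X ≤ 1 := by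
  refine (M_mono w hw _ (g := fun _ => 1) fun _ _ => ind_le_one _).trans ?_
  rw [M_const w hw1]

theorem cd_top (w : V → ℝ) (F : Multiset V → Prop) (t : ℕ) {X : Multiset V}
    (h : X.card = t) : cd w F t X = ind (F X) := by
  unfold cd
  rw [h, Nat.sub_self, M_zero, add_zero]

theorem M_cd (w : V → ℝ) (F : Multiset V → Prop) (t s : ℕ) (X : Multiset V)
    (h : X.card + s ≤ t) : M w s (fun Y => cd w F t (X + Y)) = cd w F t X := by
  unfold cd
  have e : t - X.card = s + (t - (X.card + s)) := by omega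
  rw [e, M_add]
  refine M_congr w s fun Y hY => ?_
  rw [Multiset.card_add, hY]
  refine M_congr w _ fun Z _ => ?_
  rw [add_assoc]

theorem sum_cd (w : V → ℝ) (F : Multiset V → Prop) (t : ℕ) (X : Multiset V)
    (h : X.card < t) : ∑ x, w x * cd w F t (x ::ₘ X) = cd w F t X := by
  rw [← M_cd w F t 1 X h, M_succ]
  refine Finset.sum_congr rfl fun x _ => ?_
  rw [M_zero]
  congr 2
  rw [Multiset.add_cons, add_zero]

theorem cd_zero {w : V → ℝ} {F : Multiset V → Prop} {t : ℕ} {d : ℝ} (hS : Sys w F t d) :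
    cd w F t 0 = d := by
  have ht := hS.ht
  rw [← sum_cd w F t 0 (by simp; omega)]
  have : ∀ x : V, cd w F t (x ::ₘ 0) = d := fun x => hS.reg x
  simp only [this]
  rw [← Finset.sum_mul, hS.w1, one_mul]

theorem d_nonneg {w : V → ℝ} {F : Multiset V → Prop} {t : ℕ} {d : ℝ} (hS : Sys w F t d) :
    0 ≤ d := by
  rw [← cd_zero hS]; exact cd_nonneg w hS.w0 F t 0

/-- expected number of `A ≤ J`, weighted by `h`, on the event that `J` is independent -/
theorem marg (w : V → ℝ) (F : Multiset V → Prop) (t m a : ℕ) (h : Multiset V → ℝ) :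
    M w m (fun J => ind (Indep F t J) * ((J.powersetCard a).map h).sum) =
      (m.choose a : ℝ) * M w a (fun A => h A * Q w F t (m - a) A) := by
  have h1 := M_pc w m a (fun A R => ind (Indep F t (A + R)) * h A)
  have h2 : M w m (fun J => ind (Indep F t J) * ((J.powersetCard a).map h).sum) =
      M w m (fun J => ((J.powersetCard a).map
        (fun A => ind (Indep F t (A + (J - A))) * h A)).sum) := by
    refine M_congr w m fun J _ => ?_
    rw [← Multiset.sum_map_mul_left]
    congr 1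
    refine Multiset.map_congr rfl fun A hA => ?_
    rw [add_tsub_cancel_of_le (Multiset.mem_powersetCard.mp hA).1]
  rw [h2, h1]
  congr 1
  refine M_congr w a fun A _ => ?_
  rw [M_mul_right, mul_comm]
  rfl

theorem incr (w : V → ℝ) (hw1 : ∑ x, w x = 1) (F : Multiset V → Prop) (t m : ℕ) :
    ∑ x, w x * M w m (fun J => ind (Indep F t J ∧ ¬ Indep F t (x ::ₘ J))) =
      Q w F t m 0 - Q w F t (m + 1) 0 := by
  have h1 : Q w F t (m + 1) 0 = ∑ x, w x * M w m (fun J => ind (Indep F t (x ::ₘ J))) := by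
    unfold Q
    rw [M_succ]
    simp only [zero_add]
  have h2 : Q w F t m 0 = ∑ x, w x * M w m (fun J => ind (Indep F t J)) := by
    unfold Q
    rw [← Finset.sum_mul, hw1, one_mul]
    simp only [zero_add]
  rw [h1, h2, ← Finset.sum_sub_distrib]
  refine Finset.sum_congr rfl fun x _ => ?_
  rw [← mul_sub, ← M_sub_fun]
  congr 1
  refine M_congr w m fun J _ => ?_
  rw [ind_and, ind_not]
  by_cases hx : Indep F t (x ::ₘ J)
  · rw [ind_true hx, ind_true (Indep_mono (Multiset.le_cons_self J x) hx)]; ring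
  · rw [ind_false hx]; ring

theorem block1 {F : Multiset V → Prop} {t : ℕ} (ht : 1 ≤ t) {J : Multiset V} {x : V}
    (h1 : Indep F t J) (h2 : ¬ Indep F t (x ::ₘ J)) :
    ∃ A : Multiset V, A ≤ J ∧ A.card = t - 1 ∧ F (x ::ₘ A) := by
  unfold Indep at h2
  push Not at h2
  obtain ⟨Z, hZ, hc, hF⟩ := h2
  have hx : x ∈ Z := by
    by_contra hx
    exact h1 Z ((Multiset.le_cons_of_notMem hx).mp hZ) hc hF
  obtain ⟨A, rfl⟩ := Multiset.exists_cons_of_mem hx
  refine ⟨A, (Multiset.cons_le_cons_iff x).mp hZ, ?_, hF⟩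
  rw [Multiset.card_cons] at hc
  omega

theorem pc_ge_of_mem {J A : Multiset V} (hA : A ≤ J) (f : Multiset V → ℝ) (hf : ∀ Z, 0 ≤ f Z) :
    f A ≤ ((J.powersetCard A.card).map f).sum := by
  have hm : A ∈ J.powersetCard A.card := Multiset.mem_powersetCard.mpr ⟨hA, rfl⟩
  obtain ⟨S, hS⟩ := Multiset.exists_cons_of_mem hm
  rw [hS, Multiset.map_cons, Multiset.sum_cons]
  have : 0 ≤ (S.map f).sum := Multiset.sum_nonneg fun x hx => by
    obtain ⟨Z, _, rfl⟩ := Multiset.mem_map.mp hx
    exact hf Z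
  linarith

private theorem pc_nonneg (J : Multiset V) (a : ℕ) (f : Multiset V → ℝ) (hf : ∀ Z, 0 ≤ f Z) :
    0 ≤ ((J.powersetCard a).map f).sum := Multiset.sum_nonneg fun x hx => by
  obtain ⟨Z, _, rfl⟩ := Multiset.mem_map.mp hx
  exact hf Z

theorem blockX {F : Multiset V → Prop} {t : ℕ} {X J : Multiset V}
    (h1 : Indep F t J) (h2 : ¬ Indep F t (X + J)) :
    1 ≤ ∑ s ∈ Finset.Icc 1 t, ((X.powersetCard s).map (fun T =>
      ((J.powersetCard (t - s)).map (fun R => ind (F (T + R)))).sum)).sum := by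
  unfold Indep at h2
  push Not at h2
  obtain ⟨Z, hZ, hc, hF⟩ := h2
  set R := Z - X with hR
  set T := Z - R with hT
  have hRZ : R ≤ Z := tsub_le_self
  have hRJ : R ≤ J := tsub_le_iff_left.mpr hZ
  have hTR : T + R = Z := tsub_add_cancel_of_le hRZ
  have hTX : T ≤ X := by
    rw [hT, hR]; exact tsub_tsub_le
  have hcard : T.card + R.card = t := by rw [← Multiset.card_add, hTR, hc]
  have hT1 : 1 ≤ T.card := by
    by_contra hcon
    have h0 : T = 0 := Multiset.card_eq_zero.mp (by omega)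
    rw [h0, zero_add] at hTR
    exact h1 Z (hTR ▸ hRJ) hc hF
  have hnn : ∀ s ∈ Finset.Icc 1 t, 0 ≤ ((X.powersetCard s).map (fun T =>
      ((J.powersetCard (t - s)).map (fun R => ind (F (T + R)))).sum)).sum := fun s _ =>
    pc_nonneg X s _ fun T => pc_nonneg J _ _ fun R => ind_nonneg _
  refine le_trans ?_ (Finset.single_le_sum hnn (Finset.mem_Icc.mpr ⟨hT1, by omega⟩))
  refine le_trans ?_ (pc_ge_of_mem hTX (fun T' => ((J.powersetCard (t - T.card)).map
    (fun R => ind (F (T' + R)))).sum) fun T' => pc_nonneg J _ _ fun R => ind_nonneg _)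
  have e : t - T.card = R.card := by omega
  simp only [e]
  refine le_trans ?_ (pc_ge_of_mem hRJ (fun R => ind (F (T + R))) fun R => ind_nonneg _)
  rw [hTR, ind_true hF]

/-! ### sums over edges -/

theorem EA_mono (w : V → ℝ) (hw : ∀ x, 0 ≤ w x) (F : Multiset V → Prop) (t : ℕ)
    {h h' : V → Multiset V → ℝ}
    (H : ∀ (x : V) (A : Multiset V), A.card = t - 1 → F (x ::ₘ A) → h x A ≤ h' x A) :
    EA w F t h ≤ EA w F t h' := by
  unfold EA
  refine Finset.sum_le_sum fun x _ => mul_le_mul_of_nonneg_left ?_ (hw x)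
  refine M_mono w hw _ fun A hA => ?_
  by_cases hF : F (x ::ₘ A)
  · exact mul_le_mul_of_nonneg_left (H x A hA hF) (ind_nonneg _)
  · rw [ind_false hF]; simp

theorem EA_const {w : V → ℝ} {F : Multiset V → Prop} {t : ℕ} {d : ℝ} (hS : Sys w F t d)
    (c : ℝ) : EA w F t (fun _ _ => c) = c * d := by
  unfold EA
  have h1 : ∀ x : V, M w (t - 1) (fun A => ind (F (x ::ₘ A)) * c) = d * c := by
    intro x
    rw [M_mul_right]
    congr 1
    rw [← hS.reg x]
    unfold cd
    rw [Multiset.card_singleton]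
    refine M_congr w _ fun A _ => ?_
    rw [Multiset.singleton_add]
  simp only [h1]
  rw [← Finset.sum_mul, hS.w1]
  ring

theorem EA_pc (w : V → ℝ) (F : Multiset V → Prop) (t : ℕ) (ht : 1 ≤ t) (s : ℕ)
    (hs : s ≤ t - 1) (h : Multiset V → ℝ) :
    EA w F t (fun _ A => ((A.powersetCard s).map h).sum) =
      ((t - 1).choose s : ℝ) * M w s (fun T => h T * cd w F t T) := by
  unfold EA
  have h1 : ∀ x : V, M w (t - 1) (fun A => ind (F (x ::ₘ A)) * ((A.powersetCard s).map h).sum) =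
      ((t - 1).choose s : ℝ) * M w s (fun T => M w (t - 1 - s)
        (fun R => ind (F (x ::ₘ (T + R))) * h T)) := by
    intro x
    rw [← M_pc w (t - 1) s (fun T R => ind (F (x ::ₘ (T + R))) * h T)]
    refine M_congr w _ fun A _ => ?_
    rw [← Multiset.sum_map_mul_left]
    congr 1
    refine Multiset.map_congr rfl fun T hT => ?_
    rw [add_tsub_cancel_of_le (Multiset.mem_powersetCard.mp hT).1]
  simp only [h1]
  have h2 : ∑ x, w x * (((t - 1).choose s : ℝ) * M w s (fun T => M w (t - 1 - s)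
        (fun R => ind (F (x ::ₘ (T + R))) * h T))) =
      ((t - 1).choose s : ℝ) * ∑ x, w x * M w s (fun T => M w (t - 1 - s)
        (fun R => ind (F (x ::ₘ (T + R))) * h T)) := by
    rw [Finset.mul_sum]
    exact Finset.sum_congr rfl fun x _ => by ring
  rw [h2, M_swap_sum w s (fun x T => M w (t - 1 - s) (fun R => ind (F (x ::ₘ (T + R))) * h T))]
  congr 1
  refine M_congr w s fun T hT => ?_
  unfold cd
  have e : t - T.card = (t - 1 - s) + 1 := by omega
  rw [e, M_succ, Finset.mul_sum]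
  refine Finset.sum_congr rfl fun x _ => ?_
  rw [M_mul_right]
  have : M w (t - 1 - s) (fun R => ind (F (x ::ₘ (T + R)))) =
      M w (t - 1 - s) (fun Z => ind (F (T + x ::ₘ Z))) :=
    M_congr w _ fun R _ => by rw [Multiset.add_cons]
  rw [this]
  ring

theorem EA_M (w : V → ℝ) (F : Multiset V → Prop) (t : ℕ) (ht : 1 ≤ t) (g : Multiset V → ℝ) :
    EA w F t (fun x A => g (x ::ₘ A)) = M w t (fun e => ind (F e) * g e) := by
  obtain ⟨n, rfl⟩ : ∃ n, t = n + 1 := ⟨t - 1, by omega⟩
  rfl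

/-! ### good edges -/

theorem good_sum (w : V → ℝ) (hw : ∀ x, 0 ≤ w x) (F : Multiset V → Prop) (t : ℕ) (η : ℝ)
    (hη : 0 ≤ η) (m₂ : ℕ) (X : Multiset V) (h2 : 2 ≤ X.card) (h3 : X.card < t) :
    (m₂ : ℝ) ^ (t - X.card) * M w (t - X.card) (fun U => ind (good w F t η m₂ (X + U))) ≤ η := by
  by_cases hex : ∃ U : Multiset V, U.card = t - X.card ∧ good w F t η m₂ (X + U)
  · obtain ⟨U, _, hU⟩ := hex
    have hl := hU.2 X (Multiset.le_add_right X U) h2 h3
    refine le_trans (mul_le_mul_of_nonneg_left ?_ (by positivity)) hl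
    exact M_mono w hw _ fun U _ => ind_mono fun h => h.1
  · push Not at hex
    rw [M_congr w _ (g := fun _ => 0) fun U hU => ind_false (hex U hU), M_zero_fun, mul_zero]
    exact hη

theorem good_vertex {w : V → ℝ} {F : Multiset V → Prop} {t : ℕ} {d : ℝ} (hS : Sys w F t d)
    (η : ℝ) (m₂ : ℕ) (x : V) : M w (t - 1) (fun A => ind (good w F t η m₂ (x ::ₘ A))) ≤ d := by
  rw [← hS.reg x]
  unfold cd
  rw [Multiset.card_singleton]
  refine M_mono w hS.w0 _ fun A _ => ?_
  rw [Multiset.singleton_add]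
  exact ind_mono fun h => h.1

end

end Pool.Agent.H123R2.Gen
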