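import Pool.Agent.H123R2.Gen.Stubs

/-!
CH1: critical elements of a blocked set and one step of the chain inequality.
-/

set_option autoImplicit false
set_option linter.unusedSectionVars false

namespace Pool.Agent.H123R2.Gen.CH1

open Finset

section
variable {V : Type} [Fintype V] [DecidableEq V]

private theorem sum_le_card (A : Multiset V) (f : V → ℝ) (hf : ∀ y, f y ≤ 1) :
    (A.map f).sum ≤ (A.card : ℝ) := by
  induction A using Multiset.induction_on with
  | empty => simp
  | cons a A ih =>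
    rw [Multiset.map_cons, Multiset.sum_cons, Multiset.card_cons]
    push_cast
    have := hf a
    linarith

theorem crit {F : Multiset V → Prop} {t : ℕ} {J : Multiset V} {x : V}
    (h1 : Indep F t J) (h2 : ¬ Indep F t (x ::ₘ J)) :
    ((J.powersetCard 1).map (fun Y => ind (Indep F t (x ::ₘ (J - Y))))).sum ≤ (t : ℝ) - 1 := by
  have ht : 1 ≤ t := by
    by_contra ht
    have ht0 : t = 0 := by omega
    subst ht0
    apply h2
    intro Z _ hZ
    have hZ0 : Z = 0 := Multiset.card_eq_zero.mp hZ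
    subst hZ0
    exact h1 0 (Multiset.zero_le _) (by simp)
  obtain ⟨A, hA, hAc, hF⟩ := block1 ht h1 h2
  obtain ⟨R, rfl⟩ := Multiset.le_iff_exists_add.mp hA
  rw [Multiset.powersetCard_one, Multiset.map_map, Multiset.map_add, Multiset.sum_add]
  have hR : (R.map ((fun Y => ind (Indep F t (x ::ₘ (A + R - Y)))) ∘
      (singleton : V → Multiset V))).sum = 0 := by
    apply Multiset.sum_eq_zero
    intro z hz
    obtain ⟨y, hy, rfl⟩ := Multiset.mem_map.mp hz
    simp only [Function.comp]
    apply ind_false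
    intro hI
    refine hI (x ::ₘ A) ?_ ?_ hF
    · apply Multiset.cons_le_cons
      obtain ⟨R', rfl⟩ := Multiset.exists_cons_of_mem hy
      have : A + y ::ₘ R' - {y} = A + R' := by
        rw [Multiset.add_cons, Multiset.sub_singleton, Multiset.erase_cons_head]
      rw [this]
      exact Multiset.le_add_right _ _
    · rw [Multiset.card_cons, hAc]; omega
  rw [hR, add_zero]
  refine (sum_le_card A _ fun y => ind_le_one _).trans ?_
  rw [hAc, Nat.cast_sub ht, Nat.cast_one]

private theorem Q0 (w : V → ℝ) (F : Multiset V → Prop) (t m : ℕ) :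
    Q w F t m 0 = M w m (fun J => ind (Indep F t J)) := by
  unfold Q
  exact M_congr w m fun J _ => by rw [zero_add]

theorem chain_step {w : V → ℝ} {F : Multiset V → Prop} {t : ℕ} {d : ℝ} (hS : Sys w F t d)
    (m : ℕ) :
    ((m : ℝ) + 1) * Q w F t (m + 1) 0 ^ 2 ≤ Q w F t m 0 * (((m : ℝ) + 1) * Q w F t (m + 2) 0 +
      ((t : ℝ) - 1) * (Q w F t (m + 1) 0 - Q w F t (m + 2) 0)) := by
  have hw := hS.w0
  have hw1 := hS.w1
  have hcons : ∀ (x : V) (K : Multiset V), Indep F t (x ::ₘ K) → Indep F t K := fun x K h =>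
    Indep_mono (Multiset.le_cons_self K x) h
  set g : Multiset V → ℝ := fun K => ∑ x, w x * ind (Indep F t (x ::ₘ K)) with hg
  have e1 : M w m (fun K => ind (Indep F t K) * g K) = Q w F t (m + 1) 0 := by
    rw [Q0, M_succ, M_swap_sum]
    refine M_congr w m fun K _ => ?_
    rw [hg, Finset.mul_sum]
    refine Finset.sum_congr rfl fun x _ => ?_
    by_cases h : Indep F t (x ::ₘ K)
    · rw [ind_true h, ind_true (hcons x K h)]; ring
    · rw [ind_false h]; ring
  have e2 : M w m (fun K => ind (Indep F t K) * g K ^ 2) =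
      ∑ x, w x * ∑ y, w y * M w m (fun K => ind (Indep F t (x ::ₘ K)) *
        ind (Indep F t (y ::ₘ K))) := by
    have e3 : ∀ x : V, ∑ y, w y * M w m (fun K => ind (Indep F t (x ::ₘ K)) *
        ind (Indep F t (y ::ₘ K))) = M w m (fun K => ∑ y, w y * (ind (Indep F t (x ::ₘ K)) *
        ind (Indep F t (y ::ₘ K)))) := fun x => M_swap_sum w m _
    simp only [e3]
    rw [M_swap_sum]
    refine M_congr w m fun K _ => ?_
    have e4 : ∀ x : V, ∑ y, w y * (ind (Indep F t (x ::ₘ K)) * ind (Indep F t (y ::ₘ K))) =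
        ind (Indep F t (x ::ₘ K)) * g K := by
      intro x
      rw [hg, Finset.mul_sum]
      exact Finset.sum_congr rfl fun y _ => by ring
    simp only [e4]
    have e5 : ∑ x, w x * (ind (Indep F t (x ::ₘ K)) * g K) = g K * g K := by
      conv_rhs => rw [hg]
      rw [Finset.sum_mul]
      exact Finset.sum_congr rfl fun x _ => by simp only [hg]; ring
    rw [e5]
    by_cases h : Indep F t K
    · rw [ind_true h]; ring
    · have : g K = 0 := by
        rw [hg]
        refine Finset.sum_eq_zero fun x _ => ?_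
        rw [ind_false fun h' => h (hcons x K h'), mul_zero]
      rw [this]; ring
  -- the pairs blocked together
  set D : V → V → ℝ := fun x y => M w m (fun K => ind (Indep F t (x ::ₘ K)) *
    (ind (Indep F t (y ::ₘ K)) * ind (¬ Indep F t (x ::ₘ y ::ₘ K)))) with hD
  have e6 : ∀ x y : V, M w m (fun K => ind (Indep F t (x ::ₘ K)) * ind (Indep F t (y ::ₘ K))) =
      M w m (fun K => ind (Indep F t (x ::ₘ y ::ₘ K))) + D x y := by
    intro x y
    rw [hD, ← M_add_fun]
    refine M_congr w m fun K _ => ?_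
    by_cases h : Indep F t (x ::ₘ y ::ₘ K)
    · have h1 : Indep F t (y ::ₘ K) := hcons _ _ h
      have h2 : Indep F t (x ::ₘ K) :=
        Indep_mono (Multiset.cons_le_cons x (Multiset.le_cons_self K y)) h
      rw [ind_true h, ind_true h1, ind_true h2, ind_false (not_not.mpr h)]
      ring
    · rw [ind_false h, ind_true h]; ring
  have e7 : M w m (fun K => ind (Indep F t K) * g K ^ 2) =
      Q w F t (m + 2) 0 + ∑ x, w x * ∑ y, w y * D x y := by
    rw [e2, Q0, M_succ, ← Finset.sum_add_distrib]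
    refine Finset.sum_congr rfl fun x _ => ?_
    rw [M_succ, ← mul_add, ← Finset.sum_add_distrib]
    congr 1
    refine Finset.sum_congr rfl fun y _ => ?_
    rw [e6, mul_add]
  have e8 : ∀ x : V, ((m : ℝ) + 1) * ∑ y, w y * D x y ≤
      ((t : ℝ) - 1) * M w (m + 1) (fun J => ind (Indep F t J ∧ ¬ Indep F t (x ::ₘ J))) := by
    intro x
    have h1 := M_pc w (m + 1) 1 (fun Y R => ind (Indep F t (x ::ₘ R)) *
      (ind (Indep F t (Y + R)) * ind (¬ Indep F t (x ::ₘ (Y + R)))))
    have h2 : M w 1 (fun A => M w (m + 1 - 1) (fun R => ind (Indep F t (x ::ₘ R)) *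
      (ind (Indep F t (A + R)) * ind (¬ Indep F t (x ::ₘ (A + R)))))) = ∑ y, w y * D x y := by
      rw [M_succ]
      refine Finset.sum_congr rfl fun y _ => ?_
      rw [M_zero, hD]
      simp only [Nat.add_sub_cancel]
      simp only [Multiset.cons_add, zero_add]
    rw [h2] at h1
    have h3 : ((m + 1).choose 1 : ℝ) = (m : ℝ) + 1 := by
      rw [Nat.choose_one_right]; push_cast; ring
    rw [h3] at h1
    rw [← h1, ← M_mul_left]
    refine M_mono w hw (m + 1) fun J _ => ?_
    have h4 : ((J.powersetCard 1).map (fun A => ind (Indep F t (x ::ₘ (J - A))) *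
        (ind (Indep F t (A + (J - A))) * ind (¬ Indep F t (x ::ₘ (A + (J - A))))))).sum =
        ((J.powersetCard 1).map (fun A => ind (Indep F t (x ::ₘ (J - A))))).sum *
          ind (Indep F t J ∧ ¬ Indep F t (x ::ₘ J)) := by
      rw [← Multiset.sum_map_mul_right]
      congr 1
      refine Multiset.map_congr rfl fun A hA => ?_
      rw [add_tsub_cancel_of_le (Multiset.mem_powersetCard.mp hA).1, ind_and]
    rw [h4]
    by_cases h : Indep F t J ∧ ¬ Indep F t (x ::ₘ J)
    · rw [ind_true h, mul_one, mul_one]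
      exact crit h.1 h.2
    · rw [ind_false h, mul_zero, mul_zero]
  have e9 : ((m : ℝ) + 1) * ∑ x, w x * ∑ y, w y * D x y ≤
      ((t : ℝ) - 1) * (Q w F t (m + 1) 0 - Q w F t (m + 2) 0) := by
    have h1 := incr w hw1 F t (m + 1)
    rw [show m + 1 + 1 = m + 2 from rfl] at h1
    rw [← h1, Finset.mul_sum, Finset.mul_sum]
    refine Finset.sum_le_sum fun x _ => ?_
    have h2 := mul_le_mul_of_nonneg_left (e8 x) (hw x)
    calc ((m : ℝ) + 1) * (w x * ∑ y, w y * D x y)
        = w x * (((m : ℝ) + 1) * ∑ y, w y * D x y) := by ring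
      _ ≤ w x * (((t : ℝ) - 1) * M w (m + 1)
          (fun J => ind (Indep F t J ∧ ¬ Indep F t (x ::ₘ J)))) := h2
      _ = _ := by ring
  have e10 := M_cs w hw m (fun K => ind (Indep F t K)) g (fun K => ind_nonneg _)
  rw [e1, e7, ← Q0] at e10
  have hq : 0 ≤ Q w F t m 0 := Q_nonneg w hw F t m 0
  have hm : (0 : ℝ) ≤ (m : ℝ) + 1 := by positivity
  calc ((m : ℝ) + 1) * Q w F t (m + 1) 0 ^ 2
      ≤ ((m : ℝ) + 1) * (Q w F t m 0 *
        (Q w F t (m + 2) 0 + ∑ x, w x * ∑ y, w y * D x y)) := mul_le_mul_of_nonneg_left e10 hm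
    _ = Q w F t m 0 * (((m : ℝ) + 1) * Q w F t (m + 2) 0 +
        ((m : ℝ) + 1) * ∑ x, w x * ∑ y, w y * D x y) := by ring
    _ ≤ _ := mul_le_mul_of_nonneg_left (by linarith) hq

end

end Pool.Agent.H123R2.Gen.CH1
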