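import Mathlib

/-!
Turán numbers of complete `t`-uniform hypergraphs, general `t`: common definitions.
All objects are functions of multisets of vertices.
-/

set_option autoImplicit false

namespace Pool.Agent.H123R2.Gen

open Finset

/-- indicator -/
noncomputable def ind (p : Prop) : ℝ := by
  classical exact if p then 1 else 0

section
variable {V : Type} [Fintype V]

/-- the average of `f` over the multiset of `n` independent random vertices with law `w` -/
noncomputable def M (w : V → ℝ) : ℕ → (Multiset V → ℝ) → ℝ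
  | 0, f => f 0
  | n + 1, f => ∑ x, w x * M w n (fun X => f (x ::ₘ X))

/-- `J` contains no member (`t` elements) of the system `F` -/
def Indep (F : Multiset V → Prop) (t : ℕ) (J : Multiset V) : Prop :=
  ∀ Z : Multiset V, Z ≤ J → Z.card = t → ¬ F Z

/-- probability that `X` together with `m` random vertices is independent -/
noncomputable def Q (w : V → ℝ) (F : Multiset V → Prop) (t m : ℕ) (X : Multiset V) : ℝ :=
  M w m (fun J => ind (Indep F t (X + J)))

/-- codegree of `X` -/
noncomputable def cd (w : V → ℝ) (F : Multiset V → Prop) (t : ℕ) (X : Multiset V) : ℝ :=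
  M w (t - X.card) (fun Z => ind (F (X + Z)))

/-- sum over the edges `x, A` -/
noncomputable def EA (w : V → ℝ) (F : Multiset V → Prop) (t : ℕ) (h : V → Multiset V → ℝ) : ℝ :=
  ∑ x, w x * M w (t - 1) (fun A => ind (F (x ::ₘ A)) * h x A)

/-- a weighted `t`-uniform system in which every vertex has degree `d` -/
structure Sys (w : V → ℝ) (F : Multiset V → Prop) (t : ℕ) (d : ℝ) : Prop where
  w0 : ∀ x, 0 ≤ w x
  w1 : ∑ x, w x = 1
  ht : 3 ≤ t
  reg : ∀ x : V, cd w F t {x} = d

/-- good edges: no subset with `2 ≤ · < t` elements has a large codegree at scale `m₂` -/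
def good (w : V → ℝ) (F : Multiset V → Prop) (t : ℕ) (η : ℝ) (m₂ : ℕ) (e : Multiset V) : Prop :=
  F e ∧ ∀ T : Multiset V, T ≤ e → 2 ≤ T.card → T.card < t →
    (m₂ : ℝ) ^ (t - T.card) * cd w F t T ≤ η

/-- edges which are not good -/
def bad (w : V → ℝ) (F : Multiset V → Prop) (t : ℕ) (η : ℝ) (m₂ : ℕ) (e : Multiset V) : Prop :=
  F e ∧ ¬ good w F t η m₂ e

/-- `m` random vertices are independent and block every vertex of `P` -/
noncomputable def B2 (w : V → ℝ) (F : Multiset V → Prop) (t m : ℕ) (P : Multiset V) : ℝ :=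
  M w m (fun J => ind (Indep F t J ∧ ∀ y ∈ P, ¬ Indep F t (y ::ₘ J)))

/-- `R` splits into two good blocking sets of `x` and `R` is not too unlikely -/
def LL (w : V → ℝ) (F : Multiset V → Prop) (t : ℕ) (η : ℝ) (m₂ m : ℕ) (x : V)
    (R : Multiset V) : Prop :=
  (∃ A A' : Multiset V, A.card = t - 1 ∧ A'.card = t - 1 ∧ R = A + A' ∧
    good w F t η m₂ (x ::ₘ A) ∧ good w F t η m₂ (x ::ₘ A')) ∧
  Q w F t m 0 ≤ 2 * Q w F t m R

end

end Pool.Agent.H123R2.Gen
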