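import Pool.Agent.H123R2.Gen.Stubs

/-!
Task E2: both vertices of a pair blocked.
-/

set_option autoImplicit false
set_option linter.unusedSectionVars false
set_option linter.unusedVariables false

namespace Pool.Agent.H123R2.Gen.E2

open Finset

section
variable {V : Type} [Fintype V] [DecidableEq V]

private theorem e2_sum_map_nonneg {s : Multiset (Multiset V)} {f : Multiset V → ℝ}
    (hf : ∀ Z, 0 ≤ f Z) : 0 ≤ (s.map f).sum := by
  apply Multiset.sum_nonneg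
  intro x hx
  obtain ⟨Z, _, rfl⟩ := Multiset.mem_map.mp hx
  exact hf Z

private theorem e2_bad_of_not_good {w : V → ℝ} {F : Multiset V → Prop} {t : ℕ} {η : ℝ} {m₂ : ℕ}
    {e : Multiset V} (h : F e) (hg : ¬ good w F t η m₂ e) : bad w F t η m₂ e := ⟨h, hg⟩

private theorem e2_M2 (w : V → ℝ) (f : Multiset V → ℝ) :
    M w 2 f = ∑ y₁, w y₁ * ∑ y₂, w y₂ * f (y₁ ::ₘ y₂ ::ₘ 0) := rfl

private theorem e2_B2_eq (w : V → ℝ) (F : Multiset V → Prop) (t m : ℕ) (y₁ y₂ : V) :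
    B2 w F t m (y₁ ::ₘ y₂ ::ₘ 0) = M w m (fun J => ind (Indep F t J ∧ ¬ Indep F t (y₁ ::ₘ J) ∧
      ¬ Indep F t (y₂ ::ₘ J))) := by
  unfold B2
  refine M_congr w m fun J _ => ind_congr ?_
  simp

/-- the marginal of the edges with a property -/
private theorem e2_marg {w : V → ℝ} {F : Multiset V → Prop} {t : ℕ} {d : ℝ} (hS : Sys w F t d)
    (m : ℕ) (hq : ∀ b : ℕ, b ≤ 2 * t → Q w F t (m - b) 0 ≤ 2 * Q w F t m 0)
    (h : Multiset V → ℝ) (hh : ∀ Z, 0 ≤ h Z) :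
    M w m (fun J => ind (Indep F t J) * ((J.powersetCard (t - 1)).map h).sum) ≤
      2 * Q w F t m 0 * ((m.choose (t - 1) : ℝ) * M w (t - 1) h) := by
  rw [marg]
  have h1 : M w (t - 1) (fun A => h A * Q w F t (m - (t - 1)) A) ≤
      M w (t - 1) (fun A => h A * (2 * Q w F t m 0)) := by
    refine M_mono w hS.w0 _ fun A _ => ?_
    refine mul_le_mul_of_nonneg_left ?_ (hh A)
    exact (Q_anti w hS.w0 F t _ (Multiset.zero_le A)).trans (hq (t - 1) (by omega))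
  rw [M_mul_right] at h1
  have h2 : (0 : ℝ) ≤ (m.choose (t - 1) : ℝ) := Nat.cast_nonneg _
  calc (m.choose (t - 1) : ℝ) * M w (t - 1) (fun A => h A * Q w F t (m - (t - 1)) A)
      ≤ (m.choose (t - 1) : ℝ) * (M w (t - 1) h * (2 * Q w F t m 0)) :=
        mul_le_mul_of_nonneg_left h1 h2
    _ = _ := by ring

private theorem e2_F_vertex {w : V → ℝ} {F : Multiset V → Prop} {t : ℕ} {d : ℝ}
    (hS : Sys w F t d) (x : V) : M w (t - 1) (fun A => ind (F (x ::ₘ A))) = d := by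
  have h := hS.reg x
  unfold cd at h
  rw [← h]
  simp only [Multiset.card_singleton, Multiset.singleton_add]

/-- the trivial bound -/
private theorem e2_heavy {w : V → ℝ} {F : Multiset V → Prop} {t : ℕ} {d : ℝ} (hS : Sys w F t d)
    (m : ℕ) (hq : ∀ b : ℕ, b ≤ 2 * t → Q w F t (m - b) 0 ≤ 2 * Q w F t m 0) (y₁ y₂ : V) :
    B2 w F t m (y₁ ::ₘ y₂ ::ₘ 0) ≤ 2 * Q w F t m 0 * ((m.choose (t - 1) : ℝ) * d) := by
  have ht := hS.ht
  have h1 := e2_marg hS m hq (fun A => ind (F (y₁ ::ₘ A))) (fun _ => ind_nonneg _)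
  rw [e2_F_vertex hS] at h1
  refine le_trans ?_ h1
  rw [e2_B2_eq]
  refine M_mono w hS.w0 m fun J hJ => ?_
  by_cases h : Indep F t J ∧ ¬ Indep F t (y₁ ::ₘ J) ∧ ¬ Indep F t (y₂ ::ₘ J)
  · rw [ind_true h, ind_true h.1, one_mul]
    obtain ⟨A, hA, hc, hF⟩ := block1 (by omega) h.1 h.2.1
    have h2 := pc_ge_of_mem hA (fun A => ind (F (y₁ ::ₘ A))) (fun _ => ind_nonneg _)
    rw [hc] at h2
    simp only [ind_true hF] at h2
    exact h2
  · rw [ind_false h]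
    exact mul_nonneg (ind_nonneg _) (e2_sum_map_nonneg fun _ => ind_nonneg _)

/-- pointwise bound of the event that both are blocked -/
private theorem e2_point {w : V → ℝ} {F : Multiset V → Prop} {t : ℕ} (ht : 3 ≤ t) (η : ℝ)
    (m₂ : ℕ) (y₁ y₂ : V) (J : Multiset V) :
    ind (Indep F t J ∧ ¬ Indep F t (y₁ ::ₘ J) ∧ ¬ Indep F t (y₂ ::ₘ J)) ≤
      ind (Indep F t J) * ((J.powersetCard (t - 1)).map
        (fun A => ind (bad w F t η m₂ (y₁ ::ₘ A)))).sum +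
      ind (Indep F t J) * ((J.powersetCard (t - 1)).map
        (fun A => ind (bad w F t η m₂ (y₂ ::ₘ A)))).sum +
      ind (Indep F t J) * (((J.powersetCard (t - 1)).map
        (fun A => ind (good w F t η m₂ (y₁ ::ₘ A)))).sum * ((J.powersetCard (t - 1)).map
        (fun A => ind (good w F t η m₂ (y₂ ::ₘ A)))).sum) := by
  have n1 : 0 ≤ ((J.powersetCard (t - 1)).map (fun A => ind (bad w F t η m₂ (y₁ ::ₘ A)))).sum :=
    e2_sum_map_nonneg fun _ => ind_nonneg _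
  have n2 : 0 ≤ ((J.powersetCard (t - 1)).map (fun A => ind (bad w F t η m₂ (y₂ ::ₘ A)))).sum :=
    e2_sum_map_nonneg fun _ => ind_nonneg _
  have n3 : 0 ≤ ((J.powersetCard (t - 1)).map (fun A => ind (good w F t η m₂ (y₁ ::ₘ A)))).sum :=
    e2_sum_map_nonneg fun _ => ind_nonneg _
  have n4 : 0 ≤ ((J.powersetCard (t - 1)).map (fun A => ind (good w F t η m₂ (y₂ ::ₘ A)))).sum :=
    e2_sum_map_nonneg fun _ => ind_nonneg _
  by_cases h : Indep F t J ∧ ¬ Indep F t (y₁ ::ₘ J) ∧ ¬ Indep F t (y₂ ::ₘ J)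
  · rw [ind_true h, ind_true h.1, one_mul, one_mul, one_mul]
    obtain ⟨A, hA, hAc, hAF⟩ := block1 (by omega) h.1 h.2.1
    obtain ⟨B, hB, hBc, hBF⟩ := block1 (by omega) h.1 h.2.2
    have n5 := mul_nonneg n3 n4
    by_cases gA : good w F t η m₂ (y₁ ::ₘ A)
    · by_cases gB : good w F t η m₂ (y₂ ::ₘ B)
      · have h1 := pc_ge_of_mem hA (fun A => ind (good w F t η m₂ (y₁ ::ₘ A)))
          (fun _ => ind_nonneg _)
        have h2 := pc_ge_of_mem hB (fun A => ind (good w F t η m₂ (y₂ ::ₘ A)))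
          (fun _ => ind_nonneg _)
        rw [hAc] at h1
        rw [hBc] at h2
        simp only [ind_true gA] at h1
        simp only [ind_true gB] at h2
        have h3 : (1 : ℝ) ≤ ((J.powersetCard (t - 1)).map
            (fun A => ind (good w F t η m₂ (y₁ ::ₘ A)))).sum * ((J.powersetCard (t - 1)).map
            (fun A => ind (good w F t η m₂ (y₂ ::ₘ A)))).sum := by
          nlinarith
        linarith
      · have h2 := pc_ge_of_mem hB (fun A => ind (bad w F t η m₂ (y₂ ::ₘ A)))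
          (fun _ => ind_nonneg _)
        rw [hBc] at h2
        simp only [ind_true (e2_bad_of_not_good hBF gB)] at h2
        linarith
    · have h1 := pc_ge_of_mem hA (fun A => ind (bad w F t η m₂ (y₁ ::ₘ A)))
        (fun _ => ind_nonneg _)
      rw [hAc] at h1
      simp only [ind_true (e2_bad_of_not_good hAF gA)] at h1
      linarith
  · rw [ind_false h]
    have n5 := ind_nonneg (Indep F t J)
    positivity

/-- the contribution of the pairs of good blocking sets -/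
private theorem e2_pairs {w : V → ℝ} {F : Multiset V → Prop} {t : ℕ} {d : ℝ} (hS : Sys w F t d)
    (m m₂ : ℕ) (hm : 2 * t ≤ m) (hmm : m ≤ m₂) (η : ℝ) (hη : 0 ≤ η)
    (hq : ∀ b : ℕ, b ≤ 2 * t → Q w F t (m - b) 0 ≤ 2 * Q w F t m 0) (y₁ y₂ : V) :
    M w m (fun J => ind (Indep F t J) * (((J.powersetCard (t - 1)).map
        (fun A => ind (good w F t η m₂ (y₁ ::ₘ A)))).sum * ((J.powersetCard (t - 1)).map
        (fun A => ind (good w F t η m₂ (y₂ ::ₘ A)))).sum)) ≤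
      2 * Q w F t m 0 * (m.choose (t - 1) : ℝ) * ((m.choose (t - 1) : ℝ) * d * d +
        2 ^ (t - 1) * η * d + M w (t - 1) (fun A => ind (good w F t η m₂ (y₁ ::ₘ A)) *
          ind (good w F t η m₂ (y₂ ::ₘ A)))) := by
  have ht := hS.ht
  have hd := d_nonneg hS
  have hq0 : 0 ≤ Q w F t m 0 := Q_nonneg w hS.w0 F t m 0
  have h1 := split_sq w hS.w0 hS.w1 F t m (t - 1) (by omega)
    (fun A => ind (good w F t η m₂ (y₁ ::ₘ A))) (fun A => ind (good w F t η m₂ (y₂ ::ₘ A)))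
    (fun _ => ind_nonneg _) (fun _ => ind_nonneg _) (2 * Q w F t m 0)
    (fun b hb => hq b (by omega))
  refine h1.trans ?_
  rw [mul_assoc (2 * Q w F t m 0)]
  refine mul_le_mul_of_nonneg_left ?_ (by positivity)
  refine mul_le_mul_of_nonneg_left ?_ (Nat.cast_nonneg _)
  rw [Finset.sum_range_succ]
  have hm2 : (1 : ℝ) ≤ (m₂ : ℝ) := by
    have : 1 ≤ m₂ := by omega
    exact_mod_cast this
  -- the term `i = t - 1`
  have hlast : ((m - (t - 1)).choose ((t - 1) - (t - 1)) : ℝ) * M w (t - 1)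
      (fun A => ind (good w F t η m₂ (y₁ ::ₘ A)) * ((A.powersetCard (t - 1)).map (fun S =>
        M w ((t - 1) - (t - 1)) (fun S' => ind (good w F t η m₂ (y₂ ::ₘ (S + S')))))).sum) =
      M w (t - 1) (fun A => ind (good w F t η m₂ (y₁ ::ₘ A)) *
          ind (good w F t η m₂ (y₂ ::ₘ A))) := by
    rw [Nat.sub_self, Nat.choose_zero_right, Nat.cast_one, one_mul]
    refine M_congr w _ fun A hA => ?_
    have e : A.powersetCard (t - 1) = {A} := by
      rw [← hA]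
      exact Multiset.powersetCard_self A
    rw [e]
    simp [M_zero]
  rw [hlast]
  refine add_le_add ?_ le_rfl
  obtain ⟨u, hu⟩ : ∃ u, t - 1 = u + 1 := ⟨t - 2, by omega⟩
  rw [hu, Finset.sum_range_succ', ← hu]
  -- the term `i = 0`
  have hzero : ((m - (t - 1)).choose ((t - 1) - 0) : ℝ) * M w (t - 1)
      (fun A => ind (good w F t η m₂ (y₁ ::ₘ A)) * ((A.powersetCard 0).map (fun S =>
        M w ((t - 1) - 0) (fun S' => ind (good w F t η m₂ (y₂ ::ₘ (S + S')))))).sum) ≤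
      (m.choose (t - 1) : ℝ) * d * d := by
    have e1 : M w (t - 1)
      (fun A => ind (good w F t η m₂ (y₁ ::ₘ A)) * ((A.powersetCard 0).map (fun S =>
        M w ((t - 1) - 0) (fun S' => ind (good w F t η m₂ (y₂ ::ₘ (S + S')))))).sum) =
        M w (t - 1) (fun A => ind (good w F t η m₂ (y₁ ::ₘ A)) *
          M w (t - 1) (fun S' => ind (good w F t η m₂ (y₂ ::ₘ S')))) := by
      refine M_congr w _ fun A hA => ?_
      simp
    rw [e1, M_mul_right]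
    have g1 := good_vertex hS η m₂ y₁
    have g2 := good_vertex hS η m₂ y₂
    have p1 : 0 ≤ M w (t - 1) (fun A => ind (good w F t η m₂ (y₁ ::ₘ A))) :=
      M_nonneg w hS.w0 _ fun _ _ => ind_nonneg _
    have p2 : 0 ≤ M w (t - 1) (fun A => ind (good w F t η m₂ (y₂ ::ₘ A))) :=
      M_nonneg w hS.w0 _ fun _ _ => ind_nonneg _
    have c1 : ((m - (t - 1)).choose ((t - 1) - 0) : ℝ) ≤ (m.choose (t - 1) : ℝ) := by
      rw [Nat.sub_zero]
      exact_mod_cast Nat.choose_le_choose _ (Nat.sub_le _ _)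
    rw [mul_assoc]
    refine mul_le_mul c1 ?_ (by positivity) (Nat.cast_nonneg _)
    exact mul_le_mul g1 g2 p2 hd
  have hmid : ∑ i ∈ range u, ((m - (t - 1)).choose ((t - 1) - (i + 1)) : ℝ) * M w (t - 1)
      (fun A => ind (good w F t η m₂ (y₁ ::ₘ A)) * ((A.powersetCard (i + 1)).map (fun S =>
        M w ((t - 1) - (i + 1)) (fun S' => ind (good w F t η m₂ (y₂ ::ₘ (S + S')))))).sum) ≤
      2 ^ (t - 1) * η * d := by
    have hterm : ∀ i ∈ range u, ((m - (t - 1)).choose ((t - 1) - (i + 1)) : ℝ) * M w (t - 1)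
      (fun A => ind (good w F t η m₂ (y₁ ::ₘ A)) * ((A.powersetCard (i + 1)).map (fun S =>
        M w ((t - 1) - (i + 1)) (fun S' => ind (good w F t η m₂ (y₂ ::ₘ (S + S')))))).sum) ≤
        ((t - 1).choose (i + 1) : ℝ) * (η * d) := by
      intro i hi
      have hi' : i < u := Finset.mem_range.mp hi
      set b := (t - 1) - (i + 1) with hb
      have hcm : ((m - (t - 1)).choose b : ℝ) ≤ (m₂ : ℝ) ^ b := by
        have : (m - (t - 1)).choose b ≤ m₂ ^ b :=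
          (Nat.choose_le_pow _ _).trans (Nat.pow_le_pow_left (by omega) b)
        exact_mod_cast this
      rw [← M_mul_left]
      have hstep : ∀ A : Multiset V, A.card = t - 1 →
          ((m - (t - 1)).choose b : ℝ) * (ind (good w F t η m₂ (y₁ ::ₘ A)) *
          ((A.powersetCard (i + 1)).map (fun S =>
            M w b (fun S' => ind (good w F t η m₂ (y₂ ::ₘ (S + S')))))).sum) ≤
          ind (good w F t η m₂ (y₁ ::ₘ A)) * (((t - 1).choose (i + 1) : ℝ) * η) := by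
        intro A hA
        have hs : ((m - (t - 1)).choose b : ℝ) * ((A.powersetCard (i + 1)).map (fun S =>
            M w b (fun S' => ind (good w F t η m₂ (y₂ ::ₘ (S + S')))))).sum ≤
            ((t - 1).choose (i + 1) : ℝ) * η := by
          rw [← Multiset.sum_map_mul_left]
          have hle : ∀ x ∈ (A.powersetCard (i + 1)).map (fun S =>
              ((m - (t - 1)).choose b : ℝ) *
              M w b (fun S' => ind (good w F t η m₂ (y₂ ::ₘ (S + S'))))), x ≤ η := by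
            intro x hx
            obtain ⟨S, hSm, rfl⟩ := Multiset.mem_map.mp hx
            have hSc : S.card = i + 1 := (Multiset.mem_powersetCard.mp hSm).2
            have hg := good_sum w hS.w0 F t η hη m₂ (y₂ ::ₘ S)
              (by rw [Multiset.card_cons, hSc]; omega) (by rw [Multiset.card_cons, hSc]; omega)
            have hcard : t - (y₂ ::ₘ S).card = b := by
              rw [Multiset.card_cons, hSc]; omega
            rw [hcard] at hg
            have hg' : (m₂ : ℝ) ^ b *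
                M w b (fun S' => ind (good w F t η m₂ (y₂ ::ₘ (S + S')))) ≤ η := by
              simpa only [Multiset.cons_add] using hg
            have p1 : 0 ≤ M w b (fun S' => ind (good w F t η m₂ (y₂ ::ₘ (S + S')))) :=
              M_nonneg w hS.w0 _ fun _ _ => ind_nonneg _
            exact (mul_le_mul_of_nonneg_right hcm p1).trans hg'
          have h2 := Multiset.sum_le_card_nsmul _ η hle
          rw [Multiset.card_map, Multiset.card_powersetCard, hA] at h2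
          simpa [nsmul_eq_mul] using h2
        calc ((m - (t - 1)).choose b : ℝ) * (ind (good w F t η m₂ (y₁ ::ₘ A)) *
          ((A.powersetCard (i + 1)).map (fun S =>
            M w b (fun S' => ind (good w F t η m₂ (y₂ ::ₘ (S + S')))))).sum)
            = ind (good w F t η m₂ (y₁ ::ₘ A)) * (((m - (t - 1)).choose b : ℝ) *
              ((A.powersetCard (i + 1)).map (fun S =>
            M w b (fun S' => ind (good w F t η m₂ (y₂ ::ₘ (S + S')))))).sum) := by ring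
          _ ≤ _ := mul_le_mul_of_nonneg_left hs (ind_nonneg _)
      refine (M_mono w hS.w0 (t - 1) hstep).trans ?_
      rw [M_mul_right]
      have g1 := good_vertex hS η m₂ y₁
      have p2 : (0 : ℝ) ≤ ((t - 1).choose (i + 1) : ℝ) * η := by positivity
      calc M w (t - 1) (fun A => ind (good w F t η m₂ (y₁ ::ₘ A))) *
            (((t - 1).choose (i + 1) : ℝ) * η)
          ≤ d * (((t - 1).choose (i + 1) : ℝ) * η) := mul_le_mul_of_nonneg_right g1 p2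
        _ = _ := by ring
    refine (Finset.sum_le_sum hterm).trans ?_
    rw [← Finset.sum_mul, mul_assoc]
    refine mul_le_mul_of_nonneg_right ?_ (by positivity)
    have hsum : ∑ i ∈ range u, (t - 1).choose (i + 1) ≤ 2 ^ (t - 1) := by
      rw [← Nat.sum_range_choose, hu, Finset.sum_range_succ' _ (u + 1),
        Finset.sum_range_succ _ u]
      omega
    exact_mod_cast hsum
  linarith

/-- sums over the bad edges -/
private theorem e2_bad_sum {w : V → ℝ} {F : Multiset V → Prop} {t : ℕ} {d : ℝ}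
    (hS : Sys w F t d) (m m₂ : ℕ) (η π : ℝ)
    (hbad : M w t (fun e => ind (bad w F t η m₂ e)) ≤ π * d)
    (hq : ∀ b : ℕ, b ≤ 2 * t → Q w F t (m - b) 0 ≤ 2 * Q w F t m 0) :
    ∑ y, w y * M w m (fun J => ind (Indep F t J) * ((J.powersetCard (t - 1)).map
        (fun A => ind (bad w F t η m₂ (y ::ₘ A)))).sum) ≤
      2 * Q w F t m 0 * ((m.choose (t - 1) : ℝ) * (π * d)) := by
  have ht := hS.ht
  have hq0 : 0 ≤ Q w F t m 0 := Q_nonneg w hS.w0 F t m 0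
  have h1 : ∀ y, w y * M w m (fun J => ind (Indep F t J) * ((J.powersetCard (t - 1)).map
        (fun A => ind (bad w F t η m₂ (y ::ₘ A)))).sum) ≤
      w y * (2 * Q w F t m 0 * ((m.choose (t - 1) : ℝ) *
        M w (t - 1) (fun A => ind (bad w F t η m₂ (y ::ₘ A))))) := fun y =>
    mul_le_mul_of_nonneg_left (e2_marg hS m hq _ (fun _ => ind_nonneg _)) (hS.w0 y)
  refine (Finset.sum_le_sum fun y _ => h1 y).trans ?_
  have h2 : ∑ y, w y * (2 * Q w F t m 0 * ((m.choose (t - 1) : ℝ) *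
        M w (t - 1) (fun A => ind (bad w F t η m₂ (y ::ₘ A))))) =
      2 * Q w F t m 0 * ((m.choose (t - 1) : ℝ) * M w t (fun e => ind (bad w F t η m₂ e))) := by
    obtain ⟨u, rfl⟩ : ∃ u, t = u + 1 := ⟨t - 1, by omega⟩
    rw [M_succ, Finset.mul_sum, Finset.mul_sum]
    refine Finset.sum_congr rfl fun y _ => ?_
    simp only [Nat.add_sub_cancel]
    ring
  rw [h2]
  refine mul_le_mul_of_nonneg_left ?_ (by positivity)
  exact mul_le_mul_of_nonneg_left hbad (Nat.cast_nonneg _)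

private theorem e2_cd_swap (w : V → ℝ) (F : Multiset V → Prop) (t : ℕ) (y₁ y₂ : V) :
    cd w F t (y₁ ::ₘ y₂ ::ₘ 0) = cd w F t (y₂ ::ₘ y₁ ::ₘ 0) := by
  rw [Multiset.cons_swap]

private theorem e2_sum_right {w : V → ℝ} {F : Multiset V → Prop} {t : ℕ} {d : ℝ}
    (hS : Sys w F t d) (y₁ : V) : ∑ y₂, w y₂ * cd w F t (y₁ ::ₘ y₂ ::ₘ 0) = d := by
  have ht := hS.ht
  have h := sum_cd w F t (y₁ ::ₘ 0) (by simp; omega)
  rw [← hS.reg y₁]
  have e : ({y₁} : Multiset V) = y₁ ::ₘ 0 := rfl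
  rw [e, ← h]
  exact Finset.sum_congr rfl fun y₂ _ => by rw [e2_cd_swap]

/-- sums over the heavy pairs -/
private theorem e2_heavy_sum {w : V → ℝ} {F : Multiset V → Prop} {t : ℕ} {d : ℝ}
    (hS : Sys w F t d) (m₂ : ℕ) (η π : ℝ)
    (hbad : M w t (fun e => ind (bad w F t η m₂ e)) ≤ π * d) :
    M w 2 (fun P => ind (¬ (m₂ : ℝ) ^ (t - 2) * cd w F t P ≤ η) * cd w F t P) ≤ π * d := by
  have ht := hS.ht
  refine le_trans ?_ hbad
  have e : t = 2 + (t - 2) := by omega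
  have h0 : ∀ f : Multiset V → ℝ, M w t f = M w (2 + (t - 2)) f := fun f => by rw [← e]
  have h1 : M w t (fun e => ind (bad w F t η m₂ e)) =
      M w 2 (fun P => M w (t - 2) (fun Z => ind (bad w F t η m₂ (P + Z)))) := by
    rw [h0, M_add]
  rw [h1]
  refine M_mono w hS.w0 2 fun P hP => ?_
  have hc : cd w F t P = M w (t - 2) (fun Z => ind (F (P + Z))) := by
    unfold cd
    rw [hP]
  have hc2 : ind (¬ (m₂ : ℝ) ^ (t - 2) * cd w F t P ≤ η) * cd w F t P =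
      M w (t - 2) (fun Z => ind (¬ (m₂ : ℝ) ^ (t - 2) * cd w F t P ≤ η) * ind (F (P + Z))) := by
    rw [M_mul_left, ← hc]
  rw [hc2]
  refine M_mono w hS.w0 _ fun Z hZ => ?_
  rw [← ind_and]
  refine ind_mono fun h => ⟨h.2, fun hg => h.1 ?_⟩
  have := hg.2 P (Multiset.le_add_right P Z) (by omega) (by omega)
  rwa [hP] at this

/-- the common blocking sets -/
private theorem e2_common {w : V → ℝ} {F : Multiset V → Prop} {t : ℕ} {d : ℝ}
    (hS : Sys w F t d) (m₂ : ℕ) (hm : 1 ≤ m₂) (η : ℝ) (hη : 0 ≤ η) :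
    ∑ y₁, w y₁ * ∑ y₂, w y₂ * M w (t - 1) (fun A => ind (good w F t η m₂ (y₁ ::ₘ A)) *
      ind (good w F t η m₂ (y₂ ::ₘ A))) ≤ η / m₂ * d := by
  have ht := hS.ht
  have hd := d_nonneg hS
  have hm2 : (0 : ℝ) < (m₂ : ℝ) := by exact_mod_cast hm
  have h1 : ∀ y₁, ∑ y₂, w y₂ * M w (t - 1) (fun A => ind (good w F t η m₂ (y₁ ::ₘ A)) *
      ind (good w F t η m₂ (y₂ ::ₘ A))) ≤ η / m₂ * d := by
    intro y₁
    rw [M_swap_sum]
    have h2 : ∀ A : Multiset V, A.card = t - 1 →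
        ∑ y₂, w y₂ * (ind (good w F t η m₂ (y₁ ::ₘ A)) *
          ind (good w F t η m₂ (y₂ ::ₘ A))) ≤ ind (good w F t η m₂ (y₁ ::ₘ A)) * (η / m₂) := by
      intro A hA
      have hg := good_sum w hS.w0 F t η hη m₂ A (by omega) (by omega)
      have e1 : t - A.card = 1 := by omega
      rw [e1, pow_one] at hg
      have e2 : M w 1 (fun U => ind (good w F t η m₂ (A + U))) =
          ∑ y₂, w y₂ * ind (good w F t η m₂ (y₂ ::ₘ A)) := by
        rw [M_succ]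
        refine Finset.sum_congr rfl fun y _ => ?_
        rw [M_zero]
        congr 3
        rw [add_comm, Multiset.cons_add, zero_add]
      rw [e2] at hg
      have h3 : ∑ y₂, w y₂ * ind (good w F t η m₂ (y₂ ::ₘ A)) ≤ η / m₂ := by
        rw [le_div_iff₀ hm2]
        linarith
      calc ∑ y₂, w y₂ * (ind (good w F t η m₂ (y₁ ::ₘ A)) *
          ind (good w F t η m₂ (y₂ ::ₘ A))) = ind (good w F t η m₂ (y₁ ::ₘ A)) *
            ∑ y₂, w y₂ * ind (good w F t η m₂ (y₂ ::ₘ A)) := by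
            rw [Finset.mul_sum]
            exact Finset.sum_congr rfl fun y _ => by ring
        _ ≤ _ := mul_le_mul_of_nonneg_left h3 (ind_nonneg _)
    refine (M_mono w hS.w0 _ h2).trans ?_
    rw [M_mul_right]
    have g1 := good_vertex hS η m₂ y₁
    have p : 0 ≤ η / (m₂ : ℝ) := by positivity
    calc M w (t - 1) (fun A => ind (good w F t η m₂ (y₁ ::ₘ A))) * (η / m₂) ≤ d * (η / m₂) :=
          mul_le_mul_of_nonneg_right g1 p
      _ = _ := by ring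
  calc ∑ y₁, w y₁ * ∑ y₂, w y₂ * M w (t - 1) (fun A => ind (good w F t η m₂ (y₁ ::ₘ A)) *
      ind (good w F t η m₂ (y₂ ::ₘ A))) ≤ ∑ y₁, w y₁ * (η / m₂ * d) :=
        Finset.sum_le_sum fun y _ => mul_le_mul_of_nonneg_left (h1 y) (hS.w0 y)
    _ = _ := by rw [← Finset.sum_mul, hS.w1, one_mul]

theorem E2_bound {w : V → ℝ} {F : Multiset V → Prop} {t : ℕ} {d : ℝ} (hS : Sys w F t d)
    (m m₂ : ℕ) (hm : 2 * t ≤ m) (hmm : m ≤ m₂) (hd : 0 < d) (η π : ℝ) (hη : 0 ≤ η)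
    (hbad : M w t (fun e => ind (bad w F t η m₂ e)) ≤ π * d)
    (hq : ∀ b : ℕ, b ≤ 2 * t → Q w F t (m - b) 0 ≤ 2 * Q w F t m 0) :
    M w 2 (fun P => B2 w F t m P * cd w F t P) ≤
      d * Q w F t m 0 * ((m.choose (t - 1) : ℝ) * d) *
        (6 * π + 2 * ((m.choose (t - 1) : ℝ) * d) + 2 ^ (t + 1) * η +
          2 * η ^ 2 / (d * (m₂ : ℝ) ^ (t - 1))) := by
  have ht := hS.ht
  have hq0 : 0 ≤ Q w F t m 0 := Q_nonneg w hS.w0 F t m 0
  have hm2n : 1 ≤ m₂ := by omega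
  have hm2 : (0 : ℝ) < (m₂ : ℝ) := by exact_mod_cast hm2n
  set q := Q w F t m 0 with hqdef
  set C : ℝ := (m.choose (t - 1) : ℝ) with hC
  have hC0 : 0 ≤ C := Nat.cast_nonneg _
  set bd : V → ℝ := fun y => M w m (fun J => ind (Indep F t J) *
    ((J.powersetCard (t - 1)).map (fun A => ind (bad w F t η m₂ (y ::ₘ A)))).sum) with hbd
  set GG : V → V → ℝ := fun y₁ y₂ => M w (t - 1) (fun A => ind (good w F t η m₂ (y₁ ::ₘ A)) *
      ind (good w F t η m₂ (y₂ ::ₘ A))) with hGG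
  have hbd0 : ∀ y, 0 ≤ bd y := fun y => M_nonneg w hS.w0 _ fun _ _ =>
    mul_nonneg (ind_nonneg _) (e2_sum_map_nonneg fun _ => ind_nonneg _)
  have hGG0 : ∀ y₁ y₂, 0 ≤ GG y₁ y₂ := fun y₁ y₂ => M_nonneg w hS.w0 _ fun _ _ =>
    mul_nonneg (ind_nonneg _) (ind_nonneg _)
  set E : ℝ := 2 * q * C * (C * d * d + 2 ^ (t - 1) * η * d) with hE
  have hE0 : 0 ≤ E := by positivity
  set K : ℝ := 2 * q * C * (η / (m₂ : ℝ) ^ (t - 2)) with hK
  have hK0 : 0 ≤ K := by positivity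
  -- the pointwise bound
  have hpt : ∀ y₁ y₂ : V, B2 w F t m (y₁ ::ₘ y₂ ::ₘ 0) * cd w F t (y₁ ::ₘ y₂ ::ₘ 0) ≤
      2 * q * (C * d) * (ind (¬ (m₂ : ℝ) ^ (t - 2) * cd w F t (y₁ ::ₘ y₂ ::ₘ 0) ≤ η) *
        cd w F t (y₁ ::ₘ y₂ ::ₘ 0)) + bd y₁ * cd w F t (y₁ ::ₘ y₂ ::ₘ 0) +
      bd y₂ * cd w F t (y₁ ::ₘ y₂ ::ₘ 0) + E * cd w F t (y₁ ::ₘ y₂ ::ₘ 0) + K * GG y₁ y₂ := by
    intro y₁ y₂
    set c := cd w F t (y₁ ::ₘ y₂ ::ₘ 0) with hc
    have hc0 : 0 ≤ c := cd_nonneg w hS.w0 F t _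
    have b1 := mul_nonneg (hbd0 y₁) hc0
    have b2 := mul_nonneg (hbd0 y₂) hc0
    have b3 := mul_nonneg hE0 hc0
    have b4 := mul_nonneg hK0 (hGG0 y₁ y₂)
    by_cases hh : (m₂ : ℝ) ^ (t - 2) * c ≤ η
    · have hnn : ¬ ¬ (m₂ : ℝ) ^ (t - 2) * c ≤ η := not_not.mpr hh
      rw [ind_false hnn, zero_mul, mul_zero, zero_add]
      have hB : B2 w F t m (y₁ ::ₘ y₂ ::ₘ 0) ≤ bd y₁ + bd y₂ +
          (E + 2 * q * C * GG y₁ y₂) := by
        rw [e2_B2_eq]
        refine (M_mono w hS.w0 m fun J _ => e2_point (w := w) (F := F) ht η m₂ y₁ y₂ J).trans ?_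
        rw [M_add_fun, M_add_fun]
        refine add_le_add le_rfl ?_
        refine (e2_pairs hS m m₂ hm hmm η hη hq y₁ y₂).trans (le_of_eq ?_)
        simp only [hE, hGG, ← hqdef, ← hC]
        ring
      have hcK : 2 * q * C * GG y₁ y₂ * c ≤ K * GG y₁ y₂ := by
        have hp : (0 : ℝ) < (m₂ : ℝ) ^ (t - 2) := by positivity
        have hc' : c ≤ η / (m₂ : ℝ) ^ (t - 2) := by
          rw [le_div_iff₀ hp]
          linarith
        have hg0 := hGG0 y₁ y₂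
        calc 2 * q * C * GG y₁ y₂ * c = (2 * q * C * GG y₁ y₂) * c := rfl
          _ ≤ (2 * q * C * GG y₁ y₂) * (η / (m₂ : ℝ) ^ (t - 2)) :=
            mul_le_mul_of_nonneg_left hc' (by positivity)
          _ = K * GG y₁ y₂ := by rw [hK]; ring
      calc B2 w F t m (y₁ ::ₘ y₂ ::ₘ 0) * c ≤ (bd y₁ + bd y₂ +
          (E + 2 * q * C * GG y₁ y₂)) * c := mul_le_mul_of_nonneg_right hB hc0
        _ = bd y₁ * c + bd y₂ * c + E * c + 2 * q * C * GG y₁ y₂ * c := by ring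
        _ ≤ _ := by linarith
    · rw [ind_true hh, one_mul]
      have hB := e2_heavy hS m hq y₁ y₂
      have := mul_le_mul_of_nonneg_right hB hc0
      simp only [← hqdef, ← hC] at this
      linarith
  -- sum up
  rw [e2_M2]
  have hsum : ∑ y₁, w y₁ * ∑ y₂, w y₂ * (B2 w F t m (y₁ ::ₘ y₂ ::ₘ 0) *
      cd w F t (y₁ ::ₘ y₂ ::ₘ 0)) ≤
      2 * q * (C * d) * (∑ y₁, w y₁ * ∑ y₂, w y₂ *
        (ind (¬ (m₂ : ℝ) ^ (t - 2) * cd w F t (y₁ ::ₘ y₂ ::ₘ 0) ≤ η) *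
        cd w F t (y₁ ::ₘ y₂ ::ₘ 0))) +
      (∑ y₁, w y₁ * ∑ y₂, w y₂ * (bd y₁ * cd w F t (y₁ ::ₘ y₂ ::ₘ 0))) +
      (∑ y₁, w y₁ * ∑ y₂, w y₂ * (bd y₂ * cd w F t (y₁ ::ₘ y₂ ::ₘ 0))) +
      E * (∑ y₁, w y₁ * ∑ y₂, w y₂ * cd w F t (y₁ ::ₘ y₂ ::ₘ 0)) +
      K * (∑ y₁, w y₁ * ∑ y₂, w y₂ * GG y₁ y₂) := by
    have h1 : ∑ y₁, w y₁ * ∑ y₂, w y₂ * (B2 w F t m (y₁ ::ₘ y₂ ::ₘ 0) *
      cd w F t (y₁ ::ₘ y₂ ::ₘ 0)) ≤ ∑ y₁, w y₁ * ∑ y₂, w y₂ * (2 * q * (C * d) *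
        (ind (¬ (m₂ : ℝ) ^ (t - 2) * cd w F t (y₁ ::ₘ y₂ ::ₘ 0) ≤ η) *
        cd w F t (y₁ ::ₘ y₂ ::ₘ 0)) + bd y₁ * cd w F t (y₁ ::ₘ y₂ ::ₘ 0) +
      bd y₂ * cd w F t (y₁ ::ₘ y₂ ::ₘ 0) + E * cd w F t (y₁ ::ₘ y₂ ::ₘ 0) +
      K * GG y₁ y₂) := by
      refine Finset.sum_le_sum fun y₁ _ => mul_le_mul_of_nonneg_left ?_ (hS.w0 y₁)
      exact Finset.sum_le_sum fun y₂ _ => mul_le_mul_of_nonneg_left (hpt y₁ y₂) (hS.w0 y₂)
    refine h1.trans (le_of_eq ?_)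
    rw [Finset.mul_sum, Finset.mul_sum, Finset.mul_sum, ← Finset.sum_add_distrib,
      ← Finset.sum_add_distrib, ← Finset.sum_add_distrib, ← Finset.sum_add_distrib]
    refine Finset.sum_congr rfl fun y₁ _ => ?_
    have e : ∑ y₂, w y₂ * (2 * q * (C * d) *
        (ind (¬ (m₂ : ℝ) ^ (t - 2) * cd w F t (y₁ ::ₘ y₂ ::ₘ 0) ≤ η) *
        cd w F t (y₁ ::ₘ y₂ ::ₘ 0)) + bd y₁ * cd w F t (y₁ ::ₘ y₂ ::ₘ 0) +
      bd y₂ * cd w F t (y₁ ::ₘ y₂ ::ₘ 0) + E * cd w F t (y₁ ::ₘ y₂ ::ₘ 0) +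
      K * GG y₁ y₂) = 2 * q * (C * d) * (∑ y₂, w y₂ *
        (ind (¬ (m₂ : ℝ) ^ (t - 2) * cd w F t (y₁ ::ₘ y₂ ::ₘ 0) ≤ η) *
        cd w F t (y₁ ::ₘ y₂ ::ₘ 0))) + (∑ y₂, w y₂ * (bd y₁ * cd w F t (y₁ ::ₘ y₂ ::ₘ 0))) +
        (∑ y₂, w y₂ * (bd y₂ * cd w F t (y₁ ::ₘ y₂ ::ₘ 0))) +
        E * (∑ y₂, w y₂ * cd w F t (y₁ ::ₘ y₂ ::ₘ 0)) + K * (∑ y₂, w y₂ * GG y₁ y₂) := by
      rw [Finset.mul_sum, Finset.mul_sum, Finset.mul_sum, ← Finset.sum_add_distrib,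
        ← Finset.sum_add_distrib, ← Finset.sum_add_distrib, ← Finset.sum_add_distrib]
      refine Finset.sum_congr rfl fun y₂ _ => ?_
      ring
    rw [e]
    ring
  refine hsum.trans ?_
  -- the five sums
  have s1 : ∑ y₁, w y₁ * ∑ y₂, w y₂ *
        (ind (¬ (m₂ : ℝ) ^ (t - 2) * cd w F t (y₁ ::ₘ y₂ ::ₘ 0) ≤ η) *
        cd w F t (y₁ ::ₘ y₂ ::ₘ 0)) ≤ π * d := e2_heavy_sum hS m₂ η π hbad
  have s2 : ∑ y₁, w y₁ * ∑ y₂, w y₂ * (bd y₁ * cd w F t (y₁ ::ₘ y₂ ::ₘ 0)) ≤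
      2 * q * (C * (π * d)) * d := by
    have e : ∑ y₁, w y₁ * ∑ y₂, w y₂ * (bd y₁ * cd w F t (y₁ ::ₘ y₂ ::ₘ 0)) =
        (∑ y₁, w y₁ * bd y₁) * d := by
      rw [Finset.sum_mul]
      refine Finset.sum_congr rfl fun y₁ _ => ?_
      have : ∑ y₂, w y₂ * (bd y₁ * cd w F t (y₁ ::ₘ y₂ ::ₘ 0)) =
          bd y₁ * ∑ y₂, w y₂ * cd w F t (y₁ ::ₘ y₂ ::ₘ 0) := by
        rw [Finset.mul_sum]
        exact Finset.sum_congr rfl fun y₂ _ => by ring
      rw [this, e2_sum_right hS]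
      ring
    rw [e]
    exact mul_le_mul_of_nonneg_right (e2_bad_sum hS m m₂ η π hbad hq) hd.le
  have s3 : ∑ y₁, w y₁ * ∑ y₂, w y₂ * (bd y₂ * cd w F t (y₁ ::ₘ y₂ ::ₘ 0)) ≤
      2 * q * (C * (π * d)) * d := by
    refine le_trans (le_of_eq ?_) s2
    have e1 : ∀ f : V → V → ℝ, ∑ y₁, w y₁ * ∑ y₂, w y₂ * f y₁ y₂ =
        ∑ y₁, ∑ y₂, w y₁ * w y₂ * f y₁ y₂ := by
      intro f
      refine Finset.sum_congr rfl fun y₁ _ => ?_
      rw [Finset.mul_sum]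
      exact Finset.sum_congr rfl fun y₂ _ => by ring
    rw [e1, e1, Finset.sum_comm]
    refine Finset.sum_congr rfl fun y₁ _ => Finset.sum_congr rfl fun y₂ _ => ?_
    rw [e2_cd_swap w F t y₂ y₁]
    ring
  have s4 : ∑ y₁, w y₁ * ∑ y₂, w y₂ * cd w F t (y₁ ::ₘ y₂ ::ₘ 0) = d := by
    have : ∀ y₁, ∑ y₂, w y₂ * cd w F t (y₁ ::ₘ y₂ ::ₘ 0) = d := e2_sum_right hS
    simp only [this]
    rw [← Finset.sum_mul, hS.w1, one_mul]
  have s5 : ∑ y₁, w y₁ * ∑ y₂, w y₂ * GG y₁ y₂ ≤ η / m₂ * d := e2_common hS m₂ hm2n η hη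
  rw [s4]
  have t1 : 2 * q * (C * d) * (∑ y₁, w y₁ * ∑ y₂, w y₂ *
        (ind (¬ (m₂ : ℝ) ^ (t - 2) * cd w F t (y₁ ::ₘ y₂ ::ₘ 0) ≤ η) *
        cd w F t (y₁ ::ₘ y₂ ::ₘ 0))) ≤ 2 * q * (C * d) * (π * d) :=
    mul_le_mul_of_nonneg_left s1 (by positivity)
  have t5 : K * (∑ y₁, w y₁ * ∑ y₂, w y₂ * GG y₁ y₂) ≤ K * (η / m₂ * d) :=
    mul_le_mul_of_nonneg_left s5 hK0
  have hpow : (m₂ : ℝ) ^ (t - 1) = (m₂ : ℝ) ^ (t - 2) * m₂ := by
    rw [← pow_succ]
    congr 1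
    omega
  have e5 : K * (η / m₂ * d) = d * q * (C * d) * (2 * η ^ 2 / (d * (m₂ : ℝ) ^ (t - 1))) := by
    rw [hK, hpow]
    field_simp
  have hpow2 : (2 : ℝ) ^ (t - 1) * 2 ≤ 2 ^ (t + 1) := by
    rw [← pow_succ]
    exact pow_le_pow_right₀ (by norm_num) (by omega)
  have e4 : E * d ≤ d * q * (C * d) * (2 * (C * d) + 2 ^ (t + 1) * η) := by
    have : E * d = d * q * (C * d) * (2 * (C * d) + (2 ^ (t - 1) * 2) * η) := by
      rw [hE]; ring
    rw [this]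
    refine mul_le_mul_of_nonneg_left ?_ (by positivity)
    have := mul_le_mul_of_nonneg_right hpow2 hη
    linarith
  calc _ ≤ 2 * q * (C * d) * (π * d) + 2 * q * (C * (π * d)) * d + 2 * q * (C * (π * d)) * d +
        d * q * (C * d) * (2 * (C * d) + 2 ^ (t + 1) * η) +
        d * q * (C * d) * (2 * η ^ 2 / (d * (m₂ : ℝ) ^ (t - 1))) := by
        rw [← e5]
        linarith
    _ = _ := by ring

end

end Pool.Agent.H123R2.Gen.E2
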