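import Pool.Agent.H123R2.Gen.Stubs

/-!
Heavy subsets of a given size (task HV1).
-/

set_option autoImplicit false
set_option linter.unusedSectionVars false
set_option linter.unusedVariables false

namespace Pool.Agent.H123R2.Gen.HV1

open Finset

section
variable {V : Type} [Fintype V] [DecidableEq V]

/-- no heavy subset of `e` of size in `(s, t)` -/
private def nh (w : V → ℝ) (F : Multiset V → Prop) (t m s : ℕ) (η : ℝ) (e : Multiset V) : Prop :=
  ∀ T' : Multiset V, T' ≤ e → s < T'.card → T'.card < t →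
    (m : ℝ) ^ (t - T'.card) * cd w F t T' ≤ η

private def LT (w : V → ℝ) (F : Multiset V → Prop) (t m s : ℕ) (η : ℝ) (T Z : Multiset V) : Prop :=
  F (T + Z) ∧ nh w F t m s η (T + Z) ∧ Q w F t m 0 ≤ 2 * Q w F t m Z

private theorem pow_choose (t m r : ℕ) (hm : 4 * t ≤ m) (hr : r ≤ t) (hr1 : 1 ≤ r) :
    (m : ℝ) ^ r ≤ (2 * (t : ℝ)) ^ t * (m.choose r : ℝ) := by
  have h1 : ((m + 1 - r : ℕ) : ℝ) ^ r ≤ (r.factorial : ℝ) * (m.choose r : ℝ) := by
    have := Nat.pow_le_choose (α := ℝ) r m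
    rw [div_le_iff₀ (by positivity)] at this
    linarith
  have h2 : (m : ℝ) ≤ 2 * ((m + 1 - r : ℕ) : ℝ) := by
    have : m ≤ 2 * (m + 1 - r) := by omega
    exact_mod_cast this
  have h3 : (m : ℝ) ^ r ≤ 2 ^ r * ((m + 1 - r : ℕ) : ℝ) ^ r := by
    rw [← mul_pow]
    exact pow_le_pow_left₀ (by positivity) h2 r
  have h4 : (2 : ℝ) ^ r * (r.factorial : ℝ) ≤ (2 * (t : ℝ)) ^ t := by
    have e1 : (r.factorial : ℝ) ≤ (r : ℝ) ^ r := by exact_mod_cast Nat.factorial_le_pow r
    have hrt : (r : ℝ) ≤ t := by exact_mod_cast hr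
    have hr1' : (1 : ℝ) ≤ r := by exact_mod_cast hr1
    calc (2 : ℝ) ^ r * (r.factorial : ℝ) ≤ 2 ^ r * (r : ℝ) ^ r := by gcongr
      _ = (2 * (r : ℝ)) ^ r := by rw [mul_pow]
      _ ≤ (2 * (t : ℝ)) ^ r := by gcongr
      _ ≤ (2 * (t : ℝ)) ^ t := by
        refine pow_le_pow_right₀ ?_ hr
        linarith
  calc (m : ℝ) ^ r ≤ 2 ^ r * ((m + 1 - r : ℕ) : ℝ) ^ r := h3
    _ ≤ 2 ^ r * ((r.factorial : ℝ) * (m.choose r : ℝ)) := by gcongr
    _ = (2 ^ r * (r.factorial : ℝ)) * (m.choose r : ℝ) := by ring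
    _ ≤ _ := by gcongr

/-- (1) few edges are spoiled -/
private theorem spoiled {w : V → ℝ} {F : Multiset V → Prop} {t : ℕ} {d : ℝ} (hS : Sys w F t d)
    (m : ℕ) (δ : ℝ) (hqpos : 0 < Q w F t m 0)
    (NS : EA w F t (fun _ A => Q w F t m 0 - Q w F t m A) ≤ δ * d * Q w F t m 0)
    (s : ℕ) (hs1 : 1 ≤ s) (hst : s < t) :
    M w s (fun T => M w (t - s) (fun Z => ind (F (T + Z) ∧ 2 * Q w F t m Z < Q w F t m 0))) ≤
      2 * δ * d := by
  obtain ⟨s', rfl⟩ : ∃ s', s = s' + 1 := ⟨s - 1, by omega⟩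
  have hw := hS.w0
  set q := Q w F t m 0 with hq
  have h1 : M w (s' + 1) (fun T => M w (t - (s' + 1))
        (fun Z => ind (F (T + Z) ∧ 2 * Q w F t m Z < q))) ≤
      (2 / q) * EA w F t (fun _ A => q - Q w F t m A) := by
    rw [M_succ, EA, Finset.mul_sum]
    refine Finset.sum_le_sum fun x _ => ?_
    have e1 : t - 1 = s' + (t - (s' + 1)) := by omega
    rw [e1, M_add]
    have e2 : 2 / q * (w x * M w s' (fun X => M w (t - (s' + 1)) (fun Y =>
        ind (F (x ::ₘ (X + Y))) * (q - Q w F t m (X + Y))))) =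
        w x * M w s' (fun X => M w (t - (s' + 1)) (fun Y =>
        2 / q * (ind (F (x ::ₘ (X + Y))) * (q - Q w F t m (X + Y))))) := by
      simp only [M_mul_left]
      ring
    rw [e2]
    refine mul_le_mul_of_nonneg_left ?_ (hw x)
    refine M_mono w hw _ fun X _ => M_mono w hw _ fun Y _ => ?_
    rw [ind_and, Multiset.cons_add]
    have e3 : 2 / q * (ind (F (x ::ₘ (X + Y))) * (q - Q w F t m (X + Y))) =
        ind (F (x ::ₘ (X + Y))) * (2 / q * (q - Q w F t m (X + Y))) := by ring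
    rw [e3]
    refine mul_le_mul_of_nonneg_left ?_ (ind_nonneg _)
    have h2 : Q w F t m (X + Y) ≤ Q w F t m Y := Q_anti w hw F t m (by
      rw [add_comm]; exact Multiset.le_add_right Y X)
    have h3 : Q w F t m (X + Y) ≤ q := Q_anti w hw F t m (Multiset.zero_le _)
    by_cases hc : 2 * Q w F t m Y < q
    · rw [ind_true hc, div_mul_eq_mul_div, le_div_iff₀ hqpos]
      linarith
    · rw [ind_false hc]
      exact mul_nonneg (by positivity) (by linarith)
  refine h1.trans ?_
  have h2 : (2 / q) * EA w F t (fun _ A => q - Q w F t m A) ≤ (2 / q) * (δ * d * q) :=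
    mul_le_mul_of_nonneg_left NS (by positivity)
  refine h2.trans (le_of_eq ?_)
  field_simp

/-- the independence probability drops -/
private theorem drop {w : V → ℝ} (hw : ∀ x, 0 ≤ w x) (F : Multiset V → Prop) (t m s : ℕ)
    (hst : s ≤ t) (η : ℝ) (T : Multiset V) (hT : T.card = s) :
    M w m (fun J => ind (Indep F t J ∧ ∃ R : Multiset V, R ≤ J ∧ R.card = t - s ∧
      LT w F t m s η T R)) ≤ Q w F t m 0 - Q w F t m T := by
  have h : Q w F t m T ≤ Q w F t m 0 - M w m (fun J => ind (Indep F t J ∧ ∃ R : Multiset V,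
      R ≤ J ∧ R.card = t - s ∧ LT w F t m s η T R)) := by
    unfold Q
    rw [← M_sub_fun]
    refine M_mono w hw _ fun J _ => ?_
    rw [zero_add]
    by_cases h1 : Indep F t (T + J)
    · have h2 : Indep F t J := Indep_mono (by rw [add_comm]; exact Multiset.le_add_right J T) h1
      rw [ind_true h1, ind_true h2, ind_false]
      · norm_num
      · rintro ⟨-, R, hR, hRc, hL, -⟩
        exact h1 (T + R) (by gcongr) (by rw [Multiset.card_add, hT, hRc]; omega) hL
    · rw [ind_false h1]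
      have := ind_mono (p := Indep F t J ∧ ∃ R : Multiset V,
        R ≤ J ∧ R.card = t - s ∧ LT w F t m s η T R) (q := Indep F t J) (fun h => h.1)
      linarith
  linarith

/-- (3) the lower bound for the drop -/
private theorem drop_lower {w : V → ℝ} {F : Multiset V → Prop} {t : ℕ} {d : ℝ}
    (hS : Sys w F t d) (m : ℕ) (hm : 4 * t ≤ m) (η p : ℝ) (hη : 0 < η) (hη1 : 2 ^ t * η ≤ 1)
    (hp : 0 < p) (hp1 : p ≤ 1) (hqpos : 0 < Q w F t m 0)
    (hq : ∀ b : ℕ, b ≤ 2 * t → Q w F t (m - b) 0 ≤ 2 * Q w F t m 0)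
    (s : ℕ) (hst : s < t) (T : Multiset V) (hT : T.card = s)
    (hheavy : η < (m : ℝ) ^ (t - s) * cd w F t T)
    (hl : p / 4 * cd w F t T ≤ M w (t - s) (fun Z => ind (LT w F t m s η T Z))) :
    (p / 4 * η / (2 * (t : ℝ)) ^ t) * Q w F t m 0 / 24 ≤ Q w F t m 0 - Q w F t m T := by
  have hw := hS.w0
  refine le_trans ?_ (drop hw F t m s hst.le η T hT)
  set P := M w m (fun J => ind (Indep F t J ∧ ∃ R : Multiset V, R ≤ J ∧ R.card = t - s ∧
      LT w F t m s η T R)) with hP
  have hP0 : 0 ≤ P := M_nonneg w hw _ fun J _ => ind_nonneg _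
  have hA := lemmaA w hw hS.w1 F t m (t - s) (by omega) (by omega) (LT w F t m s η T) η hη.le
    hqpos (fun b hb => hq b (by omega)) (by
      rintro S hS0 hS1 ⟨R, hR, ⟨hL1, hL2, hL3⟩, hSR⟩
      have h1 := hL2 (T + S) (by gcongr) (by rw [Multiset.card_add, hT]; omega)
        (by rw [Multiset.card_add, hT]; omega)
      have e1 : t - (T + S).card = t - s - S.card := by rw [Multiset.card_add, hT]; omega
      rw [e1] at h1
      refine le_trans ?_ h1
      refine mul_le_mul_of_nonneg_left ?_ (by positivity)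
      rw [cd, e1]
      refine M_mono w hw _ fun Z _ => ind_mono ?_
      rintro ⟨h2, -⟩
      rw [add_assoc]
      exact h2) (fun R _ hL => hL.2.2)
  set l := M w (t - s) (fun Z => ind (LT w F t m s η T Z)) with hldef
  set q := Q w F t m 0 with hqdef
  have htpos : (0 : ℝ) < (2 * (t : ℝ)) ^ t := by
    have := hS.ht
    have : (0 : ℝ) < t := by exact_mod_cast (by omega : 0 < t)
    positivity
  set μ₀ := p / 4 * η / (2 * (t : ℝ)) ^ t with hμ₀
  set μ := (m.choose (t - s) : ℝ) * l with hμ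
  have hμge : μ₀ ≤ μ := by
    have h1 := pow_choose t m (t - s) hm (by omega) (by omega)
    rw [hμ₀, div_le_iff₀ htpos]
    have hc0 : 0 ≤ cd w F t T := cd_nonneg w hw F t T
    calc p / 4 * η ≤ p / 4 * ((m : ℝ) ^ (t - s) * cd w F t T) := by gcongr
      _ ≤ p / 4 * (((2 * (t : ℝ)) ^ t * (m.choose (t - s) : ℝ)) * cd w F t T) := by gcongr
      _ = (m.choose (t - s) : ℝ) * (p / 4 * cd w F t T) * (2 * (t : ℝ)) ^ t := by ring
      _ ≤ (m.choose (t - s) : ℝ) * l * (2 * (t : ℝ)) ^ t := by gcongr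
  have hμ₀pos : 0 < μ₀ := by positivity
  have hη2 : (2 : ℝ) ^ (t - s) * η ≤ 1 := by
    refine le_trans ?_ hη1
    have : (2 : ℝ) ^ (t - s) ≤ 2 ^ t := pow_le_pow_right₀ (by norm_num) (by omega)
    gcongr
  have hη3 : η ≤ 1 := by
    refine le_trans ?_ hη1
    have : (1 : ℝ) ≤ 2 ^ t := one_le_pow₀ (by norm_num)
    nlinarith
  have hμ₀1 : μ₀ ≤ 1 := by
    rw [hμ₀, div_le_one htpos]
    have h1 : (1 : ℝ) ≤ (2 * (t : ℝ)) ^ t := by
      refine one_le_pow₀ ?_
      have := hS.ht
      have : (3 : ℝ) ≤ t := by exact_mod_cast this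
      linarith
    have h2 : p / 4 * η ≤ 1 * 1 := mul_le_mul (by linarith) hη3 hη.le (by norm_num)
    linarith
  have h4 : μ * q ≤ 8 * (2 + μ) * P := by
    refine hA.trans ?_
    have : (1 + 2 ^ (t - s) * η + μ) ≤ 2 + μ := by linarith
    gcongr
  -- `μ ≥ μ₀` and `x / (2 + x)` is monotone
  have hμpos : 0 < μ := hμ₀pos.trans_le hμge
  have h5 : μ₀ * (8 * (2 + μ)) ≤ 24 * μ := by nlinarith
  have h6 : μ₀ * q / 24 * (8 * (2 + μ)) ≤ P * (8 * (2 + μ)) := by
    calc μ₀ * q / 24 * (8 * (2 + μ)) = (μ₀ * (8 * (2 + μ))) * (q / 24) := by ring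
      _ ≤ (24 * μ) * (q / 24) := by gcongr
      _ = μ * q := by ring
      _ ≤ 8 * (2 + μ) * P := h4
      _ = P * (8 * (2 + μ)) := by ring
  exact le_of_mul_le_mul_right h6 (by positivity)

theorem heavy_size {w : V → ℝ} {F : Multiset V → Prop} {t : ℕ} {d : ℝ} (hS : Sys w F t d)
    (m : ℕ) (hm : 4 * t ≤ m) (hd : 0 < d) (η δ p : ℝ) (hη : 0 < η) (hη1 : 2 ^ t * η ≤ 1)
    (hδ : 0 ≤ δ) (hp : 0 < p) (hp1 : p ≤ 1) (h8 : 8 * δ ≤ p) (hqpos : 0 < Q w F t m 0)
    (hq : ∀ b : ℕ, b ≤ 2 * t → Q w F t (m - b) 0 ≤ 2 * Q w F t m 0)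
    (NS : EA w F t (fun _ A => Q w F t m 0 - Q w F t m A) ≤ δ * d * Q w F t m 0)
    (hK : 192 * (2 * (t : ℝ)) ^ t * δ < p ^ 2 * η) (s : ℕ) (hs2 : 2 ≤ s) (hst : s < t) :
    M w s (fun T => ind (η < (m : ℝ) ^ (t - s) * cd w F t T) *
      M w (t - s) (fun Z => ind (F (T + Z) ∧ ∀ T' : Multiset V, T' ≤ T + Z → s < T'.card →
        T'.card < t → (m : ℝ) ^ (t - T'.card) * cd w F t T' ≤ η))) ≤ p * d := by
  by_contra hcon
  push Not at hcon
  have hw := hS.w0
  have hw1 := hS.w1
  set q := Q w F t m 0 with hqdef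
  have hsp := spoiled hS m δ hqpos NS s (by omega) hst
  -- `l T`
  let l : Multiset V → ℝ := fun T => M w (t - s) (fun Z => ind (LT w F t m s η T Z))
  have hl0 : ∀ T, 0 ≤ l T := fun T => M_nonneg w hw _ fun Z _ => ind_nonneg _
  have hlcd : ∀ T : Multiset V, T.card = s → l T ≤ cd w F t T := by
    intro T hT
    rw [cd, hT]
    exact M_mono w hw _ fun Z _ => ind_mono fun h => h.1
  -- the sum over the heavy sets
  have h1 : p * d < M w s (fun T => ind (η < (m : ℝ) ^ (t - s) * cd w F t T) * l T) +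
      2 * δ * d := by
    refine hcon.trans_le ?_
    refine le_trans ?_ (add_le_add_right hsp _)
    rw [← M_add_fun]
    refine M_mono w hw _ fun T _ => ?_
    have h2 : M w (t - s) (fun Z => ind (F (T + Z) ∧ ∀ T' : Multiset V, T' ≤ T + Z →
        s < T'.card → T'.card < t → (m : ℝ) ^ (t - T'.card) * cd w F t T' ≤ η)) ≤
        l T + M w (t - s) (fun Z => ind (F (T + Z) ∧ 2 * Q w F t m Z < q)) := by
      simp only [l]
      rw [← M_add_fun]
      refine M_mono w hw _ fun Z _ => ?_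
      by_cases hc : q ≤ 2 * Q w F t m Z
      · have := ind_mono (p := F (T + Z) ∧ ∀ T' : Multiset V, T' ≤ T + Z →
          s < T'.card → T'.card < t → (m : ℝ) ^ (t - T'.card) * cd w F t T' ≤ η)
          (q := LT w F t m s η T Z) (fun h => ⟨h.1, h.2, hc⟩)
        have h3 := ind_nonneg (F (T + Z) ∧ 2 * Q w F t m Z < q)
        linarith
      · have := ind_mono (p := F (T + Z) ∧ ∀ T' : Multiset V, T' ≤ T + Z →
          s < T'.card → T'.card < t → (m : ℝ) ^ (t - T'.card) * cd w F t T' ≤ η)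
          (q := F (T + Z) ∧ 2 * Q w F t m Z < q) (fun h => ⟨h.1, not_le.1 hc⟩)
        have h3 := ind_nonneg (LT w F t m s η T Z)
        linarith
    have h3 : 0 ≤ M w (t - s) (fun Z => ind (F (T + Z) ∧ 2 * Q w F t m Z < q)) :=
      M_nonneg w hw _ fun Z _ => ind_nonneg _
    by_cases hh : η < (m : ℝ) ^ (t - s) * cd w F t T
    · rw [ind_true hh, one_mul, one_mul]
      exact h2
    · rw [ind_false hh, zero_mul, zero_mul, zero_add]
      exact h3
  let TT : Multiset V → Prop := fun T => η < (m : ℝ) ^ (t - s) * cd w F t T ∧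
    p / 4 * cd w F t T ≤ l T
  have hMcd : M w s (fun T => cd w F t T) = d := by
    have := M_cd w F t s 0 (by simpa using hst.le)
    simp only [zero_add] at this
    rw [this, cd_zero hS]
  have h2 : M w s (fun T => ind (η < (m : ℝ) ^ (t - s) * cd w F t T) * l T) ≤
      M w s (fun T => ind (TT T) * cd w F t T) + p / 4 * d := by
    rw [← hMcd, ← M_mul_left, ← M_add_fun]
    refine M_mono w hw _ fun T hT => ?_
    have hc0 : 0 ≤ cd w F t T := cd_nonneg w hw F t T
    by_cases hh : η < (m : ℝ) ^ (t - s) * cd w F t T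
    · rw [ind_true hh, one_mul]
      by_cases hl : p / 4 * cd w F t T ≤ l T
      · have hTT : TT T := ⟨hh, hl⟩
        rw [ind_true hTT, one_mul]
        have := hlcd T hT
        have := mul_nonneg (by positivity : 0 ≤ p / 4) hc0
        linarith
      · push Not at hl
        have := mul_nonneg (ind_nonneg (TT T)) hc0
        linarith
    · rw [ind_false hh, zero_mul]
      have := mul_nonneg (ind_nonneg (TT T)) hc0
      have := mul_nonneg (by positivity : 0 ≤ p / 4) hc0
      linarith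
  have h3 : p / 2 * d < M w s (fun T => ind (TT T) * cd w F t T) := by
    have : 2 * δ * d ≤ p / 4 * d := by
      have : 2 * δ ≤ p / 4 := by linarith
      gcongr
    linarith
  -- (4)
  have h4 : M w s (fun T => (ind (TT T) * (q - Q w F t m T)) * cd w F t T) ≤ δ * d * q := by
    have hcpos : 0 < ((t - 1).choose s : ℝ) := by
      exact_mod_cast Nat.choose_pos (by omega)
    have e1 := EA_pc w F t (by omega) s (by omega) (fun T => ind (TT T) * (q - Q w F t m T))
    have e2 : EA w F t (fun _ A => ((A.powersetCard s).map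
        (fun T => ind (TT T) * (q - Q w F t m T))).sum) ≤
        EA w F t (fun _ A => ((t - 1).choose s : ℝ) * (q - Q w F t m A)) := by
      refine EA_mono w hw F t fun x A hA _ => ?_
      have h5 : ∀ y ∈ (A.powersetCard s).map (fun T => ind (TT T) * (q - Q w F t m T)),
          y ≤ q - Q w F t m A := by
        intro y hy
        obtain ⟨T, hT, rfl⟩ := Multiset.mem_map.1 hy
        have hTA : T ≤ A := (Multiset.mem_powersetCard.1 hT).1
        have h6 : Q w F t m A ≤ Q w F t m T := Q_anti w hw F t m hTA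
        have h7 : Q w F t m T ≤ q := Q_anti w hw F t m (Multiset.zero_le _)
        have h8 := ind_le_one (TT T)
        have h9 : ind (TT T) * (q - Q w F t m T) ≤ 1 * (q - Q w F t m T) :=
          mul_le_mul_of_nonneg_right h8 (by linarith)
        linarith
      have h6 := Multiset.sum_le_card_nsmul _ _ h5
      rw [Multiset.card_map, Multiset.card_powersetCard, hA, nsmul_eq_mul] at h6
      exact h6
    have e3 : EA w F t (fun _ A => ((t - 1).choose s : ℝ) * (q - Q w F t m A)) =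
        ((t - 1).choose s : ℝ) * EA w F t (fun _ A => (q - Q w F t m A)) := by
      simp only [EA, Finset.mul_sum]
      refine Finset.sum_congr rfl fun x _ => ?_
      have : M w (t - 1) (fun A => ind (F (x ::ₘ A)) * (((t - 1).choose s : ℝ) *
          (q - Q w F t m A))) = ((t - 1).choose s : ℝ) *
          M w (t - 1) (fun A => ind (F (x ::ₘ A)) * (q - Q w F t m A)) := by
        rw [← M_mul_left]
        exact M_congr w _ fun A _ => by ring
      rw [this]
      ring
    rw [e1, e3] at e2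
    exact (le_of_mul_le_mul_left e2 hcpos).trans NS
  set μ₀ := p / 4 * η / (2 * (t : ℝ)) ^ t with hμ₀
  have h5 : μ₀ * q / 24 * M w s (fun T => ind (TT T) * cd w F t T) ≤
      M w s (fun T => (ind (TT T) * (q - Q w F t m T)) * cd w F t T) := by
    rw [← M_mul_left]
    refine M_mono w hw _ fun T hT => ?_
    have hc0 : 0 ≤ cd w F t T := cd_nonneg w hw F t T
    by_cases hTT : TT T
    · rw [ind_true hTT, one_mul, one_mul]
      refine mul_le_mul_of_nonneg_right ?_ hc0
      exact drop_lower hS m hm η p hη hη1 hp hp1 hqpos hq s hst T hT hTT.1 hTT.2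
    · rw [ind_false hTT]
      simp
  have htpos : (0 : ℝ) < (2 * (t : ℝ)) ^ t := by
    have : (0 : ℝ) < t := by exact_mod_cast (by omega : 0 < t)
    positivity
  have hμ₀pos : 0 < μ₀ := by positivity
  have h6 : μ₀ * q / 24 * (p / 2 * d) < δ * d * q :=
    (mul_lt_mul_of_pos_left h3 (by positivity)).trans_le (h5.trans h4)
  have h7 : μ₀ * p / 48 < δ := by
    have : (μ₀ * p / 48) * (d * q) < δ * (d * q) := by
      calc (μ₀ * p / 48) * (d * q) = μ₀ * q / 24 * (p / 2 * d) := by ring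
        _ < δ * d * q := h6
        _ = δ * (d * q) := by ring
    exact lt_of_mul_lt_mul_right this (by positivity)
  have h8' : μ₀ * p / 48 = p ^ 2 * η / (192 * (2 * (t : ℝ)) ^ t) := by
    rw [hμ₀]
    field_simp
    ring
  rw [h8', div_lt_iff₀ (by positivity)] at h7
  linarith

end

end Pool.Agent.H123R2.Gen.HV1
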