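import Pool.Agent.H123R2.Gen.Defs

/-!
Calculus of the averages `M`.
-/

set_option autoImplicit false
set_option linter.unusedSectionVars false

namespace Pool.Agent.H123R2.Gen

open Finset

theorem ind_nonneg (p : Prop) : 0 ≤ ind p := by
  unfold ind; split_ifs <;> norm_num

theorem ind_le_one (p : Prop) : ind p ≤ 1 := by
  unfold ind; split_ifs <;> norm_num

theorem ind_true {p : Prop} (h : p) : ind p = 1 := by
  unfold ind; rw [if_pos h]

theorem ind_false {p : Prop} (h : ¬ p) : ind p = 0 := by
  unfold ind; rw [if_neg h]

theorem ind_and (p q : Prop) : ind (p ∧ q) = ind p * ind q := by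
  by_cases hp : p <;> by_cases hq : q <;> simp [ind, hp, hq]

theorem ind_not (p : Prop) : ind (¬ p) = 1 - ind p := by
  by_cases hp : p <;> simp [ind, hp]

theorem ind_mono {p q : Prop} (h : p → q) : ind p ≤ ind q := by
  by_cases hp : p
  · rw [ind_true hp, ind_true (h hp)]
  · rw [ind_false hp]; exact ind_nonneg _

theorem ind_congr {p q : Prop} (h : p ↔ q) : ind p = ind q := by
  rw [propext h]

section
variable {V : Type} [Fintype V] [DecidableEq V]

theorem M_zero (w : V → ℝ) (f : Multiset V → ℝ) : M w 0 f = f 0 := rfl

theorem M_succ (w : V → ℝ) (n : ℕ) (f : Multiset V → ℝ) :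
    M w (n + 1) f = ∑ x, w x * M w n (fun X => f (x ::ₘ X)) := rfl

theorem M_congr (w : V → ℝ) (n : ℕ) {f g : Multiset V → ℝ}
    (h : ∀ X : Multiset V, X.card = n → f X = g X) : M w n f = M w n g := by
  induction n generalizing f g with
  | zero => exact h 0 (by simp)
  | succ n ih =>
    rw [M_succ, M_succ]
    refine Finset.sum_congr rfl fun x _ => ?_
    rw [ih fun X hX => h (x ::ₘ X) (by simp [hX])]

theorem M_mono (w : V → ℝ) (hw : ∀ x, 0 ≤ w x) (n : ℕ) {f g : Multiset V → ℝ}
    (h : ∀ X : Multiset V, X.card = n → f X ≤ g X) : M w n f ≤ M w n g := by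
  induction n generalizing f g with
  | zero => exact h 0 (by simp)
  | succ n ih =>
    rw [M_succ, M_succ]
    refine Finset.sum_le_sum fun x _ => ?_
    exact mul_le_mul_of_nonneg_left (ih fun X hX => h (x ::ₘ X) (by simp [hX])) (hw x)

theorem M_const (w : V → ℝ) (hw1 : ∑ x, w x = 1) (n : ℕ) (c : ℝ) : M w n (fun _ => c) = c := by
  induction n with
  | zero => rfl
  | succ n ih =>
    rw [M_succ]
    simp only [ih]
    rw [← Finset.sum_mul, hw1, one_mul]

theorem M_zero_fun (w : V → ℝ) (n : ℕ) : M w n (fun _ => (0 : ℝ)) = 0 := by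
  induction n with
  | zero => rfl
  | succ n ih =>
    rw [M_succ]
    simp [ih]

theorem M_nonneg (w : V → ℝ) (hw : ∀ x, 0 ≤ w x) (n : ℕ) {f : Multiset V → ℝ}
    (h : ∀ X : Multiset V, X.card = n → 0 ≤ f X) : 0 ≤ M w n f := by
  rw [← M_zero_fun w n]
  exact M_mono w hw n h

theorem M_add_fun (w : V → ℝ) (n : ℕ) (f g : Multiset V → ℝ) :
    M w n (fun X => f X + g X) = M w n f + M w n g := by
  induction n generalizing f g with
  | zero => rfl
  | succ n ih =>
    rw [M_succ, M_succ, M_succ, ← Finset.sum_add_distrib]
    refine Finset.sum_congr rfl fun x _ => ?_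
    rw [ih, mul_add]

theorem M_mul_left (w : V → ℝ) (n : ℕ) (c : ℝ) (f : Multiset V → ℝ) :
    M w n (fun X => c * f X) = c * M w n f := by
  induction n generalizing f with
  | zero => rfl
  | succ n ih =>
    rw [M_succ, M_succ, Finset.mul_sum]
    refine Finset.sum_congr rfl fun x _ => ?_
    rw [ih]
    ring

theorem M_mul_right (w : V → ℝ) (n : ℕ) (c : ℝ) (f : Multiset V → ℝ) :
    M w n (fun X => f X * c) = M w n f * c := by
  rw [mul_comm, ← M_mul_left]
  exact M_congr w n fun X _ => mul_comm _ _

theorem M_sub_fun (w : V → ℝ) (n : ℕ) (f g : Multiset V → ℝ) :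
    M w n (fun X => f X - g X) = M w n f - M w n g := by
  have h : M w n (fun X => f X - g X) = M w n (fun X => f X + (-1) * g X) :=
    M_congr w n fun X _ => by ring
  rw [h, M_add_fun, M_mul_left]
  ring

theorem M_sum {α : Type} (s : Finset α) (w : V → ℝ) (n : ℕ) (f : α → Multiset V → ℝ) :
    M w n (fun X => ∑ i ∈ s, f i X) = ∑ i ∈ s, M w n (f i) := by
  classical
  induction s using Finset.induction_on with
  | empty => simp [M_zero_fun]
  | insert a s ha ih =>
    rw [Finset.sum_insert ha, ← ih, ← M_add_fun]
    exact M_congr w n fun X _ => Finset.sum_insert ha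

theorem M_add (w : V → ℝ) (a b : ℕ) (f : Multiset V → ℝ) :
    M w (a + b) f = M w a (fun X => M w b (fun Y => f (X + Y))) := by
  induction a generalizing f with
  | zero =>
    rw [Nat.zero_add, M_zero]
    exact M_congr w b fun X _ => by rw [zero_add]
  | succ a ih =>
    have : a + 1 + b = (a + b) + 1 := by omega
    rw [this, M_succ, M_succ]
    refine Finset.sum_congr rfl fun x _ => ?_
    rw [ih]
    congr 1
    refine M_congr w a fun X _ => M_congr w b fun Y _ => ?_
    rw [Multiset.cons_add]

theorem M_comm (w : V → ℝ) (a b : ℕ) (f : Multiset V → Multiset V → ℝ) :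
    M w a (fun X => M w b (fun Y => f X Y)) = M w b (fun Y => M w a (fun X => f X Y)) := by
  induction a generalizing f with
  | zero => rfl
  | succ a ih =>
    rw [M_succ]
    have h : ∀ Y : Multiset V, M w (a + 1) (fun X => f X Y) =
        ∑ x, w x * M w a (fun X => f (x ::ₘ X) Y) := fun Y => rfl
    simp only [h]
    rw [M_sum]
    refine Finset.sum_congr rfl fun x _ => ?_
    rw [ih, M_mul_left]

theorem M_swap_sum (w : V → ℝ) (b : ℕ) (f : V → Multiset V → ℝ) :
    ∑ x, w x * M w b (fun Y => f x Y) = M w b (fun Y => ∑ x, w x * f x Y) := by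
  rw [M_sum]
  exact Finset.sum_congr rfl fun x _ => (M_mul_left w b _ _).symm

/-- the average over the splittings `J = A + R` with `A` of size `a` -/
theorem M_pc (w : V → ℝ) (n a : ℕ) (h : Multiset V → Multiset V → ℝ) :
    M w n (fun J => ((J.powersetCard a).map (fun A => h A (J - A))).sum) =
      (n.choose a : ℝ) * M w a (fun A => M w (n - a) (fun R => h A R)) := by
  induction n generalizing a h with
  | zero =>
    cases a with
    | zero => simp [M_zero]
    | succ a => simp [M_zero, Multiset.powersetCard_zero_right]
  | succ n ih =>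
    cases a with
    | zero =>
      simp only [Multiset.powersetCard_zero_left, Multiset.map_singleton, Multiset.sum_singleton,
        Nat.choose_zero_right, Nat.cast_one, one_mul, M_zero, Nat.sub_zero, Multiset.sub_zero]
    | succ a =>
      rw [M_succ]
      have h1 : ∀ (x : V) (J : Multiset V),
          (((x ::ₘ J).powersetCard (a + 1)).map (fun A => h A ((x ::ₘ J) - A))).sum =
          ((J.powersetCard (a + 1)).map (fun A => h A (x ::ₘ (J - A)))).sum +
          ((J.powersetCard a).map (fun A => h (x ::ₘ A) (J - A))).sum := by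
        intro x J
        rw [Multiset.powersetCard_cons, Multiset.map_add, Multiset.sum_add]
        congr 1
        · congr 1
          refine Multiset.map_congr rfl fun A hA => ?_
          have hAJ : A ≤ J := (Multiset.mem_powersetCard.mp hA).1
          rw [Multiset.cons_sub_of_le x hAJ]
        · rw [Multiset.map_map]
          congr 1
          refine Multiset.map_congr rfl fun A _ => ?_
          simp only [Function.comp]
          rw [Multiset.sub_cons, Multiset.erase_cons_head]
      simp only [h1, M_add_fun, mul_add, Finset.sum_add_distrib]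
      have e1 : ∀ x : V, M w n (fun J => ((J.powersetCard (a + 1)).map
          (fun A => h A (x ::ₘ (J - A)))).sum) =
          (n.choose (a + 1) : ℝ) * M w (a + 1) (fun A => M w (n - (a + 1))
            (fun R => h A (x ::ₘ R))) := fun x => ih (a + 1) (fun A R => h A (x ::ₘ R))
      have e2 : ∀ x : V, M w n (fun J => ((J.powersetCard a).map
          (fun A => h (x ::ₘ A) (J - A))).sum) =
          (n.choose a : ℝ) * M w a (fun A => M w (n - a) (fun R => h (x ::ₘ A) R)) :=
        fun x => ih a (fun A R => h (x ::ₘ A) R)
      simp only [e1, e2]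
      have hs : n + 1 - (a + 1) = n - a := by omega
      rw [hs]
      have e3 : ∑ x, w x * ((n.choose a : ℝ) * M w a (fun A => M w (n - a)
          (fun R => h (x ::ₘ A) R))) = (n.choose a : ℝ) * M w (a + 1)
            (fun A => M w (n - a) (fun R => h A R)) := by
        rw [M_succ, Finset.mul_sum]
        exact Finset.sum_congr rfl fun x _ => by ring
      rw [e3]
      have e4 : ∑ x, w x * ((n.choose (a + 1) : ℝ) * M w (a + 1) (fun A => M w (n - (a + 1))
            (fun R => h A (x ::ₘ R)))) = (n.choose (a + 1) : ℝ) * M w (a + 1)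
            (fun A => M w (n - a) (fun R => h A R)) := by
        by_cases hna : a + 1 ≤ n
        · have hs2 : n - a = (n - (a + 1)) + 1 := by omega
          rw [hs2]
          have e5 : ∀ A : Multiset V, M w (n - (a + 1) + 1) (fun R => h A R) =
              ∑ x, w x * M w (n - (a + 1)) (fun R => h A (x ::ₘ R)) := fun A => rfl
          simp only [e5]
          rw [← M_swap_sum, Finset.mul_sum]
          exact Finset.sum_congr rfl fun x _ => by ring
        · have : n.choose (a + 1) = 0 := Nat.choose_eq_zero_of_lt (by omega)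
          simp [this]
      rw [e4, Nat.choose_succ_succ]
      push_cast
      ring

theorem M_pc' (w : V → ℝ) (hw1 : ∑ x, w x = 1) (n a : ℕ) (h : Multiset V → ℝ) :
    M w n (fun J => ((J.powersetCard a).map h).sum) = (n.choose a : ℝ) * M w a h := by
  have := M_pc w n a (fun A _ => h A)
  rw [this]
  congr 1
  exact M_congr w a fun A _ => M_const w hw1 _ _

/-- Cauchy–Schwarz -/
theorem M_cs (w : V → ℝ) (hw : ∀ x, 0 ≤ w x) (n : ℕ) (p g : Multiset V → ℝ)
    (hp : ∀ J, 0 ≤ p J) :
    (M w n (fun J => p J * g J)) ^ 2 ≤ M w n p * M w n (fun J => p J * (g J) ^ 2) := by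
  have key : ∀ s : ℝ, 0 ≤ s ^ 2 * M w n p + 2 * s * M w n (fun J => p J * g J) +
      M w n (fun J => p J * (g J) ^ 2) := by
    intro s
    have h : s ^ 2 * M w n p + 2 * s * M w n (fun J => p J * g J) +
      M w n (fun J => p J * (g J) ^ 2) = M w n (fun J => p J * (s + g J) ^ 2) := by
      rw [← M_mul_left, ← M_mul_left, ← M_add_fun, ← M_add_fun]
      exact M_congr w n fun J _ => by ring
    rw [h]
    exact M_nonneg w hw n fun J _ => mul_nonneg (hp J) (sq_nonneg _)
  set a := M w n p
  set b := M w n (fun J => p J * g J)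
  set c := M w n (fun J => p J * (g J) ^ 2)
  have ha : 0 ≤ a := M_nonneg w hw n fun J _ => hp J
  have hc : 0 ≤ c := M_nonneg w hw n fun J _ => mul_nonneg (hp J) (sq_nonneg _)
  rcases ha.eq_or_lt with h0 | h0
  · have hb : b = 0 := by
      by_contra hb
      have h1 := key (-(c + 1) / (2 * b))
      rw [← h0] at h1
      have h2 : 2 * (-(c + 1) / (2 * b)) * b = -(c + 1) := by field_simp
      rw [h2] at h1
      linarith
    rw [hb, ← h0]; simp
  · have h1 := key (-b / a)
    have h2 : (-b / a) ^ 2 * a + 2 * (-b / a) * b + c = c - b ^ 2 / a := by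
      field_simp
      ring
    rw [h2] at h1
    have h3 : b ^ 2 / a ≤ c := by linarith
    rw [div_le_iff₀ h0] at h3
    linarith

/-- subsets of a sum -/
theorem pc_add (A R : Multiset V) (r : ℕ) (f : Multiset V → ℝ) :
    (((A + R).powersetCard r).map f).sum = ∑ i ∈ range (r + 1),
      ((A.powersetCard i).map (fun S => ((R.powersetCard (r - i)).map
        (fun S' => f (S + S'))).sum)).sum := by
  induction A using Multiset.induction_on generalizing r f with
  | empty =>
    rw [zero_add, Finset.sum_eq_single 0]
    · simp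
    · intro i _ hi
      obtain ⟨j, rfl⟩ := Nat.exists_eq_succ_of_ne_zero hi
      simp [Multiset.powersetCard_zero_right]
    · simp
  | cons a A ih =>
    cases r with
    | zero => simp
    | succ r =>
      rw [Multiset.cons_add, Multiset.powersetCard_cons, Multiset.map_add, Multiset.sum_add,
        Multiset.map_map]
      rw [ih (r + 1) f]
      have h2 := ih r (f ∘ Multiset.cons a)
      rw [h2]
      rw [Finset.sum_range_succ' _ (r + 1), Finset.sum_range_succ' _ (r + 1)]
      have h3 : ∀ i : ℕ, (((a ::ₘ A).powersetCard (i + 1)).map (fun S =>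
          ((R.powersetCard (r + 1 - (i + 1))).map (fun S' => f (S + S'))).sum)).sum =
          ((A.powersetCard (i + 1)).map (fun S =>
          ((R.powersetCard (r + 1 - (i + 1))).map (fun S' => f (S + S'))).sum)).sum +
          ((A.powersetCard i).map (fun S => ((R.powersetCard (r - i)).map
            (fun S' => (f ∘ Multiset.cons a) (S + S'))).sum)).sum := by
        intro i
        rw [Multiset.powersetCard_cons, Multiset.map_add, Multiset.sum_add, Multiset.map_map]
        have : r + 1 - (i + 1) = r - i := by omega
        rw [this]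
        simp only [Function.comp, Multiset.cons_add]
      simp only [h3]
      rw [Finset.sum_add_distrib]
      simp only [Multiset.powersetCard_zero_left]
      ring

end

end Pool.Agent.H123R2.Gen
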