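import Pool.Agent.H123R2.Gen.Stubs

set_option autoImplicit false
set_option linter.unusedSectionVars false
set_option linter.unusedVariables false

namespace Pool.Agent.H123R2.Gen.NS

open Finset

section
variable {V : Type} [Fintype V] [DecidableEq V]

theorem nearly {w : V → ℝ} {F : Multiset V → Prop} {t : ℕ} {d : ℝ} (hS : Sys w F t d)
    (K m : ℕ) (hK : 0 < Q w F t K 0) (hK1 : Q w F t (K + 1) 0 = 0) (hm : m + (t - 1) ≤ K)
    (ε v : ℝ) (hε : 0 ≤ ε) (hdK : (K.choose (t - 1) : ℝ) * d ≤ 1 + ε)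
    (hv : ((m + (t - 1)).choose (t - 1) : ℝ) * d ≤ v) (hv1 : v < 1) :
    EA w F t (fun _ A => Q w F t m 0 - Q w F t m A) ≤ (((t : ℝ) - 1) * v + ε) * d * Q w F t m 0 := by
  have ht := hS.ht
  have hd : 0 ≤ d := d_nonneg hS
  have h1 := chain_lower hS K hK hK1 (m + (t - 1)) (by omega) hm
  have h2 := incr_le hS (m + (t - 1))
  rw [Nat.add_sub_cancel] at h2
  set E := EA w F t (fun _ A => Q w F t m A) with hE
  set q := Q w F t m 0 with hq
  set q' := Q w F t (m + (t - 1)) 0 with hq'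
  set CM : ℝ := ((m + (t - 1)).choose (t - 1) : ℝ) with hCM
  set CK : ℝ := (K.choose (t - 1) : ℝ) with hCK
  have hCM0 : 0 < CM := by
    rw [hCM]
    exact_mod_cast Nat.choose_pos (by omega)
  have hCK0 : 0 ≤ CK := by rw [hCK]; positivity
  have hq0 : 0 ≤ q := Q_nonneg w hS.w0 F t m 0
  have hE0 : 0 ≤ E := by
    rw [hE]
    unfold EA
    refine Finset.sum_nonneg fun x _ => mul_nonneg (hS.w0 x) (M_nonneg w hS.w0 _ fun A _ => ?_)
    exact mul_nonneg (ind_nonneg _) (Q_nonneg w hS.w0 F t m A)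
  have h3 : q' ≤ CK * E := by
    have h4 : CM * q' ≤ CM * (CK * E) := by
      calc CM * q' ≤ CK * (q' - Q w F t (m + (t - 1) + 1) 0) := h1
        _ ≤ CK * (CM * E) := mul_le_mul_of_nonneg_left h2 hCK0
        _ = CM * (CK * E) := by ring
    exact le_of_mul_le_mul_left h4 hCM0
  have h5 := boot_add hS (m + (t - 1)) (lt_of_le_of_lt hv hv1) m (t - 1) (by omega)
  have ht1 : ((t - 1 : ℕ) : ℝ) = (t : ℝ) - 1 := by
    rw [Nat.cast_sub (by omega)]
    simp
  rw [ht1] at h5
  have htr : (3 : ℝ) ≤ t := by exact_mod_cast ht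
  have hv0 : 0 ≤ v := le_trans (by positivity) hv
  have h6 : (1 - ((t : ℝ) - 1) * v) * q ≤ q' := by
    refine le_trans ?_ h5
    apply mul_le_mul_of_nonneg_right _ hq0
    have : ((t : ℝ) - 1) * (CM * d) ≤ ((t : ℝ) - 1) * v :=
      mul_le_mul_of_nonneg_left hv (by linarith)
    linarith
  have h7 : d * ((1 - ((t : ℝ) - 1) * v) * q) ≤ (1 + ε) * E := by
    calc d * ((1 - ((t : ℝ) - 1) * v) * q) ≤ d * (CK * E) :=
          mul_le_mul_of_nonneg_left (h6.trans h3) hd
      _ = (CK * d) * E := by ring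
      _ ≤ (1 + ε) * E := mul_le_mul_of_nonneg_right hdK hE0
  have h8 : EA w F t (fun _ A => q - Q w F t m A) = q * d - E := by
    rw [← EA_const hS q, hE]
    unfold EA
    rw [← Finset.sum_sub_distrib]
    refine Finset.sum_congr rfl fun x _ => ?_
    rw [← mul_sub, ← M_sub_fun]
    congr 1
    refine M_congr w _ fun A _ => ?_
    ring
  rw [h8]
  set a : ℝ := ((t : ℝ) - 1) * v with ha
  have ha0 : 0 ≤ a := by rw [ha]; apply mul_nonneg _ hv0; linarith
  have hdq : 0 ≤ d * q := mul_nonneg hd hq0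
  have h9 : 0 ≤ (1 + ε) * (E - d * q * (1 - a - ε)) := by
    have e1 : (1 + ε) * (E - d * q * (1 - a - ε)) =
        ((1 + ε) * E - d * ((1 - a) * q)) + d * q * (a * ε + ε ^ 2) := by ring
    rw [e1]
    have : 0 ≤ d * q * (a * ε + ε ^ 2) := by positivity
    linarith
  have h10 : 0 ≤ E - d * q * (1 - a - ε) := by
    by_contra hcon
    push Not at hcon
    have : (1 + ε) * (E - d * q * (1 - a - ε)) < 0 := mul_neg_of_pos_of_neg (by linarith) hcon
    linarith
  nlinarith

end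

end Pool.Agent.H123R2.Gen.NS
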