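import Pool.Agent.H123R2.Gen.Stubs

set_option autoImplicit false
set_option linter.unusedSectionVars false
set_option linter.unusedVariables false

namespace Pool.Agent.H123R2.Gen.PA

open Finset

section
variable {V : Type} [Fintype V] [DecidableEq V]

/-! ### counting lemma -/

private theorem pa_ind_cons (p : V → Prop) (a : V) (Z : Multiset V) :
    ind (∀ y ∈ a ::ₘ Z, p y) = ind (p a) * ind (∀ y ∈ Z, p y) := by
  rw [← ind_and]
  exact ind_congr (by simp)

private theorem pa_sum_one (p : V → Prop) (A : Multiset V) :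
    ((A.powersetCard 1).map (fun Z => ind (∀ y ∈ Z, p y))).sum = (A.map (fun y => ind (p y))).sum := by
  rw [Multiset.powersetCard_one, Multiset.map_map]
  congr 1
  refine Multiset.map_congr rfl fun y _ => ?_
  simp only [Function.comp]
  exact ind_congr (by simp)

private theorem pa_sum_two (p : V → Prop) (A : Multiset V) :
    ((A.powersetCard 2).map (fun Z => ind (∀ y ∈ Z, p y))).sum =
      (A.map (fun y => ind (p y))).sum * ((A.map (fun y => ind (p y))).sum - 1) / 2 := by
  induction A using Multiset.induction_on with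
  | empty => simp [Multiset.powersetCard_zero_right]
  | cons a A ih =>
    rw [Multiset.powersetCard_cons, Multiset.map_add, Multiset.sum_add, ih, Multiset.map_map]
    have h1 : ((A.powersetCard 1).map ((fun Z => ind (∀ y ∈ Z, p y)) ∘ Multiset.cons a)).sum =
        ind (p a) * (A.map (fun y => ind (p y))).sum := by
      rw [← pa_sum_one, ← Multiset.sum_map_mul_left]
      congr 1
      refine Multiset.map_congr rfl fun Z _ => ?_
      simp only [Function.comp]
      exact pa_ind_cons p a Z
    rw [h1, Multiset.map_cons, Multiset.sum_cons]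
    have h2 : ind (p a) * ind (p a) = ind (p a) := by
      rw [← ind_and]
      exact ind_congr (by simp)
    nlinarith [h2]

private theorem pa_sum_nat (p : V → Prop) (A : Multiset V) :
    ∃ b : ℕ, (A.map (fun y => ind (p y))).sum = (b : ℝ) ∧ (b = 0 → ∀ y ∈ A, ¬ p y) := by
  induction A using Multiset.induction_on with
  | empty => exact ⟨0, by simp⟩
  | cons a A ih =>
    obtain ⟨b, hb, hb0⟩ := ih
    rw [Multiset.map_cons, Multiset.sum_cons, hb]
    by_cases hp : p a
    · refine ⟨b + 1, ?_, ?_⟩
      · rw [ind_true hp]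
        push_cast
        ring
      · intro h
        omega
    · refine ⟨b, ?_, ?_⟩
      · rw [ind_false hp]
        ring
      · intro h y hy
        rcases Multiset.mem_cons.mp hy with rfl | hy
        · exact hp
        · exact hb0 h y hy

/-- Bonferroni, pointwise -/
private theorem pa_bonf (F : Multiset V → Prop) (t : ℕ) (A J : Multiset V) :
    ind (Indep F t (A + J)) ≤ ind (Indep F t J) -
      ((A.powersetCard 1).map (fun P => ind (Indep F t J ∧ ∀ y ∈ P, ¬ Indep F t (y ::ₘ J)))).sum +
      ((A.powersetCard 2).map (fun P => ind (Indep F t J ∧ ∀ y ∈ P, ¬ Indep F t (y ::ₘ J)))).sum := by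
  by_cases hJ : Indep F t J
  · have e : ∀ s : ℕ, ((A.powersetCard s).map
        (fun P => ind (Indep F t J ∧ ∀ y ∈ P, ¬ Indep F t (y ::ₘ J)))).sum =
        ((A.powersetCard s).map (fun P => ind (∀ y ∈ P, ¬ Indep F t (y ::ₘ J)))).sum := by
      intro s
      congr 1
      refine Multiset.map_congr rfl fun P _ => ?_
      exact ind_congr (by simp [hJ])
    rw [e 1, e 2, pa_sum_one, pa_sum_two, ind_true hJ]
    obtain ⟨b, hb, hb0⟩ := pa_sum_nat (fun y => ¬ Indep F t (y ::ₘ J)) A
    rw [hb]
    rcases Nat.eq_zero_or_pos b with h0 | h0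
    · subst h0
      have := ind_le_one (Indep F t (A + J))
      push_cast
      linarith
    · have hbad : ¬ Indep F t (A + J) := by
        intro hAJ
        have hne : ∃ y ∈ A, ¬ Indep F t (y ::ₘ J) := by
          by_contra hcon
          push Not at hcon
          have hz : (A.map (fun y => ind (¬ Indep F t (y ::ₘ J)))).sum = 0 := by
            have : A.map (fun y => ind (¬ Indep F t (y ::ₘ J))) = A.map (fun _ => (0 : ℝ)) :=
              Multiset.map_congr rfl fun y hy => ind_false (by simpa using hcon y hy)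
            rw [this]
            simp
          rw [hz] at hb
          have : (b : ℝ) = 0 := hb.symm
          have hb' : b = 0 := by exact_mod_cast this
          omega
        obtain ⟨y, hyA, hy⟩ := hne
        apply hy
        refine Indep_mono ?_ hAJ
        have h1 : ({y} : Multiset V) ≤ A := Multiset.singleton_le.mpr hyA
        calc y ::ₘ J = {y} + J := (Multiset.singleton_add y J).symm
          _ ≤ A + J := Multiset.add_le_add_right h1
      rw [ind_false hbad]
      have hb1 : (1 : ℝ) ≤ b := by exact_mod_cast h0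
      rcases Nat.lt_or_ge b 2 with h2 | h2
      · have : b = 1 := by omega
        subst this
        norm_num
      · have hb2 : (2 : ℝ) ≤ b := by exact_mod_cast h2
        nlinarith
  · have h1 : ¬ Indep F t (A + J) := fun h => hJ (Indep_mono (by
      exact Multiset.le_add_left J A) h)
    have e : ∀ s : ℕ, ((A.powersetCard s).map
        (fun P => ind (Indep F t J ∧ ∀ y ∈ P, ¬ Indep F t (y ::ₘ J)))).sum = 0 := by
      intro s
      have : (A.powersetCard s).map
        (fun P => ind (Indep F t J ∧ ∀ y ∈ P, ¬ Indep F t (y ::ₘ J))) =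
          (A.powersetCard s).map (fun _ => (0 : ℝ)) :=
        Multiset.map_congr rfl fun P _ => ind_false (by simp [hJ])
      rw [this]
      simp
    rw [e 1, e 2, ind_false h1, ind_false hJ]
    norm_num

private theorem pa_M_map_sum (w : V → ℝ) (m : ℕ) (S : Multiset (Multiset V))
    (g : Multiset V → Multiset V → ℝ) :
    M w m (fun J => (S.map (fun P => g P J)).sum) = (S.map (fun P => M w m (g P))).sum := by
  induction S using Multiset.induction_on with
  | empty => simp [M_zero_fun]
  | cons a S ih =>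
    simp only [Multiset.map_cons, Multiset.sum_cons]
    rw [M_add_fun, ih]

private theorem pa_EA_add (w : V → ℝ) (F : Multiset V → Prop) (t : ℕ)
    (g h : V → Multiset V → ℝ) :
    EA w F t (fun x A => g x A + h x A) = EA w F t g + EA w F t h := by
  unfold EA
  rw [← Finset.sum_add_distrib]
  refine Finset.sum_congr rfl fun x _ => ?_
  rw [← mul_add, ← M_add_fun]
  congr 1
  exact M_congr w _ fun A _ => by ring

private theorem pa_EA_sub (w : V → ℝ) (F : Multiset V → Prop) (t : ℕ)
    (g h : V → Multiset V → ℝ) :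
    EA w F t (fun x A => g x A - h x A) = EA w F t g - EA w F t h := by
  unfold EA
  rw [← Finset.sum_sub_distrib]
  refine Finset.sum_congr rfl fun x _ => ?_
  rw [← mul_sub, ← M_sub_fun]
  congr 1
  exact M_congr w _ fun A _ => by ring

theorem partA {w : V → ℝ} {F : Multiset V → Prop} {t : ℕ} {d : ℝ} (hS : Sys w F t d) (m : ℕ) :
    EA w F t (fun _ A => Q w F t m A) ≤
      d * Q w F t m 0 - ((t : ℝ) - 1) * d * (Q w F t m 0 - Q w F t (m + 1) 0) +
        ((t - 1).choose 2 : ℝ) * M w 2 (fun P => B2 w F t m P * cd w F t P) := by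
  have ht := hS.ht
  have step : EA w F t (fun _ A => Q w F t m A) ≤ EA w F t (fun _ A => Q w F t m 0 -
      ((A.powersetCard 1).map (fun P => B2 w F t m P)).sum +
      ((A.powersetCard 2).map (fun P => B2 w F t m P)).sum) := by
    refine EA_mono w hS.w0 F t fun x A _ _ => ?_
    have h1 : Q w F t m 0 - ((A.powersetCard 1).map (fun P => B2 w F t m P)).sum +
      ((A.powersetCard 2).map (fun P => B2 w F t m P)).sum =
      M w m (fun J => ind (Indep F t J) -
      ((A.powersetCard 1).map (fun P => ind (Indep F t J ∧ ∀ y ∈ P, ¬ Indep F t (y ::ₘ J)))).sum +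
      ((A.powersetCard 2).map (fun P => ind (Indep F t J ∧ ∀ y ∈ P, ¬ Indep F t (y ::ₘ J)))).sum) := by
      rw [M_add_fun, M_sub_fun, pa_M_map_sum w m (A.powersetCard 1)
        (fun P J => ind (Indep F t J ∧ ∀ y ∈ P, ¬ Indep F t (y ::ₘ J))),
        pa_M_map_sum w m (A.powersetCard 2)
        (fun P J => ind (Indep F t J ∧ ∀ y ∈ P, ¬ Indep F t (y ::ₘ J)))]
      unfold Q B2
      simp only [zero_add]
    rw [h1]
    unfold Q
    exact M_mono w hS.w0 m fun J _ => pa_bonf F t A J
  refine step.trans (le_of_eq ?_)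
  rw [pa_EA_add, pa_EA_sub, EA_const hS, EA_pc w F t (by omega) 1 (by omega),
    EA_pc w F t (by omega) 2 (by omega)]
  have h2 : M w 1 (fun T => B2 w F t m T * cd w F t T) =
      d * (Q w F t m 0 - Q w F t (m + 1) 0) := by
    rw [← incr w hS.w1 F t m, M_succ, Finset.mul_sum]
    refine Finset.sum_congr rfl fun x _ => ?_
    rw [M_zero]
    have e1 : x ::ₘ (0 : Multiset V) = {x} := rfl
    rw [e1, hS.reg x]
    have e2 : B2 w F t m {x} = M w m (fun J => ind (Indep F t J ∧ ¬ Indep F t (x ::ₘ J))) := by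
      unfold B2
      exact M_congr w m fun J _ => ind_congr (by simp)
    rw [e2]
    ring
  rw [h2, Nat.choose_one_right]
  have h3 : ((t - 1 : ℕ) : ℝ) = (t : ℝ) - 1 := by
    rw [Nat.cast_sub (by omega)]
    simp
  rw [h3]
  ring

/-- the number of blocking sets -/
private theorem pa_count_one {F : Multiset V → Prop} {t : ℕ} (ht : 1 ≤ t) {J : Multiset V} {x : V}
    (h : Indep F t J ∧ ¬ Indep F t (x ::ₘ J)) :
    1 ≤ ((J.powersetCard (t - 1)).map (fun A => ind (F (x ::ₘ A)))).sum := by
  obtain ⟨A, hA, hc, hF⟩ := block1 ht h.1 h.2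
  have := pc_ge_of_mem hA (fun A => ind (F (x ::ₘ A))) (fun Z => ind_nonneg _)
  rw [hc] at this
  simp only [ind_true hF] at this
  exact this

private theorem pa_count_nonneg {F : Multiset V → Prop} {t : ℕ} {J : Multiset V} {x : V} :
    0 ≤ ((J.powersetCard (t - 1)).map (fun A => ind (F (x ::ₘ A)))).sum := by
  apply Multiset.sum_nonneg
  intro r hr
  obtain ⟨A, _, rfl⟩ := Multiset.mem_map.mp hr
  exact ind_nonneg _

private theorem pa_count_two {F : Multiset V → Prop} {t : ℕ} (ht : 2 ≤ t) {J A A' : Multiset V} {x : V}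
    (hA : A.card = t - 1) (hA' : A'.card = t - 1) (h : A + A' ≤ J) (hF : F (x ::ₘ A))
    (hF' : F (x ::ₘ A')) :
    2 ≤ ((J.powersetCard (t - 1)).map (fun A => ind (F (x ::ₘ A)))).sum := by
  have hAJ : A ≤ J := (Multiset.le_add_right A A').trans h
  obtain ⟨R, rfl⟩ := Multiset.le_iff_exists_add.mp hAJ
  have hR : A' ≤ R := by
    rwa [Multiset.add_le_add_iff_left] at h
  rw [pc_add]
  have hnn : ∀ i ∈ range (t - 1 + 1), 0 ≤ ((A.powersetCard i).map (fun S =>
      ((R.powersetCard (t - 1 - i)).map (fun S' => ind (F (x ::ₘ (S + S'))))).sum)).sum := by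
    intro i _
    apply Multiset.sum_nonneg
    intro r hr
    obtain ⟨B, _, rfl⟩ := Multiset.mem_map.mp hr
    apply Multiset.sum_nonneg
    intro r hr
    obtain ⟨B', _, rfl⟩ := Multiset.mem_map.mp hr
    exact ind_nonneg _
  have hsub : ({0, t - 1} : Finset ℕ) ⊆ range (t - 1 + 1) := by
    intro i hi
    simp only [Finset.mem_insert, Finset.mem_singleton] at hi
    rw [Finset.mem_range]
    omega
  have h1 := Finset.sum_le_sum_of_subset_of_nonneg hsub (fun i hi _ => hnn i hi)
  refine le_trans ?_ h1
  rw [Finset.sum_pair (by omega)]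
  have e0 : 1 ≤ ((A.powersetCard 0).map (fun S =>
      ((R.powersetCard (t - 1 - 0)).map (fun S' => ind (F (x ::ₘ (S + S'))))).sum)).sum := by
    simp only [Multiset.powersetCard_zero_left, Multiset.map_singleton, Multiset.sum_singleton,
      zero_add, Nat.sub_zero]
    have := pc_ge_of_mem hR (fun A => ind (F (x ::ₘ A))) (fun Z => ind_nonneg _)
    rw [hA'] at this
    simp only [ind_true hF'] at this
    exact this
  have e1 : 1 ≤ ((A.powersetCard (t - 1)).map (fun S =>
      ((R.powersetCard (t - 1 - (t - 1))).map (fun S' => ind (F (x ::ₘ (S + S'))))).sum)).sum := by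
    simp only [Nat.sub_self, Multiset.powersetCard_zero_left, Multiset.map_singleton,
      Multiset.sum_singleton, add_zero]
    have := pc_ge_of_mem (le_refl A) (fun A => ind (F (x ::ₘ A))) (fun Z => ind_nonneg _)
    rw [hA] at this
    simp only [ind_true hF] at this
    exact this
  linarith

private theorem pa_EA_count (w : V → ℝ) (F : Multiset V → Prop) (t m : ℕ) :
    ∑ x, w x * M w m (fun J => ind (Indep F t J) *
      ((J.powersetCard (t - 1)).map (fun A => ind (F (x ::ₘ A)))).sum) =
    (m.choose (t - 1) : ℝ) * EA w F t (fun _ A => Q w F t (m - (t - 1)) A) := by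
  unfold EA
  rw [Finset.mul_sum]
  refine Finset.sum_congr rfl fun x _ => ?_
  rw [marg w F t m (t - 1) (fun A => ind (F (x ::ₘ A)))]
  ring

theorem incr_le {w : V → ℝ} {F : Multiset V → Prop} {t : ℕ} {d : ℝ} (hS : Sys w F t d)
    (m : ℕ) :
    Q w F t m 0 - Q w F t (m + 1) 0 ≤
      (m.choose (t - 1) : ℝ) * EA w F t (fun _ A => Q w F t (m - (t - 1)) A) := by
  have ht := hS.ht
  rw [← incr w hS.w1 F t m, ← pa_EA_count]
  refine Finset.sum_le_sum fun x _ => mul_le_mul_of_nonneg_left ?_ (hS.w0 x)
  refine M_mono w hS.w0 m fun J _ => ?_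
  by_cases h : Indep F t J ∧ ¬ Indep F t (x ::ₘ J)
  · rw [ind_true h, ind_true h.1, one_mul]
    exact pa_count_one (by omega) h
  · rw [ind_false h]
    exact mul_nonneg (ind_nonneg _) pa_count_nonneg

theorem incr_upper {w : V → ℝ} {F : Multiset V → Prop} {t : ℕ} {d : ℝ} (hS : Sys w F t d)
    (η : ℝ) (m₂ m : ℕ) :
    Q w F t m 0 - Q w F t (m + 1) 0 ≤
      (m.choose (t - 1) : ℝ) * EA w F t (fun _ A => Q w F t (m - (t - 1)) A) -
      ∑ x, w x * M w m (fun J => ind (Indep F t J ∧
        ∃ R : Multiset V, R ≤ J ∧ R.card = 2 * (t - 1) ∧ LL w F t η m₂ m x R)) := by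
  have ht := hS.ht
  rw [← incr w hS.w1 F t m, ← pa_EA_count, ← Finset.sum_sub_distrib]
  refine Finset.sum_le_sum fun x _ => ?_
  rw [← mul_sub, ← M_sub_fun]
  refine mul_le_mul_of_nonneg_left ?_ (hS.w0 x)
  refine M_mono w hS.w0 m fun J _ => ?_
  by_cases hJ : Indep F t J
  · by_cases hR : ∃ R : Multiset V, R ≤ J ∧ R.card = 2 * (t - 1) ∧ LL w F t η m₂ m x R
    · rw [ind_true (p := Indep F t J ∧ _) ⟨hJ, hR⟩, ind_true hJ, one_mul]
      obtain ⟨R, hRJ, hRc, ⟨A, A', hA, hA', hRA, hg, hg'⟩, _⟩ := hR
      have h2 := pa_count_two (F := F) (t := t) (x := x) (by omega) hA hA' (hRA ▸ hRJ) hg.1 hg'.1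
      have h3 := ind_le_one (Indep F t J ∧ ¬ Indep F t (x ::ₘ J))
      linarith
    · have : ¬ (Indep F t J ∧ ∃ R : Multiset V, R ≤ J ∧ R.card = 2 * (t - 1) ∧
        LL w F t η m₂ m x R) := fun h => hR h.2
      rw [ind_false this, sub_zero, ind_true hJ, one_mul]
      by_cases h : Indep F t J ∧ ¬ Indep F t (x ::ₘ J)
      · rw [ind_true h]
        exact pa_count_one (by omega) h
      · rw [ind_false h]
        exact pa_count_nonneg
  · have h1 : ¬ (Indep F t J ∧ ¬ Indep F t (x ::ₘ J)) := fun h => hJ h.1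
    have h2 : ¬ (Indep F t J ∧ ∃ R : Multiset V, R ≤ J ∧ R.card = 2 * (t - 1) ∧
        LL w F t η m₂ m x R) := fun h => hJ h.1
    rw [ind_false h1, ind_false h2, ind_false hJ]
    norm_num

end

end Pool.Agent.H123R2.Gen.PA
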