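import Pool.Agent.H123R2.Gen.Stubs

set_option autoImplicit false
set_option linter.unusedSectionVars false
set_option linter.unusedVariables false

namespace Pool.Agent.H123R2.Gen.QX

open Finset

section
variable {V : Type} [Fintype V] [DecidableEq V]

private theorem M_msum {α : Type} (S : Multiset α) (w : V → ℝ) (n : ℕ) (f : α → Multiset V → ℝ) :
    M w n (fun J => (S.map (fun T => f T J)).sum) = (S.map (fun T => M w n (f T))).sum := by
  induction S using Multiset.induction_on with
  | empty => simp [M_zero_fun]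
  | cons a S ih =>
    simp only [Multiset.map_cons, Multiset.sum_cons]
    rw [M_add_fun, ih]

theorem Q_loss {w : V → ℝ} {F : Multiset V → Prop} {t : ℕ} {d : ℝ} (hS : Sys w F t d)
    (m : ℕ) (hm : t ≤ m) (hq : ∀ b : ℕ, b ≤ 2 * t → Q w F t (m - b) 0 ≤ 2 * Q w F t m 0)
    (X : Multiset V) :
    Q w F t m 0 - Q w F t m X ≤ 2 * Q w F t m 0 *
      ∑ s ∈ Finset.Icc 1 t, (m.choose (t - s) : ℝ) *
        ((X.powersetCard s).map (fun T => cd w F t T)).sum := by
  have hw := hS.w0
  have hmsn : ∀ (S : Multiset (Multiset V)) (g : Multiset V → ℝ), (∀ T, 0 ≤ g T) →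
      0 ≤ (S.map g).sum := by
    intro S g hg
    exact Multiset.sum_nonneg (by
      intro y hy
      obtain ⟨T, _, rfl⟩ := Multiset.mem_map.1 hy
      exact hg T)
  -- the pointwise bound
  have h1 : Q w F t m 0 - Q w F t m X ≤ M w m (fun J => ∑ s ∈ Finset.Icc 1 t,
      ((X.powersetCard s).map (fun T => ind (Indep F t J) *
        ((J.powersetCard (t - s)).map (fun R => ind (F (T + R)))).sum)).sum) := by
    unfold Q
    rw [← M_sub_fun]
    refine M_mono w hw m fun J _ => ?_
    rw [zero_add]
    have hrhs : ∑ s ∈ Finset.Icc 1 t, ((X.powersetCard s).map (fun T => ind (Indep F t J) *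
        ((J.powersetCard (t - s)).map (fun R => ind (F (T + R)))).sum)).sum =
        ind (Indep F t J) * ∑ s ∈ Finset.Icc 1 t, ((X.powersetCard s).map (fun T =>
        ((J.powersetCard (t - s)).map (fun R => ind (F (T + R)))).sum)).sum := by
      rw [Finset.mul_sum]
      refine Finset.sum_congr rfl fun s _ => ?_
      rw [Multiset.sum_map_mul_left]
    rw [hrhs]
    by_cases hJ : Indep F t J
    · rw [ind_true hJ, one_mul]
      by_cases hXJ : Indep F t (X + J)
      · rw [ind_true hXJ, sub_self]
        refine Finset.sum_nonneg fun s _ => hmsn _ _ fun T => hmsn _ _ fun R => ind_nonneg _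
      · rw [ind_false hXJ, sub_zero]
        exact blockX hJ hXJ
    · have hXJ : ¬ Indep F t (X + J) := fun h => hJ (Indep_mono (Multiset.le_add_left J X) h)
      rw [ind_false hJ, ind_false hXJ]
      simp
  refine h1.trans ?_
  rw [M_sum, Finset.mul_sum]
  refine Finset.sum_le_sum fun s hs => ?_
  have hs1 := Finset.mem_Icc.1 hs
  rw [M_msum]
  have h2 : ∀ T ∈ X.powersetCard s, M w m (fun J => ind (Indep F t J) *
      ((J.powersetCard (t - s)).map (fun R => ind (F (T + R)))).sum) ≤
      2 * Q w F t m 0 * (m.choose (t - s) : ℝ) * cd w F t T := by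
    intro T hT
    have hTc : T.card = s := (Multiset.mem_powersetCard.1 hT).2
    rw [marg]
    have h3 : M w (t - s) (fun A => ind (F (T + A)) * Q w F t (m - (t - s)) A) ≤
        M w (t - s) (fun A => ind (F (T + A)) * (2 * Q w F t m 0)) := by
      refine M_mono w hw _ fun A _ => ?_
      refine mul_le_mul_of_nonneg_left ?_ (ind_nonneg _)
      exact (Q_anti w hw F t (m - (t - s)) (Multiset.zero_le A)).trans (hq (t - s) (by omega))
    rw [M_mul_right] at h3
    have h4 : M w (t - s) (fun A => ind (F (T + A))) = cd w F t T := by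
      unfold cd; rw [hTc]
    rw [h4] at h3
    have h5 : (0 : ℝ) ≤ (m.choose (t - s) : ℝ) := Nat.cast_nonneg _
    calc (m.choose (t - s) : ℝ) * M w (t - s) (fun A => ind (F (T + A)) * Q w F t (m - (t - s)) A)
        ≤ (m.choose (t - s) : ℝ) * (cd w F t T * (2 * Q w F t m 0)) :=
          mul_le_mul_of_nonneg_left h3 h5
      _ = _ := by ring
  have h6 : ((X.powersetCard s).map (fun T => M w m (fun J => ind (Indep F t J) *
      ((J.powersetCard (t - s)).map (fun R => ind (F (T + R)))).sum))).sum ≤
      ((X.powersetCard s).map (fun T => 2 * Q w F t m 0 * (m.choose (t - s) : ℝ) * cd w F t T)).sum :=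
    Multiset.sum_map_le_sum_map _ _ h2
  refine h6.trans (le_of_eq ?_)
  rw [Multiset.sum_map_mul_left]
  ring

end

end Pool.Agent.H123R2.Gen.QX
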