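import Pool.Agent.H123R2.Gen.Stubs

/-!
Optimal weights: regularity and reduction to the support.
-/

set_option autoImplicit false
set_option linter.unusedSectionVars false
set_option linter.unusedVariables false

namespace Pool.Agent.H123R2.Gen.RG

open Finset

variable {V : Type} [Fintype V] [DecidableEq V]

private theorem cont_M (n : ℕ) (f : Multiset V → ℝ) : Continuous fun u : V → ℝ => M u n f := by
  induction n generalizing f with
  | zero => exact continuous_const
  | succ n ih =>
    have h : (fun u : V → ℝ => M u (n + 1) f) =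
        fun u : V → ℝ => ∑ x, u x * M u n (fun X => f (x ::ₘ X)) := rfl
    rw [h]
    exact continuous_finsetSum _ fun x _ => (continuous_apply x).mul (ih _)

private theorem M_le_one' (w : V → ℝ) (hw : ∀ x, 0 ≤ w x) (hw1 : ∑ x, w x = 1) (n : ℕ)
    (f : Multiset V → ℝ) (hf : ∀ X, f X ≤ 1) : M w n f ≤ 1 := by
  have := M_mono w hw n (f := f) (g := fun _ => (1 : ℝ)) fun X _ => hf X
  rwa [M_const w hw1] at this

/-- moving a little weight to one vertex -/
private theorem move (w u : V → ℝ) (x : V) (s : ℝ) (hs0 : 0 ≤ s) (hs1 : s ≤ 1)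
    (hw : ∀ y, 0 ≤ w y) (hw1 : ∑ y, w y = 1)
    (hu : ∀ y, u y = (1 - s) * w y + s * (Pi.single x (1 : ℝ) : V → ℝ) y)
    (n : ℕ) (f : Multiset V → ℝ) (hf0 : ∀ X, 0 ≤ f X) (hf1 : ∀ X, f X ≤ 1) :
    M u n f ≤ (1 - n * s) * M w n f + n * s * M w (n - 1) (fun X => f (x ::ₘ X)) +
      (n : ℝ) ^ 2 * s ^ 2 := by
  induction n generalizing f with
  | zero => simp [M_zero]
  | succ n ih =>
    have h1 : ∀ g : V → ℝ, ∑ y, u y * g y = (1 - s) * ∑ y, w y * g y + s * g x := by
      intro g
      have h2 : ∀ y, u y * g y = (1 - s) * (w y * g y) +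
          s * ((Pi.single x (1 : ℝ) : V → ℝ) y * g y) := by
        intro y; rw [hu y]; ring
      rw [Finset.sum_congr rfl fun y _ => h2 y, Finset.sum_add_distrib, ← Finset.mul_sum,
        ← Finset.mul_sum]
      congr 2
      rw [Finset.sum_eq_single x]
      · simp
      · intro b _ hb
        rw [Pi.single_eq_of_ne hb]; ring
      · intro h; exact absurd (mem_univ x) h
    rw [M_succ, h1]
    have hA : ∑ y, w y * M u n (fun X => f (y ::ₘ X)) ≤ (1 - n * s) * M w (n + 1) f +
        n * s * M w n (fun X => f (x ::ₘ X)) + (n : ℝ) ^ 2 * s ^ 2 := by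
      have h3 : ∀ y, w y * M u n (fun X => f (y ::ₘ X)) ≤
          (1 - n * s) * (w y * M w n (fun X => f (y ::ₘ X))) +
          n * s * (w y * M w (n - 1) (fun X => f (y ::ₘ x ::ₘ X))) +
            w y * ((n : ℝ) ^ 2 * s ^ 2) := by
        intro y
        have := mul_le_mul_of_nonneg_left (ih (fun X => f (y ::ₘ X)) (fun X => hf0 _)
          (fun X => hf1 _)) (hw y)
        calc _ ≤ _ := this
          _ = _ := by ring
      refine (Finset.sum_le_sum fun y _ => h3 y).trans (le_of_eq ?_)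
      rw [Finset.sum_add_distrib, Finset.sum_add_distrib, ← Finset.mul_sum, ← Finset.mul_sum,
        ← Finset.sum_mul, hw1, one_mul, ← M_succ]
      congr 2
      cases n with
      | zero => simp
      | succ n =>
        congr 1
        rw [M_succ, Nat.add_sub_cancel]
        refine Finset.sum_congr rfl fun y _ => ?_
        congr 1
        exact M_congr w n fun X _ => by rw [Multiset.cons_swap]
    have hB : M u n (fun X => f (x ::ₘ X)) ≤ M w n (fun X => f (x ::ₘ X)) + n * s +
        (n : ℝ) ^ 2 * s ^ 2 := by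
      have h4 := ih (fun X => f (x ::ₘ X)) (fun X => hf0 _) (fun X => hf1 _)
      have h5 : 0 ≤ M w n (fun X => f (x ::ₘ X)) := M_nonneg w hw n fun X _ => hf0 _
      have h6 : M w (n - 1) (fun X => f (x ::ₘ x ::ₘ X)) ≤ 1 :=
        M_le_one' w hw hw1 _ _ fun X => hf1 _
      have h7 : (n : ℝ) * s * M w (n - 1) (fun X => f (x ::ₘ x ::ₘ X)) ≤ n * s * 1 :=
        mul_le_mul_of_nonneg_left h6 (by positivity)
      have h8 : 0 ≤ (n : ℝ) * s * M w n (fun X => f (x ::ₘ X)) := by positivity
      linarith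
    have h9 : 0 ≤ M w n (fun X => f (x ::ₘ X)) := M_nonneg w hw n fun X _ => hf0 _
    have h10 : M w (n + 1) f ≤ 1 := M_le_one' w hw hw1 _ _ hf1
    have h11 := mul_le_mul_of_nonneg_left hA (sub_nonneg.2 hs1)
    have h12 := mul_le_mul_of_nonneg_left hB hs0
    rw [Nat.add_sub_cancel]
    push_cast
    set a := M w (n + 1) f
    set b := M w n (fun X => f (x ::ₘ X))
    have h13 : 0 ≤ (n : ℝ) * s ^ 2 * (1 - a + b) := by
      have : 0 ≤ 1 - a + b := by linarith
      positivity
    have h14 : 0 ≤ s ^ 2 := sq_nonneg s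
    calc (1 - s) * ∑ y, w y * M u n (fun X => f (y ::ₘ X)) +
          s * M u n (fun X => f (x ::ₘ X)) ≤
          (1 - s) * ((1 - n * s) * a + n * s * b + (n : ℝ) ^ 2 * s ^ 2) +
            s * (b + n * s + (n : ℝ) ^ 2 * s ^ 2) := add_le_add h11 h12
      _ ≤ (1 - ((n : ℝ) + 1) * s) * a + ((n : ℝ) + 1) * s * b + ((n : ℝ) + 1) ^ 2 * s ^ 2 := by
        nlinarith

theorem regular [Nonempty V] (F : Multiset V → Prop) (t : ℕ) (ht : 3 ≤ t) :
    ∃ w : V → ℝ, (∀ x, 0 ≤ w x) ∧ ∑ x, w x = 1 ∧
      (∀ x, 0 < w x → cd w F t {x} = M w t (fun Z => ind (F Z))) ∧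
      ∀ u : V → ℝ, (∀ x, 0 ≤ u x) → ∑ x, u x = 1 →
        M w t (fun Z => ind (F Z)) ≤ M u t (fun Z => ind (F Z)) := by
  have hcont : Continuous fun u : V → ℝ => M u t (fun Z => ind (F Z)) := cont_M t _
  obtain ⟨w, hwS, hwmin⟩ := (isCompact_stdSimplex ℝ V).exists_isMinOn
    ⟨_, single_mem_stdSimplex ℝ (Classical.arbitrary V)⟩ hcont.continuousOn
  obtain ⟨hw, hw1⟩ := hwS
  have hmin : ∀ u : V → ℝ, (∀ v, 0 ≤ u v) → ∑ v, u v = 1 →
      M w t (fun Z => ind (F Z)) ≤ M u t (fun Z => ind (F Z)) :=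
    fun u hu hu1 => hwmin ⟨hu, hu1⟩
  refine ⟨w, hw, hw1, ?_, hmin⟩
  have hcd : ∀ x, cd w F t {x} = M w (t - 1) (fun Z => ind (F (x ::ₘ Z))) := by
    intro x
    unfold cd
    rw [Multiset.card_singleton]
    exact M_congr w _ fun Z _ => by rw [Multiset.singleton_add]
  set P := M w t (fun Z => ind (F Z)) with hP
  have hP1 : P ≤ 1 := M_le_one' w hw hw1 _ _ fun Z => ind_le_one _
  have ht0 : (0 : ℝ) < t := by exact_mod_cast (by omega : 0 < t)
  -- every degree is at least `P`
  have hge : ∀ x, P ≤ cd w F t {x} := by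
    intro x
    by_contra hcon
    push Not at hcon
    have hc0 : 0 ≤ cd w F t {x} := by
      rw [hcd]; exact M_nonneg w hw _ fun Z _ => ind_nonneg _
    set c := cd w F t {x} with hc
    set s : ℝ := (P - c) / (4 * t) with hs
    have hs0 : 0 < s := by
      rw [hs]; exact div_pos (by linarith) (by positivity)
    have hst : 4 * (t * s) = P - c := by
      rw [hs]; field_simp
    have ht1 : (1 : ℝ) ≤ t := by exact_mod_cast (by omega : 1 ≤ t)
    have hs1 : s ≤ 1 := by
      have : s ≤ t * s := le_mul_of_one_le_left hs0.le ht1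
      linarith
    have hE0 : ∀ y, 0 ≤ (Pi.single x (1 : ℝ) : V → ℝ) y := fun y => by
      by_cases h : y = x
      · subst h; simp
      · simp [Pi.single_eq_of_ne h]
    have h1 := move w (fun y => (1 - s) * w y + s * (Pi.single x (1 : ℝ) : V → ℝ) y) x s hs0.le
      hs1 hw hw1 (fun _ => rfl) t (fun Z => ind (F Z)) (fun Z => ind_nonneg _)
      (fun Z => ind_le_one _)
    have h2 := hmin (fun y => (1 - s) * w y + s * (Pi.single x (1 : ℝ) : V → ℝ) y)
      (fun y => add_nonneg (mul_nonneg (by linarith) (hw y)) (mul_nonneg hs0.le (hE0 y)))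
      (by rw [Finset.sum_add_distrib, ← Finset.mul_sum, ← Finset.mul_sum, hw1]; simp)
    rw [← hcd, ← hc] at h1
    have h3 : P ≤ (1 - t * s) * P + t * s * c + (t : ℝ) ^ 2 * s ^ 2 := h2.trans h1
    have h4 : 0 < t * s := by positivity
    nlinarith
  have havg : ∑ x, w x * (cd w F t {x} - P) = 0 := by
    have h1 : ∑ x, w x * cd w F t {x} = P := by
      obtain ⟨r, rfl⟩ : ∃ r, t = r + 1 := ⟨t - 1, by omega⟩
      rw [hP, M_succ]
      exact Finset.sum_congr rfl fun x _ => by rw [hcd, Nat.add_sub_cancel]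
    have h2 : ∑ x, w x * (cd w F t {x} - P) = ∑ x, w x * cd w F t {x} - (∑ x, w x) * P := by
      rw [Finset.sum_mul, ← Finset.sum_sub_distrib]
      exact Finset.sum_congr rfl fun x _ => by ring
    rw [h2, h1, hw1]; ring
  have hz := (Finset.sum_eq_zero_iff_of_nonneg (fun x _ =>
    mul_nonneg (hw x) (sub_nonneg.2 (hge x)))).1 havg
  intro x hx
  have h1 := hz x (mem_univ x)
  rcases mul_eq_zero.1 h1 with h | h
  · exact absurd h hx.ne'
  · linarith

theorem support (w : V → ℝ) (hw : ∀ x, 0 ≤ w x) (n : ℕ) (f : Multiset V → ℝ) :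
    M (V := {x : V // 0 < w x}) (fun x => w x.1) n (fun Z => f (Z.map Subtype.val)) =
      M w n f := by
  induction n generalizing f with
  | zero => rfl
  | succ n ih =>
    rw [M_succ, M_succ]
    have h1 : ∀ x : {x : V // 0 < w x}, M (V := {x : V // 0 < w x}) (fun x => w x.1) n
        (fun X => f ((x ::ₘ X).map Subtype.val)) = M w n (fun X => f (x.1 ::ₘ X)) := by
      intro x
      rw [← ih]
      exact M_congr (V := {x : V // 0 < w x}) _ n fun X _ => by rw [Multiset.map_cons]
    simp only [h1]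
    have h2 : ∑ x ∈ univ.filter (fun x => 0 < w x), w x * M w n (fun X => f (x ::ₘ X)) =
        ∑ x, w x * M w n (fun X => f (x ::ₘ X)) := by
      refine Finset.sum_subset (Finset.filter_subset _ _) fun x _ hx => ?_
      have h3 : w x = 0 := by
        simp only [mem_filter, mem_univ, true_and, not_lt] at hx
        exact le_antisymm hx (hw x)
      rw [h3, zero_mul]
    rw [← h2]
    exact (Finset.sum_subtype (univ.filter (fun x => 0 < w x)) (fun x => by simp)
      (fun x => w x * M w n (fun X => f (x ::ₘ X)))).symm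

end Pool.Agent.H123R2.Gen.RG
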