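import Pool.Agent.H123R2.Gen.MC

/-!
Task SM1: the second moment over two `a`-subsets.
-/

set_option autoImplicit false
set_option linter.unusedSectionVars false
set_option linter.unusedVariables false

namespace Pool.Agent.H123R2.Gen.SM1

open Finset

section
variable {V : Type} [Fintype V] [DecidableEq V]

/-- averages of finite multiset sums -/
theorem M_msum {α : Type} (T : Multiset α) (w : V → ℝ) (n : ℕ) (f : α → Multiset V → ℝ) :
    M w n (fun X => (T.map (fun i => f i X)).sum) = (T.map (fun i => M w n (f i))).sum := by
  induction T using Multiset.induction_on with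
  | empty => simp [M_zero_fun]
  | cons a T ih =>
    rw [Multiset.map_cons, Multiset.sum_cons, ← ih, ← M_add_fun]
    exact M_congr w n fun X _ => by rw [Multiset.map_cons, Multiset.sum_cons]

theorem mul_msum {α : Type} (T : Multiset α) (c : ℝ) (f : α → ℝ) :
    c * (T.map f).sum = (T.map (fun i => c * f i)).sum := by
  induction T using Multiset.induction_on with
  | empty => simp
  | cons a T ih => simp [mul_add, ih]

theorem msum_le {α : Type} (T : Multiset α) (f g : α → ℝ) (h : ∀ i ∈ T, f i ≤ g i) :
    (T.map f).sum ≤ (T.map g).sum := Multiset.sum_map_le_sum_map f g h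

theorem indep_mono' {F : Multiset V → Prop} {t : ℕ} {X Y : Multiset V} (h : X ≤ Y)
    (hY : Indep F t Y) : Indep F t X := fun Z hZ => hY Z (hZ.trans h)

theorem split_sq (w : V → ℝ) (hw : ∀ x, 0 ≤ w x) (hw1 : ∑ x, w x = 1)
    (F : Multiset V → Prop) (t m a : ℕ) (ha : 2 * a ≤ m) (f g : Multiset V → ℝ)
    (hf : ∀ Z, 0 ≤ f Z) (hg : ∀ Z, 0 ≤ g Z) (c : ℝ)
    (hc : ∀ b : ℕ, b ≤ 2 * a → Q w F t (m - b) 0 ≤ c) :
    M w m (fun J => ind (Indep F t J) *
      (((J.powersetCard a).map f).sum * ((J.powersetCard a).map g).sum)) ≤
    c * ((m.choose a : ℝ) * ∑ i ∈ range (a + 1), ((m - a).choose (a - i) : ℝ) *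
      M w a (fun A => f A * ((A.powersetCard i).map (fun S =>
        M w (a - i) (fun S' => g (S + S')))).sum)) := by
  -- step 1: splitting off the first subset
  have h1 : M w m (fun J => ind (Indep F t J) *
      (((J.powersetCard a).map f).sum * ((J.powersetCard a).map g).sum)) =
      (m.choose a : ℝ) * M w a (fun A => M w (m - a) (fun R => ind (Indep F t (A + R)) *
        (f A * (((A + R).powersetCard a).map g).sum))) := by
    rw [← M_pc]
    refine M_congr w m fun J _ => ?_
    rw [mul_comm ((J.powersetCard a).map f).sum, ← mul_assoc, mul_msum]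
    congr 1
    refine Multiset.map_congr rfl fun A hA => ?_
    have hAJ : A ≤ J := (Multiset.mem_powersetCard.mp hA).1
    have : A + (J - A) = J := by rw [add_comm]; exact Multiset.sub_add_cancel hAJ
    rw [this]
    ring
  -- step 2: the second subset
  have h2 : ∀ A : Multiset V, A.card = a → M w (m - a) (fun R => ind (Indep F t (A + R)) *
        (f A * (((A + R).powersetCard a).map g).sum)) ≤
      c * ∑ i ∈ range (a + 1), ((m - a).choose (a - i) : ℝ) *
        (f A * ((A.powersetCard i).map (fun S => M w (a - i) (fun S' => g (S + S')))).sum) := by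
    intro A hA
    have h3 : M w (m - a) (fun R => ind (Indep F t (A + R)) *
        (f A * (((A + R).powersetCard a).map g).sum)) ≤
        M w (m - a) (fun R => f A * ∑ i ∈ range (a + 1), ((A.powersetCard i).map (fun S =>
          ((R.powersetCard (a - i)).map (fun S' => g (S + S') *
            ind (Indep F t (R - S')))).sum)).sum) := by
      refine M_mono w hw _ fun R _ => ?_
      rw [pc_add, mul_left_comm]
      refine mul_le_mul_of_nonneg_left ?_ (hf A)
      rw [Finset.mul_sum]
      refine Finset.sum_le_sum fun i _ => ?_
      rw [mul_msum]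
      refine msum_le _ _ _ fun S _ => ?_
      rw [mul_msum]
      refine msum_le _ _ _ fun S' _ => ?_
      rw [mul_comm]
      refine mul_le_mul_of_nonneg_left ?_ (hg _)
      refine ind_mono fun hI => indep_mono' ?_ hI
      exact (Multiset.sub_le_self R S').trans (Multiset.le_add_left R A)
    refine h3.trans ?_
    rw [M_mul_left, M_sum, Finset.mul_sum, Finset.mul_sum]
    refine Finset.sum_le_sum fun i hi => ?_
    have hia : i ≤ a := Nat.lt_succ_iff.1 (Finset.mem_range.1 hi)
    rw [M_msum]
    have h4 : ((A.powersetCard i).map (fun S => M w (m - a) (fun R =>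
        ((R.powersetCard (a - i)).map (fun S' => g (S + S') *
            ind (Indep F t (R - S')))).sum))).sum ≤
        ((m - a).choose (a - i) : ℝ) * (c * ((A.powersetCard i).map (fun S =>
          M w (a - i) (fun S' => g (S + S')))).sum) := by
      rw [mul_msum, mul_msum]
      refine msum_le _ _ _ fun S _ => ?_
      rw [M_pc w (m - a) (a - i) (fun S' R => g (S + S') * ind (Indep F t R))]
      refine mul_le_mul_of_nonneg_left ?_ (Nat.cast_nonneg _)
      rw [← M_mul_left]
      refine M_mono w hw _ fun S' _ => ?_
      rw [M_mul_left, mul_comm]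
      refine mul_le_mul_of_nonneg_right ?_ (hg _)
      have h5 := hc (a + (a - i)) (by omega)
      have h6 : m - (a + (a - i)) = m - a - (a - i) := by omega
      rw [h6] at h5
      unfold Q at h5
      simp only [zero_add] at h5
      exact h5
    calc f A * ((A.powersetCard i).map (fun S => M w (m - a) (fun R =>
        ((R.powersetCard (a - i)).map (fun S' => g (S + S') *
            ind (Indep F t (R - S')))).sum))).sum
        ≤ f A * (((m - a).choose (a - i) : ℝ) * (c * ((A.powersetCard i).map (fun S =>
          M w (a - i) (fun S' => g (S + S')))).sum)) := mul_le_mul_of_nonneg_left h4 (hf A)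
      _ = _ := by ring
  rw [h1]
  calc (m.choose a : ℝ) * M w a (fun A => M w (m - a) (fun R => ind (Indep F t (A + R)) *
        (f A * (((A + R).powersetCard a).map g).sum)))
      ≤ (m.choose a : ℝ) * M w a (fun A => c * ∑ i ∈ range (a + 1),
        ((m - a).choose (a - i) : ℝ) * (f A * ((A.powersetCard i).map (fun S =>
          M w (a - i) (fun S' => g (S + S')))).sum)) :=
        mul_le_mul_of_nonneg_left (M_mono w hw a h2) (Nat.cast_nonneg _)
    _ = _ := by
        rw [M_mul_left, M_sum]
        simp only [M_mul_left]
        ring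

end

end Pool.Agent.H123R2.Gen.SM1
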