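import Pool.Agent.H123R2.Gen.Stubs

/-!
Task SM2: lemma A (second moment method for independent sets containing a member of `L`).
-/

set_option autoImplicit false
set_option linter.unusedSectionVars false
set_option linter.unusedVariables false

namespace Pool.Agent.H123R2.Gen.SM2

open Finset

section
variable {V : Type} [Fintype V] [DecidableEq V]

private theorem sum_map_le {s : Multiset (Multiset V)} {f g : Multiset V → ℝ}
    (h : ∀ S ∈ s, f S ≤ g S) : (s.map f).sum ≤ (s.map g).sum :=
  Multiset.sum_map_le_sum_map f g h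

private theorem N_zero {L : Multiset V → Prop} {r : ℕ} {J : Multiset V}
    (h : ¬ ∃ R : Multiset V, R ≤ J ∧ R.card = r ∧ L R) :
    ((J.powersetCard r).map (fun R => ind (L R))).sum = 0 := by
  apply Multiset.sum_eq_zero
  intro x hx
  obtain ⟨R, hR, rfl⟩ := Multiset.mem_map.1 hx
  have := Multiset.mem_powersetCard.1 hR
  exact ind_false fun hL => h ⟨R, this.1, this.2, hL⟩

theorem lemmaA (w : V → ℝ) (hw : ∀ x, 0 ≤ w x) (hw1 : ∑ x, w x = 1)
    (F : Multiset V → Prop) (t m r : ℕ) (hr : 1 ≤ r) (hrm : 2 * r ≤ m) (L : Multiset V → Prop)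
    (θ : ℝ) (hθ : 0 ≤ θ) (hqpos : 0 < Q w F t m 0)
    (hq : ∀ b : ℕ, b ≤ 2 * r → Q w F t (m - b) 0 ≤ 2 * Q w F t m 0)
    (A1 : ∀ S : Multiset V, 0 < S.card → S.card < r →
      (∃ R : Multiset V, R.card = r ∧ L R ∧ S ≤ R) →
      (m : ℝ) ^ (r - S.card) * M w (r - S.card) (fun Z => ind (L (S + Z))) ≤ θ)
    (A2 : ∀ R : Multiset V, R.card = r → L R → Q w F t m 0 ≤ 2 * Q w F t m R) :
    (m.choose r : ℝ) * M w r (fun R => ind (L R)) * Q w F t m 0 ≤
      8 * (1 + 2 ^ r * θ + (m.choose r : ℝ) * M w r (fun R => ind (L R))) *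
        M w m (fun J => ind (Indep F t J ∧ ∃ R : Multiset V, R ≤ J ∧ R.card = r ∧ L R)) := by
  set q := Q w F t m 0 with hqdef
  set l := M w r (fun R => ind (L R)) with hl
  set mu := (m.choose r : ℝ) * l with hmu
  set p : Multiset V → ℝ := fun J => ind (Indep F t J ∧ ∃ R : Multiset V, R ≤ J ∧ R.card = r ∧ L R)
    with hp
  set N : Multiset V → ℝ := fun J => ((J.powersetCard r).map (fun R => ind (L R))).sum with hN
  have hl0 : 0 ≤ l := M_nonneg w hw r fun _ _ => ind_nonneg _
  have hmu0 : 0 ≤ mu := mul_nonneg (Nat.cast_nonneg _) hl0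
  have hP0 : 0 ≤ M w m p := M_nonneg w hw m fun _ _ => ind_nonneg _
  have hpN : ∀ J, p J * N J = ind (Indep F t J) * N J := by
    intro J
    by_cases h : ∃ R : Multiset V, R ≤ J ∧ R.card = r ∧ L R
    · simp only [hp, ind_and, ind_true h, mul_one]
    · have : N J = 0 := N_zero h
      rw [this]; simp
  have hpN2 : ∀ J, p J * (N J) ^ 2 = ind (Indep F t J) * (N J * N J) := by
    intro J
    have := hpN J
    calc p J * (N J) ^ 2 = (p J * N J) * N J := by ring
      _ = (ind (Indep F t J) * N J) * N J := by rw [this]
      _ = _ := by ring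
  -- first moment
  have h1 : mu * q / 2 ≤ M w m (fun J => p J * N J) := by
    have e1 : M w m (fun J => p J * N J) =
        (m.choose r : ℝ) * M w r (fun A => ind (L A) * Q w F t (m - r) A) := by
      rw [← marg w F t m r (fun R => ind (L R))]
      exact M_congr w m fun J _ => hpN J
    rw [e1]
    have e2 : M w r (fun A => ind (L A) * (q / 2)) ≤ M w r (fun A => ind (L A) * Q w F t (m - r) A) := by
      refine M_mono w hw r fun A hA => ?_
      by_cases hLA : L A
      · rw [ind_true hLA, one_mul, one_mul]
        have a1 := A2 A hA hLA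
        have a2 := Q_anti_m w hw hw1 F t (Nat.sub_le m r) A
        linarith
      · rw [ind_false hLA]; simp
    rw [M_mul_right] at e2
    have e3 : mu * q / 2 = (m.choose r : ℝ) * (l * (q / 2)) := by rw [hmu]; ring
    rw [e3]
    exact mul_le_mul_of_nonneg_left e2 (Nat.cast_nonneg _)
  -- second moment
  have h2 : M w m (fun J => p J * (N J) ^ 2) ≤ 2 * q * (mu * (mu + 1 + 2 ^ r * θ)) := by
    have e0 : M w m (fun J => p J * (N J) ^ 2) = M w m (fun J => ind (Indep F t J) *
      (((J.powersetCard r).map (fun R => ind (L R))).sum *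
        ((J.powersetCard r).map (fun R => ind (L R))).sum)) :=
      M_congr w m fun J _ => hpN2 J
    rw [e0]
    have e1 := split_sq w hw hw1 F t m r hrm (fun R => ind (L R)) (fun R => ind (L R))
      (fun _ => ind_nonneg _) (fun _ => ind_nonneg _) (2 * q) (fun b hb => hq b hb)
    refine e1.trans ?_
    refine mul_le_mul_of_nonneg_left ?_ (by linarith)
    have e2 : ∀ i ∈ range (r + 1), ((m - r).choose (r - i) : ℝ) *
        M w r (fun A => ind (L A) * ((A.powersetCard i).map (fun S =>
          M w (r - i) (fun S' => ind (L (S + S'))))).sum) ≤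
        ((if i = 0 then mu * l else 0) + (if i = r then l else 0)) + (r.choose i : ℝ) * (θ * l) := by
      intro i hi
      have hir : i ≤ r := Nat.lt_succ_iff.1 (Finset.mem_range.1 hi)
      have hth : 0 ≤ (r.choose i : ℝ) * (θ * l) :=
        mul_nonneg (Nat.cast_nonneg _) (mul_nonneg hθ hl0)
      rcases Nat.eq_zero_or_pos i with h0 | h0
      · subst h0
        have hr0 : (0 : ℕ) ≠ r := by omega
        rw [if_pos rfl, if_neg hr0]
        have e3 : M w r (fun A => ind (L A) * ((A.powersetCard 0).map (fun S =>
          M w (r - 0) (fun S' => ind (L (S + S'))))).sum) = l * l := by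
          rw [← M_mul_right]
          refine M_congr w r fun A _ => ?_
          simp [hl]
        rw [e3]
        have e4 : ((m - r).choose (r - 0) : ℝ) ≤ (m.choose r : ℝ) := by
          rw [Nat.sub_zero]
          exact_mod_cast Nat.choose_le_choose r (Nat.sub_le m r)
        have e5 : ((m - r).choose (r - 0) : ℝ) * (l * l) ≤ (m.choose r : ℝ) * (l * l) :=
          mul_le_mul_of_nonneg_right e4 (mul_nonneg hl0 hl0)
        have e6 : (m.choose r : ℝ) * (l * l) = mu * l := by rw [hmu]; ring
        linarith
      · rcases hir.eq_or_lt with h3 | h3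
        · subst h3
          rw [if_neg (by omega), if_pos rfl]
          have e3 : M w i (fun A => ind (L A) * ((A.powersetCard i).map (fun S =>
            M w (i - i) (fun S' => ind (L (S + S'))))).sum) = l := by
            refine M_congr w i fun A hA => ?_
            have e4 : A.powersetCard i = {A} := by
              rw [← hA]
              exact Multiset.powersetCard_self A
            rw [e4, Nat.sub_self, Multiset.map_singleton, Multiset.sum_singleton, M_zero, add_zero]
            by_cases hLA : L A
            · rw [ind_true hLA, one_mul]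
            · rw [ind_false hLA, zero_mul]
          rw [e3, Nat.sub_self, Nat.choose_zero_right, Nat.cast_one, one_mul]
          linarith
        · rw [if_neg (by omega), if_neg (by omega), zero_add, zero_add, ← M_mul_left]
          have e3 : M w r (fun A => ind (L A) * ((r.choose i : ℝ) * θ)) =
              (r.choose i : ℝ) * (θ * l) := by
            rw [M_mul_right]
            ring
          rw [← e3]
          refine M_mono w hw r fun A hA => ?_
          by_cases hLA : L A
          · rw [ind_true hLA, one_mul, one_mul, ← Multiset.sum_map_mul_left]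
            have e4 : ∀ S ∈ A.powersetCard i, ((m - r).choose (r - i) : ℝ) *
                M w (r - i) (fun S' => ind (L (S + S'))) ≤ θ := by
              intro S hS
              obtain ⟨hSA, hSc⟩ := Multiset.mem_powersetCard.1 hS
              have a1 := A1 S (by omega) (by omega) ⟨A, hA, hLA, hSA⟩
              rw [hSc] at a1
              have a2 : ((m - r).choose (r - i) : ℝ) ≤ (m : ℝ) ^ (r - i) := by
                have b1 : (m - r).choose (r - i) ≤ (m - r) ^ (r - i) := Nat.choose_le_pow _ _
                have b2 : (m - r) ^ (r - i) ≤ m ^ (r - i) := Nat.pow_le_pow_left (Nat.sub_le _ _) _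
                exact_mod_cast b1.trans b2
              refine le_trans ?_ a1
              exact mul_le_mul_of_nonneg_right a2 (M_nonneg w hw _ fun _ _ => ind_nonneg _)
            refine (sum_map_le e4).trans ?_
            rw [Multiset.map_const', Multiset.sum_replicate, Multiset.card_powersetCard, hA,
              nsmul_eq_mul]
          · rw [ind_false hLA]; simp
    have e7 : ∑ i ∈ range (r + 1), ((m - r).choose (r - i) : ℝ) *
        M w r (fun A => ind (L A) * ((A.powersetCard i).map (fun S =>
          M w (r - i) (fun S' => ind (L (S + S'))))).sum) ≤ l * (mu + 1 + 2 ^ r * θ) := by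
      refine (Finset.sum_le_sum e2).trans ?_
      rw [Finset.sum_add_distrib, Finset.sum_add_distrib, ← Finset.sum_mul]
      have e8 : ∑ i ∈ range (r + 1), (r.choose i : ℝ) = 2 ^ r := by
        exact_mod_cast Nat.sum_range_choose r
      rw [e8, Finset.sum_ite_eq' , Finset.sum_ite_eq', if_pos (by simp), if_pos (by simp)]
      apply le_of_eq
      ring
    calc (m.choose r : ℝ) * ∑ i ∈ range (r + 1), ((m - r).choose (r - i) : ℝ) *
        M w r (fun A => ind (L A) * ((A.powersetCard i).map (fun S =>
          M w (r - i) (fun S' => ind (L (S + S'))))).sum) ≤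
          (m.choose r : ℝ) * (l * (mu + 1 + 2 ^ r * θ)) :=
          mul_le_mul_of_nonneg_left e7 (Nat.cast_nonneg _)
      _ = mu * (mu + 1 + 2 ^ r * θ) := by rw [hmu]; ring
  -- Cauchy-Schwarz
  have h3 := M_cs w hw m p N (fun _ => ind_nonneg _)
  have h4 : (mu * q / 2) ^ 2 ≤ M w m p * (2 * q * (mu * (mu + 1 + 2 ^ r * θ))) := by
    have a1 : (mu * q / 2) ^ 2 ≤ (M w m (fun J => p J * N J)) ^ 2 := by
      apply pow_le_pow_left₀ _ h1
      positivity
    exact a1.trans (h3.trans (mul_le_mul_of_nonneg_left h2 hP0))
  rcases hmu0.eq_or_lt with h0 | h0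
  · rw [← h0, zero_mul]
    have : 0 ≤ (2 : ℝ) ^ r * θ := by positivity
    exact mul_nonneg (by linarith) hP0
  · have a1 : 0 < mu * q / 4 := by positivity
    have a2 : (mu * q / 4) * (mu * q) ≤ (mu * q / 4) * (8 * (1 + 2 ^ r * θ + mu) * M w m p) := by
      have b1 : (mu * q / 4) * (mu * q) = (mu * q / 2) ^ 2 := by ring
      have b2 : (mu * q / 4) * (8 * (1 + 2 ^ r * θ + mu) * M w m p) =
        M w m p * (2 * q * (mu * (mu + 1 + 2 ^ r * θ))) := by ring
      rw [b1, b2]
      exact h4
    exact le_of_mul_le_mul_left a2 a1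

end

end Pool.Agent.H123R2.Gen.SM2
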