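import Pool.Agent.H123R2.Gen.MC

/-!
Statements of all tasks (with `sorry`); see the table `h123_tasks`.
-/

set_option autoImplicit false
set_option linter.unusedSectionVars false
set_option linter.unusedVariables false

namespace Pool.Agent.H123R2.Gen

open Finset

section
variable {V : Type} [Fintype V] [DecidableEq V]

/-! ## BAS -/

theorem Indep_mono {F : Multiset V → Prop} {t : ℕ} {X Y : Multiset V} (h : X ≤ Y)
    (hY : Indep F t Y) : Indep F t X := sorry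

theorem Q_nonneg (w : V → ℝ) (hw : ∀ x, 0 ≤ w x) (F : Multiset V → Prop) (t m : ℕ)
    (X : Multiset V) : 0 ≤ Q w F t m X := sorry

theorem Q_le_one (w : V → ℝ) (hw : ∀ x, 0 ≤ w x) (hw1 : ∑ x, w x = 1) (F : Multiset V → Prop)
    (t m : ℕ) (X : Multiset V) : Q w F t m X ≤ 1 := sorry

theorem Q_anti (w : V → ℝ) (hw : ∀ x, 0 ≤ w x) (F : Multiset V → Prop) (t m : ℕ)
    {X Y : Multiset V} (h : X ≤ Y) : Q w F t m Y ≤ Q w F t m X := sorry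

theorem M_Q (w : V → ℝ) (F : Multiset V → Prop) (t s m : ℕ) (X : Multiset V) :
    M w s (fun Y => Q w F t m (X + Y)) = Q w F t (m + s) X := sorry

theorem Q_anti_m (w : V → ℝ) (hw : ∀ x, 0 ≤ w x) (hw1 : ∑ x, w x = 1)
    (F : Multiset V → Prop) (t : ℕ) {m n : ℕ} (h : m ≤ n) (X : Multiset V) :
    Q w F t n X ≤ Q w F t m X := sorry

theorem Q_small (w : V → ℝ) (hw1 : ∑ x, w x = 1) (F : Multiset V → Prop) (t m : ℕ)
    (X : Multiset V) (h : X.card + m < t) : Q w F t m X = 1 := sorry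

theorem cd_nonneg (w : V → ℝ) (hw : ∀ x, 0 ≤ w x) (F : Multiset V → Prop) (t : ℕ)
    (X : Multiset V) : 0 ≤ cd w F t X := sorry

theorem cd_le_one (w : V → ℝ) (hw : ∀ x, 0 ≤ w x) (hw1 : ∑ x, w x = 1)
    (F : Multiset V → Prop) (t : ℕ) (X : Multiset V) : cd w F t X ≤ 1 := sorry

theorem cd_top (w : V → ℝ) (F : Multiset V → Prop) (t : ℕ) {X : Multiset V}
    (h : X.card = t) : cd w F t X = ind (F X) := sorry

theorem M_cd (w : V → ℝ) (F : Multiset V → Prop) (t s : ℕ) (X : Multiset V)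
    (h : X.card + s ≤ t) : M w s (fun Y => cd w F t (X + Y)) = cd w F t X := sorry

theorem sum_cd (w : V → ℝ) (F : Multiset V → Prop) (t : ℕ) (X : Multiset V)
    (h : X.card < t) : ∑ x, w x * cd w F t (x ::ₘ X) = cd w F t X := sorry

theorem cd_zero {w : V → ℝ} {F : Multiset V → Prop} {t : ℕ} {d : ℝ} (hS : Sys w F t d) :
    cd w F t 0 = d := sorry

theorem d_nonneg {w : V → ℝ} {F : Multiset V → Prop} {t : ℕ} {d : ℝ} (hS : Sys w F t d) :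
    0 ≤ d := sorry

/-- expected number of `A ≤ J`, weighted by `h`, on the event that `J` is independent -/
theorem marg (w : V → ℝ) (F : Multiset V → Prop) (t m a : ℕ) (h : Multiset V → ℝ) :
    M w m (fun J => ind (Indep F t J) * ((J.powersetCard a).map h).sum) =
      (m.choose a : ℝ) * M w a (fun A => h A * Q w F t (m - a) A) := sorry

theorem incr (w : V → ℝ) (hw1 : ∑ x, w x = 1) (F : Multiset V → Prop) (t m : ℕ) :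
    ∑ x, w x * M w m (fun J => ind (Indep F t J ∧ ¬ Indep F t (x ::ₘ J))) =
      Q w F t m 0 - Q w F t (m + 1) 0 := sorry

theorem block1 {F : Multiset V → Prop} {t : ℕ} (ht : 1 ≤ t) {J : Multiset V} {x : V}
    (h1 : Indep F t J) (h2 : ¬ Indep F t (x ::ₘ J)) :
    ∃ A : Multiset V, A ≤ J ∧ A.card = t - 1 ∧ F (x ::ₘ A) := sorry

/-- `pcs a J f`: every `A ≤ J` of size `a` is counted -/
theorem pc_ge_of_mem {J A : Multiset V} (hA : A ≤ J) (f : Multiset V → ℝ) (hf : ∀ Z, 0 ≤ f Z) :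
    f A ≤ ((J.powersetCard A.card).map f).sum := sorry

theorem blockX {F : Multiset V → Prop} {t : ℕ} {X J : Multiset V}
    (h1 : Indep F t J) (h2 : ¬ Indep F t (X + J)) :
    1 ≤ ∑ s ∈ Finset.Icc 1 t, ((X.powersetCard s).map (fun T =>
      ((J.powersetCard (t - s)).map (fun R => ind (F (T + R)))).sum)).sum := sorry

/-! ### sums over edges -/

theorem EA_mono (w : V → ℝ) (hw : ∀ x, 0 ≤ w x) (F : Multiset V → Prop) (t : ℕ)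
    {h h' : V → Multiset V → ℝ}
    (H : ∀ (x : V) (A : Multiset V), A.card = t - 1 → F (x ::ₘ A) → h x A ≤ h' x A) :
    EA w F t h ≤ EA w F t h' := sorry

theorem EA_const {w : V → ℝ} {F : Multiset V → Prop} {t : ℕ} {d : ℝ} (hS : Sys w F t d)
    (c : ℝ) : EA w F t (fun _ _ => c) = c * d := sorry

theorem EA_pc (w : V → ℝ) (F : Multiset V → Prop) (t : ℕ) (ht : 1 ≤ t) (s : ℕ)
    (hs : s ≤ t - 1) (h : Multiset V → ℝ) :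
    EA w F t (fun _ A => ((A.powersetCard s).map h).sum) =
      ((t - 1).choose s : ℝ) * M w s (fun T => h T * cd w F t T) := sorry

theorem EA_M (w : V → ℝ) (F : Multiset V → Prop) (t : ℕ) (ht : 1 ≤ t) (g : Multiset V → ℝ) :
    EA w F t (fun x A => g (x ::ₘ A)) = M w t (fun e => ind (F e) * g e) := sorry

/-! ### good edges -/

theorem good_sum (w : V → ℝ) (hw : ∀ x, 0 ≤ w x) (F : Multiset V → Prop) (t : ℕ) (η : ℝ)
    (hη : 0 ≤ η) (m₂ : ℕ) (X : Multiset V) (h2 : 2 ≤ X.card) (h3 : X.card < t) :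
    (m₂ : ℝ) ^ (t - X.card) * M w (t - X.card) (fun U => ind (good w F t η m₂ (X + U))) ≤ η :=
  sorry

theorem good_vertex {w : V → ℝ} {F : Multiset V → Prop} {t : ℕ} {d : ℝ} (hS : Sys w F t d)
    (η : ℝ) (m₂ : ℕ) (x : V) : M w (t - 1) (fun A => ind (good w F t η m₂ (x ::ₘ A))) ≤ d :=
  sorry

/-! ## CH : the chain inequality -/

theorem crit {F : Multiset V → Prop} {t : ℕ} {J : Multiset V} {x : V}
    (h1 : Indep F t J) (h2 : ¬ Indep F t (x ::ₘ J)) :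
    ((J.powersetCard 1).map (fun Y => ind (Indep F t (x ::ₘ (J - Y))))).sum ≤ (t : ℝ) - 1 :=
  sorry

theorem chain_step {w : V → ℝ} {F : Multiset V → Prop} {t : ℕ} {d : ℝ} (hS : Sys w F t d)
    (m : ℕ) :
    ((m : ℝ) + 1) * Q w F t (m + 1) 0 ^ 2 ≤ Q w F t m 0 * (((m : ℝ) + 1) * Q w F t (m + 2) 0 +
      ((t : ℝ) - 1) * (Q w F t (m + 1) 0 - Q w F t (m + 2) 0)) := sorry

theorem q_start {w : V → ℝ} {F : Multiset V → Prop} {t : ℕ} {d : ℝ} (hS : Sys w F t d) :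
    Q w F t (t - 1) 0 = 1 ∧ Q w F t t 0 = 1 - d := sorry

theorem chain_mono {w : V → ℝ} {F : Multiset V → Prop} {t : ℕ} {d : ℝ} (hS : Sys w F t d)
    (m n : ℕ) (h1 : t - 1 ≤ m) (h2 : m ≤ n) (hn : 0 < Q w F t n 0) :
    (m.choose (t - 1) : ℝ) * (Q w F t n 0 - Q w F t (n + 1) 0) * Q w F t m 0 ≤
      (n.choose (t - 1) : ℝ) * (Q w F t m 0 - Q w F t (m + 1) 0) * Q w F t n 0 := sorry

theorem chain_upper {w : V → ℝ} {F : Multiset V → Prop} {t : ℕ} {d : ℝ} (hS : Sys w F t d)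
    (m : ℕ) (hm : 0 < Q w F t m 0) :
    Q w F t m 0 - Q w F t (m + 1) 0 ≤ (m.choose (t - 1) : ℝ) * d * Q w F t m 0 := sorry

theorem chain_lower {w : V → ℝ} {F : Multiset V → Prop} {t : ℕ} {d : ℝ} (hS : Sys w F t d)
    (K : ℕ) (hK : 0 < Q w F t K 0) (hK1 : Q w F t (K + 1) 0 = 0) (m : ℕ) (h1 : t - 1 ≤ m)
    (h2 : m ≤ K) :
    (m.choose (t - 1) : ℝ) * Q w F t m 0 ≤
      (K.choose (t - 1) : ℝ) * (Q w F t m 0 - Q w F t (m + 1) 0) := sorry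

theorem boot {w : V → ℝ} {F : Multiset V → Prop} {t : ℕ} {d : ℝ} (hS : Sys w F t d)
    (N : ℕ) (hv : (N.choose (t - 1) : ℝ) * d < 1) (m : ℕ) (hm : m ≤ N + 1) :
    0 < Q w F t m 0 := sorry

theorem boot_add {w : V → ℝ} {F : Multiset V → Prop} {t : ℕ} {d : ℝ} (hS : Sys w F t d)
    (N : ℕ) (hv : (N.choose (t - 1) : ℝ) * d < 1) (m a : ℕ) (hm : m + a ≤ N + 1) :
    (1 - (a : ℝ) * ((N.choose (t - 1) : ℝ) * d)) * Q w F t m 0 ≤ Q w F t (m + a) 0 := sorry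

theorem boot_two {w : V → ℝ} {F : Multiset V → Prop} {t : ℕ} {d : ℝ} (hS : Sys w F t d)
    (N : ℕ) (a : ℕ) (ha : 1 ≤ a) (hv : (a : ℝ) * ((N.choose (t - 1) : ℝ) * d) ≤ 1 / 2) (m b : ℕ)
    (hb : b ≤ a) (hm : m ≤ N + 1) : Q w F t (m - b) 0 ≤ 2 * Q w F t m 0 := sorry

/-! ## SM : second moments -/

theorem split_sq (w : V → ℝ) (hw : ∀ x, 0 ≤ w x) (hw1 : ∑ x, w x = 1)
    (F : Multiset V → Prop) (t m a : ℕ) (ha : 2 * a ≤ m) (f g : Multiset V → ℝ)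
    (hf : ∀ Z, 0 ≤ f Z) (hg : ∀ Z, 0 ≤ g Z) (c : ℝ)
    (hc : ∀ b : ℕ, b ≤ 2 * a → Q w F t (m - b) 0 ≤ c) :
    M w m (fun J => ind (Indep F t J) *
      (((J.powersetCard a).map f).sum * ((J.powersetCard a).map g).sum)) ≤
    c * ((m.choose a : ℝ) * ∑ i ∈ range (a + 1), ((m - a).choose (a - i) : ℝ) *
      M w a (fun A => f A * ((A.powersetCard i).map (fun S =>
        M w (a - i) (fun S' => g (S + S')))).sum)) := sorry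

theorem lemmaA (w : V → ℝ) (hw : ∀ x, 0 ≤ w x) (hw1 : ∑ x, w x = 1)
    (F : Multiset V → Prop) (t m r : ℕ) (hr : 1 ≤ r) (hrm : 2 * r ≤ m) (L : Multiset V → Prop)
    (θ : ℝ) (hθ : 0 ≤ θ) (hqpos : 0 < Q w F t m 0)
    (hq : ∀ b : ℕ, b ≤ 2 * r → Q w F t (m - b) 0 ≤ 2 * Q w F t m 0)
    (A1 : ∀ S : Multiset V, 0 < S.card → S.card < r →
      (∃ R : Multiset V, R.card = r ∧ L R ∧ S ≤ R) →
      (m : ℝ) ^ (r - S.card) * M w (r - S.card) (fun Z => ind (L (S + Z))) ≤ θ)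
    (A2 : ∀ R : Multiset V, R.card = r → L R → Q w F t m 0 ≤ 2 * Q w F t m R) :
    (m.choose r : ℝ) * M w r (fun R => ind (L R)) * Q w F t m 0 ≤
      8 * (1 + 2 ^ r * θ + (m.choose r : ℝ) * M w r (fun R => ind (L R))) *
        M w m (fun J => ind (Indep F t J ∧ ∃ R : Multiset V, R ≤ J ∧ R.card = r ∧ L R)) :=
  sorry

/-! ## HV : heavy subsets -/

theorem heavy_size {w : V → ℝ} {F : Multiset V → Prop} {t : ℕ} {d : ℝ} (hS : Sys w F t d)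
    (m : ℕ) (hm : 4 * t ≤ m) (hd : 0 < d) (η δ p : ℝ) (hη : 0 < η) (hη1 : 2 ^ t * η ≤ 1)
    (hδ : 0 ≤ δ) (hp : 0 < p) (hp1 : p ≤ 1) (h8 : 8 * δ ≤ p) (hqpos : 0 < Q w F t m 0)
    (hq : ∀ b : ℕ, b ≤ 2 * t → Q w F t (m - b) 0 ≤ 2 * Q w F t m 0)
    (NS : EA w F t (fun _ A => Q w F t m 0 - Q w F t m A) ≤ δ * d * Q w F t m 0)
    (hK : 192 * (2 * (t : ℝ)) ^ t * δ < p ^ 2 * η) (s : ℕ) (hs2 : 2 ≤ s) (hst : s < t) :
    M w s (fun T => ind (η < (m : ℝ) ^ (t - s) * cd w F t T) *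
      M w (t - s) (fun Z => ind (F (T + Z) ∧ ∀ T' : Multiset V, T' ≤ T + Z → s < T'.card →
        T'.card < t → (m : ℝ) ^ (t - T'.card) * cd w F t T' ≤ η))) ≤ p * d := sorry

theorem heavy {w : V → ℝ} {F : Multiset V → Prop} {t : ℕ} {d : ℝ} (hS : Sys w F t d)
    (m : ℕ) (hm : 4 * t ≤ m) (hd : 0 < d) (η δ π : ℝ) (hη : 0 < η) (hη1 : 2 ^ t * η ≤ 1)
    (hδ : 0 ≤ δ) (hπ : 0 < π) (hπ1 : π ≤ 1) (hqpos : 0 < Q w F t m 0)
    (hq : ∀ b : ℕ, b ≤ 2 * t → Q w F t (m - b) 0 ≤ 2 * Q w F t m 0)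
    (NS : EA w F t (fun _ A => Q w F t m 0 - Q w F t m A) ≤ δ * d * Q w F t m 0)
    (hK : 200 * (2 * (t : ℝ)) ^ t * (t : ℝ) ^ 2 * 4 ^ t * δ ≤ π ^ 2 * η) :
    M w t (fun e => ind (bad w F t η m e)) ≤ π * d := sorry

/-! ## NS : most edges are nearly unblocked -/

theorem incr_le {w : V → ℝ} {F : Multiset V → Prop} {t : ℕ} {d : ℝ} (hS : Sys w F t d)
    (m : ℕ) :
    Q w F t m 0 - Q w F t (m + 1) 0 ≤
      (m.choose (t - 1) : ℝ) * EA w F t (fun _ A => Q w F t (m - (t - 1)) A) := sorry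

theorem nearly {w : V → ℝ} {F : Multiset V → Prop} {t : ℕ} {d : ℝ} (hS : Sys w F t d)
    (K m : ℕ) (hK : 0 < Q w F t K 0) (hK1 : Q w F t (K + 1) 0 = 0) (hm : m + (t - 1) ≤ K)
    (ε v : ℝ) (hε : 0 ≤ ε) (hdK : (K.choose (t - 1) : ℝ) * d ≤ 1 + ε)
    (hv : ((m + (t - 1)).choose (t - 1) : ℝ) * d ≤ v) (hv1 : v < 1) :
    EA w F t (fun _ A => Q w F t m 0 - Q w F t m A) ≤ (((t : ℝ) - 1) * v + ε) * d * Q w F t m 0 :=
  sorry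

/-! ## E2 -/

theorem E2_bound {w : V → ℝ} {F : Multiset V → Prop} {t : ℕ} {d : ℝ} (hS : Sys w F t d)
    (m m₂ : ℕ) (hm : 2 * t ≤ m) (hmm : m ≤ m₂) (hd : 0 < d) (η π : ℝ) (hη : 0 ≤ η)
    (hbad : M w t (fun e => ind (bad w F t η m₂ e)) ≤ π * d)
    (hq : ∀ b : ℕ, b ≤ 2 * t → Q w F t (m - b) 0 ≤ 2 * Q w F t m 0) :
    M w 2 (fun P => B2 w F t m P * cd w F t P) ≤
      d * Q w F t m 0 * ((m.choose (t - 1) : ℝ) * d) *
        (6 * π + 2 * ((m.choose (t - 1) : ℝ) * d) + 2 ^ (t + 1) * η +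
          2 * η ^ 2 / (d * (m₂ : ℝ) ^ (t - 1))) := sorry

/-! ## PA -/

theorem partA {w : V → ℝ} {F : Multiset V → Prop} {t : ℕ} {d : ℝ} (hS : Sys w F t d) (m : ℕ) :
    EA w F t (fun _ A => Q w F t m A) ≤
      d * Q w F t m 0 - ((t : ℝ) - 1) * d * (Q w F t m 0 - Q w F t (m + 1) 0) +
        ((t - 1).choose 2 : ℝ) * M w 2 (fun P => B2 w F t m P * cd w F t P) := sorry

theorem incr_upper {w : V → ℝ} {F : Multiset V → Prop} {t : ℕ} {d : ℝ} (hS : Sys w F t d)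
    (η : ℝ) (m₂ m : ℕ) :
    Q w F t m 0 - Q w F t (m + 1) 0 ≤
      (m.choose (t - 1) : ℝ) * EA w F t (fun _ A => Q w F t (m - (t - 1)) A) -
      ∑ x, w x * M w m (fun J => ind (Indep F t J ∧
        ∃ R : Multiset V, R ≤ J ∧ R.card = 2 * (t - 1) ∧ LL w F t η m₂ m x R)) := sorry

/-! ## QX -/

theorem Q_loss {w : V → ℝ} {F : Multiset V → Prop} {t : ℕ} {d : ℝ} (hS : Sys w F t d)
    (m : ℕ) (hm : t ≤ m) (hq : ∀ b : ℕ, b ≤ 2 * t → Q w F t (m - b) 0 ≤ 2 * Q w F t m 0)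
    (X : Multiset V) :
    Q w F t m 0 - Q w F t m X ≤ 2 * Q w F t m 0 *
      ∑ s ∈ Finset.Icc 1 t, (m.choose (t - s) : ℝ) *
        ((X.powersetCard s).map (fun T => cd w F t T)).sum := sorry

/-! ## PT -/

theorem pair_term {w : V → ℝ} {F : Multiset V → Prop} {t : ℕ} {d : ℝ} (hS : Sys w F t d)
    (m m₂ : ℕ) (hm1 : 1 ≤ m) (hmm : m ≤ m₂) (hd : 0 < d) (η : ℝ) (hη : 0 ≤ η) (i j : ℕ)
    (hi : i ≤ t - 1) (hj : j ≤ t - 1) (h1 : 1 ≤ i + j) (h2 : i + j ≤ t) :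
    (m.choose (t - (i + j)) : ℝ) * ∑ x, w x * M w (t - 1) (fun A => M w (t - 1) (fun A' =>
      ind (good w F t η m₂ (x ::ₘ A)) * ind (good w F t η m₂ (x ::ₘ A')) *
        ((A.powersetCard i).map (fun S => ((A'.powersetCard j).map
          (fun S' => cd w F t (S + S'))).sum)).sum)) ≤
    ((t - 1).choose i : ℝ) * ((t - 1).choose j : ℝ) *
      ((m.choose (t - 1) : ℝ) * d + η + η ^ 2 / (d * (m₂ : ℝ) ^ (t - 1))) * d ^ 2 := sorry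

/-! ## B1 -/

theorem b_one {w : V → ℝ} {F : Multiset V → Prop} {t : ℕ} {d : ℝ} (hS : Sys w F t d)
    (m m₂ : ℕ) (hm : t ≤ m) (hmm : m ≤ m₂) (hd : 0 < d) (η π : ℝ) (hη : 0 ≤ η) (hπ : 0 ≤ π)
    (hqpos : 0 < Q w F t m 0)
    (hq : ∀ b : ℕ, b ≤ 2 * t → Q w F t (m - b) 0 ≤ 2 * Q w F t m 0)
    (hbad : M w t (fun e => ind (bad w F t η m₂ e)) ≤ π * d)
    (hsm : 2 * π + 4 ^ t * ((m.choose (t - 1) : ℝ) * d + η +
      η ^ 2 / (d * (m₂ : ℝ) ^ (t - 1))) ≤ 1 / 2) :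
    d ^ 2 / 2 ≤ ∑ x, w x * M w (2 * (t - 1)) (fun R => ind (LL w F t η m₂ m x R)) := sorry

/-! ## B2 -/

theorem b_two {w : V → ℝ} {F : Multiset V → Prop} {t : ℕ} {d : ℝ} (hS : Sys w F t d)
    (m m₂ : ℕ) (hm : 1 ≤ m) (hmm : m ≤ m₂) (η : ℝ) (hη : 0 ≤ η) (hη1 : η ≤ 1)
    (hdm : d * (m₂ : ℝ) ^ (t - 1) ≤ η) (x : V) (S : Multiset V) (hS0 : 0 < S.card)
    (hS1 : S.card < 2 * (t - 1)) :
    (m : ℝ) ^ (2 * (t - 1) - S.card) *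
      M w (2 * (t - 1) - S.card) (fun Z => ind (LL w F t η m₂ m x (S + Z))) ≤ 4 ^ t * η := sorry

/-! ## B3 -/

theorem b_three {w : V → ℝ} {F : Multiset V → Prop} {t : ℕ} {d : ℝ} (hS : Sys w F t d)
    (m m₂ : ℕ) (hm : 4 * t ≤ m) (hmm : m ≤ m₂) (hd : 0 < d) (η π : ℝ) (hη : 0 ≤ η)
    (hη1 : 16 ^ t * η ≤ 1) (hπ : 0 ≤ π)
    (hqpos : 0 < Q w F t m 0)
    (hq : ∀ b : ℕ, b ≤ 4 * t → Q w F t (m - b) 0 ≤ 2 * Q w F t m 0)
    (hbad : M w t (fun e => ind (bad w F t η m₂ e)) ≤ π * d)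
    (hdm : d * (m₂ : ℝ) ^ (t - 1) ≤ η)
    (hch : (m.choose (t - 1) : ℝ) ≤ 2 * ((m - (t - 1)).choose (t - 1) : ℝ))
    (hv1 : (m.choose (t - 1) : ℝ) * d ≤ 1)
    (hsm : 2 * π + 4 ^ t * ((m.choose (t - 1) : ℝ) * d + η +
      η ^ 2 / (d * (m₂ : ℝ) ^ (t - 1))) ≤ 1 / 2) :
    ((m.choose (t - 1) : ℝ) * d) ^ 2 * Q w F t m 0 / (24 * 4 ^ t) ≤
      ∑ x, w x * M w m (fun J => ind (Indep F t J ∧
        ∃ R : Multiset V, R ≤ J ∧ R.card = 2 * (t - 1) ∧ LL w F t η m₂ m x R)) := sorry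

/-! ## CO : one scale -/

theorem core {w : V → ℝ} {F : Multiset V → Prop} {t : ℕ} {d : ℝ} (hS : Sys w F t d)
    (K m m₂ : ℕ) (hK : 0 < Q w F t K 0) (hK1 : Q w F t (K + 1) 0 = 0)
    (hm : 8 * t ≤ m) (hmm : m ≤ m₂) (hmK : m₂ + (t - 1) ≤ K) (hd : 0 < d)
    (η π ε ρ : ℝ) (hη : 0 < η) (hη1 : 16 ^ t * η ≤ 1) (hπ : 0 < π) (hπ1 : π ≤ 1) (hε : 0 ≤ ε)
    (hdK : (K.choose (t - 1) : ℝ) * d ≤ 1 + ε)
    (hv2 : 4 * (t : ℝ) * (((m₂ + (t - 1)).choose (t - 1) : ℝ) * d) ≤ 1 / 2)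
    (hKη : 200 * (2 * (t : ℝ)) ^ t * (t : ℝ) ^ 2 * 4 ^ t *
      (((t : ℝ) - 1) * (((m₂ + (t - 1)).choose (t - 1) : ℝ) * d) + ε) ≤ π ^ 2 * η)
    (hdm : d * (m₂ : ℝ) ^ (t - 1) ≤ η)
    (hρ : (m.choose (t - 1) : ℝ) ≤ (1 + ρ) * ((m - (t - 1)).choose (t - 1) : ℝ))
    (hsm : 2 * (t : ℝ) * ρ + 2 * (t : ℝ) ^ 2 * 4 ^ t * (6 * π + (m.choose (t - 1) : ℝ) * d + η +
      η ^ 2 / (d * (m₂ : ℝ) ^ (t - 1))) ≤ 1 / (48 * 4 ^ t)) :
    1 ≤ (K.choose (t - 1) : ℝ) * d * (1 - (m.choose (t - 1) : ℝ) * d / (48 * 4 ^ t)) := sorry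

end

/-! ## PR : the choice of the parameters -/

theorem params (t : ℕ) (ht : 3 ≤ t) : ∃ ε : ℝ, 0 < ε ∧ ∃ K₀ : ℕ, ∀ K : ℕ, K₀ ≤ K → ∀ d : ℝ,
    0 < d → 1 ≤ (K.choose (t - 1) : ℝ) * d → (K.choose (t - 1) : ℝ) * d ≤ 1 + ε →
    ∃ (m m₂ : ℕ) (η π ρ : ℝ), 8 * t ≤ m ∧ m ≤ m₂ ∧ m₂ + (t - 1) ≤ K ∧ 0 < η ∧ 16 ^ t * η ≤ 1 ∧
      0 < π ∧ π ≤ 1 ∧
      4 * (t : ℝ) * (((m₂ + (t - 1)).choose (t - 1) : ℝ) * d) ≤ 1 / 2 ∧
      200 * (2 * (t : ℝ)) ^ t * (t : ℝ) ^ 2 * 4 ^ t *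
        (((t : ℝ) - 1) * (((m₂ + (t - 1)).choose (t - 1) : ℝ) * d) + ε) ≤ π ^ 2 * η ∧
      d * (m₂ : ℝ) ^ (t - 1) ≤ η ∧
      (m.choose (t - 1) : ℝ) ≤ (1 + ρ) * ((m - (t - 1)).choose (t - 1) : ℝ) ∧
      2 * (t : ℝ) * ρ + 2 * (t : ℝ) ^ 2 * 4 ^ t * (6 * π + (m.choose (t - 1) : ℝ) * d + η +
        η ^ 2 / (d * (m₂ : ℝ) ^ (t - 1))) ≤ 1 / (48 * 4 ^ t) ∧
      96 * 4 ^ t * ε ≤ (m.choose (t - 1) : ℝ) * d := sorry

theorem main (t : ℕ) (ht : 3 ≤ t) : ∃ ε : ℝ, 0 < ε ∧ ∃ k₀ : ℕ, ∀ k : ℕ, k₀ ≤ k →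
    ∀ (V : Type) [Fintype V] [DecidableEq V] (w : V → ℝ) (F : Multiset V → Prop) (d : ℝ),
    Sys w F t d → Q w F t k 0 = 0 → 1 + ε ≤ ((k - 1).choose (t - 1) : ℝ) * d := sorry

/-! ## RG : optimal weights -/

section
variable {V : Type} [Fintype V] [DecidableEq V]

theorem regular [Nonempty V] (F : Multiset V → Prop) (t : ℕ) (ht : 3 ≤ t) :
    ∃ w : V → ℝ, (∀ x, 0 ≤ w x) ∧ ∑ x, w x = 1 ∧
      (∀ x, 0 < w x → cd w F t {x} = M w t (fun Z => ind (F Z))) ∧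
      ∀ u : V → ℝ, (∀ x, 0 ≤ u x) → ∑ x, u x = 1 →
        M w t (fun Z => ind (F Z)) ≤ M u t (fun Z => ind (F Z)) := sorry

theorem support (w : V → ℝ) (hw : ∀ x, 0 ≤ w x) (n : ℕ) (f : Multiset V → ℝ) :
    M (V := {x : V // 0 < w x}) (fun x => w x.1) n (fun Z => f (Z.map Subtype.val)) =
      M w n f := sorry

end

/-! ## TU : covering families -/

/-- the system of a family of sets: repeated elements or members of the family -/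
def FG {n : ℕ} (G : Finset (Finset (Fin n))) (Z : Multiset (Fin n)) : Prop :=
  ¬ Z.Nodup ∨ Z.toFinset ∈ G

theorem FG_cover {n : ℕ} (G : Finset (Finset (Fin n))) (t k : ℕ) (ht : 2 ≤ t) (hk : t ≤ k)
    (hG : ∀ Z ∈ G, Z.card = t)
    (hcov : ∀ Y : Finset (Fin n), Y.card = k → ∃ Z ∈ G, Z ⊆ Y) (J : Multiset (Fin n))
    (hJ : J.card = k) : ¬ Indep (FG G) t J := sorry

theorem FG_uniform {n : ℕ} (hn : 0 < n) (G : Finset (Finset (Fin n))) (t : ℕ)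
    (hG : ∀ Z ∈ G, Z.card = t) :
    M (fun _ : Fin n => 1 / (n : ℝ)) t (fun Z => ind (FG G Z)) ≤
      (t : ℝ) ^ 2 / (2 * n) + (t.factorial : ℝ) * G.card / (n : ℝ) ^ t := sorry

theorem final (t : ℕ) (ht : 3 ≤ t) : ∃ ε : ℝ, 0 < ε ∧ ∃ k₀ : ℕ, ∀ k : ℕ, k₀ ≤ k →
    ∀ n : ℕ, k < n → ∀ G : Finset (Finset (Fin n)), (∀ Z ∈ G, Z.card = t) →
    (∀ Y : Finset (Fin n), Y.card = k → ∃ Z ∈ G, Z ⊆ Y) →
    (1 + ε) / ((k - 1).choose (t - 1) : ℝ) * (n.choose t : ℝ) - (n : ℝ) ^ (t - 1) ≤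
      (G.card : ℝ) := sorry

end Pool.Agent.H123R2.Gen
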